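import Pool.Agent.Helper83.CookLevin3

/-!
# Cook-Levin: `SAT` is `NP`-hard
-/

namespace Pool.Agent.Helper83.CL

open Pool.Agent.Helper81.CC Turing Computability

theorem closed_exists (tm : FinTM2) (extra : Σ k, tm.Γ k) :
    ∃ (ql : List (Option (TM2.Stmt tm.Γ tm.Λ tm.σ) × tm.σ)) (kl : List tm.K)
      (gl : List (Σ k, tm.Γ k)), Closed tm.m ql kl gl ∧
      ((some (tm.m tm.main), tm.initialState) : Option (TM2.Stmt tm.Γ tm.Λ tm.σ) × tm.σ) ∈ ql ∧
      (∀ g : tm.Γ tm.k₀, (⟨tm.k₀, g⟩ : Σ k, tm.Γ k) ∈ gl) ∧ extra ∈ gl := by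
  classical
  have := tm.kFin
  have := tm.ΛFin
  have := tm.σFin
  have := tm.Γk₀Fin
  set Q : Finset (Option (TM2.Stmt tm.Γ tm.Λ tm.σ) × tm.σ) :=
    TM2.stmts tm.m Finset.univ ×ˢ Finset.univ with hQ
  set G : Finset (Σ k, tm.Γ k) := (TM2.stmts tm.m Finset.univ).biUnion pushG ∪
    (Finset.univ.image (fun g => (⟨tm.k₀, g⟩ : Σ k, tm.Γ k)) ∪ {extra}) with hG
  have memm : ∀ l, (some (tm.m l) : Option (TM2.Stmt tm.Γ tm.Λ tm.σ)) ∈
      TM2.stmts tm.m Finset.univ := by
    intro l
    rw [TM2.stmts, Finset.some_mem_insertNone, Finset.mem_biUnion]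
    exact ⟨l, Finset.mem_univ _, TM2.stmts₁_self⟩
  have memn : (none : Option (TM2.Stmt tm.Γ tm.Λ tm.σ)) ∈ TM2.stmts tm.m Finset.univ := by
    rw [TM2.stmts]
    exact Finset.none_mem_insertNone
  refine ⟨Q.toList, Finset.univ.toList, G.toList, ⟨Finset.nodup_toList _, ?_, ?_, ?_⟩, ?_, ?_, ?_⟩
  · rintro ⟨s, v⟩ hc tp
    rw [Finset.mem_toList, hQ, Finset.mem_product] at hc ⊢
    refine ⟨?_, Finset.mem_univ _⟩
    have hs := hc.1
    simp only at hs
    rcases s with _ | s
    · exact memn
    · cases s with
      | push k f q =>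
        exact TM2.stmts_trans (by simp [TM2.stmts₁, TM2.stmts₁_self]) hs
      | peek k f q =>
        exact TM2.stmts_trans (by simp [TM2.stmts₁, TM2.stmts₁_self]) hs
      | pop k f q =>
        exact TM2.stmts_trans (by simp [TM2.stmts₁, TM2.stmts₁_self]) hs
      | load a q =>
        exact TM2.stmts_trans (by simp [TM2.stmts₁, TM2.stmts₁_self]) hs
      | branch p q₁ q₂ =>
        simp only [ctl]
        cases p v with
        | true => exact TM2.stmts_trans (by simp [TM2.stmts₁, TM2.stmts₁_self]) hs
        | false => exact TM2.stmts_trans (by simp [TM2.stmts₁, TM2.stmts₁_self]) hs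
      | goto l => exact memm _
      | halt => exact memn
  · rintro ⟨s, v⟩ hc g hg
    rw [Finset.mem_toList, hQ, Finset.mem_product] at hc
    rw [Finset.mem_toList, hG]
    apply Finset.mem_union_left
    rw [Finset.mem_biUnion]
    refine ⟨s, hc.1, ?_⟩
    rcases s with _ | s
    · simp [opr] at hg
    · cases s with
      | push k f q =>
        simp only [opr, Option.some.injEq] at hg
        subst hg
        simp [pushG]
      | _ => simp [opr] at hg
  · intro k
    rw [Finset.mem_toList]
    exact Finset.mem_univ _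
  · rw [Finset.mem_toList, hQ, Finset.mem_product]
    exact ⟨memm _, Finset.mem_univ _⟩
  · intro g
    rw [Finset.mem_toList, hG]
    apply Finset.mem_union_right
    apply Finset.mem_union_left
    exact Finset.mem_image_of_mem _ (Finset.mem_univ _)
  · rw [Finset.mem_toList, hG]
    apply Finset.mem_union_right
    apply Finset.mem_union_right
    exact Finset.mem_singleton_self _

theorem PT_eval {α : Type} [ToData α] (P : Polynomial ℕ) {f : α → ℕ} (hf : PolyTime f) :
    PolyTime (fun a => P.eval (f a)) := by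
  induction P using Polynomial.induction_on' with
  | add p q hp hq =>
    simp only [Polynomial.eval_add]
    exact PolyTime.add hp hq
  | monomial n c =>
    simp only [Polynomial.eval_monomial]
    exact PolyTime.mul (PolyTime.const c) (PolyTime.pow hf n)

theorem initList_stk (tm : FinTM2) (s : List (tm.Γ tm.k₀)) :
    (initList tm s).stk tm.k₀ = s := by
  unfold initList
  simp

theorem initList_stk' (tm : FinTM2) (s : List (tm.Γ tm.k₀)) {k : tm.K} (hk : k ≠ tm.k₀) :
    (initList tm s).stk k = [] := by
  unfold initList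
  simp [hk]

theorem haltList_stk (tm : FinTM2) (s : List (tm.Γ tm.k₁)) :
    (haltList tm s).stk tm.k₁ = s := by
  unfold haltList
  simp

theorem getD_map_cellc {K : Type} {Γ : K → Type} (gl : List (Σ k, Γ k)) (k : K) (f : Bool → Γ k)
    (b : Bool → ℕ) (hb : ∀ x, b x = cellc gl k (some (f x))) (l : List Bool) (i : ℕ) :
    (l.map b).getD i 0 = cellc gl k ((l.map f)[i]?) := by
  rcases Nat.lt_or_ge i l.length with h | h
  · rw [List.getD_eq_getElem _ _ (by simpa using h), List.getElem?_eq_getElem (by simpa using h)]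
    simp [hb]
  · rw [List.getD_eq_default _ _ (by simpa using h), List.getElem?_eq_none (by simpa using h)]
    rfl

theorem exists_depth (tm : FinTM2) : ∃ D, ∀ l, depth (tm.m l) ≤ D := by
  have := tm.ΛFin
  exact ⟨Finset.univ.sup (fun l => depth (tm.m l)), fun l =>
    Finset.le_sup (f := fun l => depth (tm.m l)) (Finset.mem_univ l)⟩

/-- **Cook-Levin theorem**, strong form: every problem in NP reduces to `SAT` by a function
computed by a stack program in polynomial time. -/
theorem SAT_hardS : SAT.HardS := by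
  intro A hA
  obtain ⟨V, p, ⟨h⟩, hV⟩ := hA
  set tm := h.tm with htm
  set gt : tm.Γ tm.k₁ := h.outputAlphabet.invFun true with hgt
  obtain ⟨ql, kl, gl, hcl, hmain, hin, hextra⟩ := closed_exists tm ⟨tm.k₁, gt⟩
  obtain ⟨D, hD⟩ := exists_depth tm
  -- parameters of the tableau
  set M : SM := codeM tm.m tm.k₀ ql kl gl with hM
  set q0 := qc ql (some (tm.m tm.main), tm.initialState) with hq0
  set cf := cellc gl tm.k₀ (some (h.inputAlphabet.invFun false)) with hcf
  set ct := cellc gl tm.k₀ (some (h.inputAlphabet.invFun true)) with hct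
  set acc := cellc gl tm.k₁ (some gt) with hacc
  have hbc : ∀ b, SM.bc cf ct b = cellc gl tm.k₀ (some (h.inputAlphabet.invFun b)) := by
    intro b; cases b <;> rfl
  have hbcle : ∀ b, SM.bc cf ct b ≤ gl.length := by
    intro b
    rw [hbc]
    exact cellc_le _ (fun g _ => hin g)
  have hbcne : cf ≠ ct := by
    intro hh
    have h1 := cellc_inj gl tm.k₀ (hin _) hh
    have h2 := h.inputAlphabet.symm.injective h1
    simp at h2
  set tabF : List Bool → CNF := fun e =>
    SM.tab M ql.length kl.length gl.length q0 (kc kl tm.k₀) (kc kl tm.k₁) cf ct acc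
      (((e.flatMap fun b => [true, b]) ++ [false]).map (SM.bc cf ct)) (p.eval e.length)
      (D * h.time.eval (2 * e.length + 1 + p.eval e.length)) with htabF
  have hPT : PolyTime tabF := by
    apply SM.PT_tab
    · have : PolyTime (fun z : List Bool × Bool => SM.bc cf ct z.2) := by
        unfold SM.bc
        fun_prop
      fun_prop
    · exact PT_eval p (by fun_prop)
    · exact PolyTime.mul (PolyTime.const D) (PT_eval h.time
        (PolyTime.add (by fun_prop) (PT_eval p (by fun_prop))))
  refine ⟨fun x => tabF (A.enc x), SComp.comp hPT.scomp (scomp_enc A.enc), fun x => ?_⟩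
  rw [hV x]
  show _ ↔ CNF.Satisfiable (tabF (A.enc x))
  rw [htabF]
  simp only
  generalize hen : A.enc x = e
  have hti := SM.tab_iff (M := M) (q0 := q0) (k0 := kc kl tm.k₀) (k1 := kc kl tm.k₁) (cf := cf)
    (ct := ct) (acc := acc) (w := ((e.flatMap fun b => [true, b]) ++ [false]).map (SM.bc cf ct))
    (codeM_bounded hcl) (qc_lt hmain) (kc_lt (hcl.kl _)) (kc_lt (hcl.kl _))
    (hbcle false) (hbcle true) (cellc_le _ (by
      intro g hg
      rw [Option.mem_def, Option.some.injEq] at hg
      rw [← hg]; exact hextra)) (by simp [hcf, cellc]) (by simp [hct, cellc]) hbcne (by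
      intro y hy
      obtain ⟨b, _, rfl⟩ := List.mem_map.1 hy
      exact hbcle b) (p.eval e.length) (D * h.time.eval (2 * e.length + 1 + p.eval e.length))
  rw [hti]
  refine exists_congr fun y => and_congr_right fun hy => ?_
  rw [← List.map_append]
  have hpe : (e.flatMap fun b => [true, b]) ++ [false] ++ y = pairEnc e y := by
    simp [pairEnc]
  rw [hpe]
  set T := D * h.time.eval (2 * e.length + 1 + p.eval e.length) with hT
  set c0 := initList tm (List.map h.inputAlphabet.invFun (pairEnc e y)) with hc0
  set C0 := SM.initC q0 (kc kl tm.k₀) ((pairEnc e y).map (SM.bc cf ct)) with hC0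
  have hrel : Rel ql kl gl (conv tm.m c0) C0 := by
    refine ⟨hmain, ?_, rfl, ?_⟩
    · intro k g hg
      by_cases hk : k = tm.k₀
      · subst hk
        exact hin g
      · have : c0.stk k = [] := initList_stk' tm _ hk
        have hg' : g ∈ c0.stk k := hg
        rw [this] at hg'
        simp at hg'
    · intro k i
      by_cases hk : k = tm.k₀
      · subst hk
        have h1 : (conv tm.m c0).2 tm.k₀ =
          List.map h.inputAlphabet.invFun (pairEnc e y) := initList_stk tm _
        rw [h1]
        show (if kc kl tm.k₀ = kc kl tm.k₀ then _ else _) = _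
        rw [if_pos rfl]
        exact getD_map_cellc gl tm.k₀ _ _ hbc _ i
      · have h1 : (conv tm.m c0).2 k = [] := initList_stk' tm _ hk
        rw [h1]
        show (if kc kl k = kc kl tm.k₀ then _ else _) = _
        rw [if_neg (fun h' => hk (kc_inj hcl.kl h'))]
        rfl
  -- the run of the machine
  obtain ⟨⟨s, hs⟩, hsle⟩ := h.outputsFun (x, y)
  have hs' : (flip bind (TM2.step tm.m))^[s] (some c0) =
      some (haltList tm [h.outputAlphabet.invFun (V (x, y))]) := by
    rw [hc0, ← hen]
    exact hs
  obtain ⟨d, hd, hd'⟩ := micro_run tm.m hD s _ _ hs'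
  have hdT : d ≤ T := by
    refine hd.trans (Nat.mul_le_mul_left D (hsle.trans (poly_mono _ ?_)))
    rw [length_pairEnc]
    simp only
    rw [hen]
    omega
  have hfinal : (micro tm.m)^[T] (conv tm.m c0) =
      conv tm.m (haltList tm [h.outputAlphabet.invFun (V (x, y))]) := by
    rw [show T = (T - d) + d by omega, Function.iterate_add_apply, hd']
    exact micro_halt tm.m _ rfl _
  have hrelT := hrel.iter (k0 := tm.k₀) hcl T
  rw [hfinal] at hrelT
  have hcell := hrelT.cell tm.k₁ 0
  have hstk : (conv tm.m (haltList tm [h.outputAlphabet.invFun (V (x, y))])).2 tm.k₁ =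
      [h.outputAlphabet.invFun (V (x, y))] := haltList_stk tm _
  rw [hstk] at hcell
  rw [hM, hcell]
  constructor
  · intro hVt
    rw [hVt]
    rfl
  · intro hh
    have h1 : cellc gl tm.k₁ (some gt) =
        cellc gl tm.k₁ (some (h.outputAlphabet.invFun (V (x, y)))) := hh.symm
    have h2 := cellc_inj gl tm.k₁ hextra h1
    exact (h.outputAlphabet.symm.injective h2).symm

/-- **Cook-Levin theorem**: `SAT` is NP-hard. -/
theorem SAT_NPHard : SAT.NPHard := SAT_hardS.npHard

end Pool.Agent.Helper83.CL
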