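import Pool.Agent.Helper81.CompB

/-!
# Cook-Levin, part 1: the tableau of a coded stack machine
-/

namespace Pool.Agent.Helper83.CL

open Pool.Agent.Helper81.CC

/-- A coded stack machine: states, stacks and symbols are natural numbers, symbol `0` is the blank.
`actL` gives the active stack of a state, `nxtL` and `opL` give the next state and the operation
for a state and the top symbol of the active stack. -/
structure SM where
  /-- active stacks -/
  actL : List ℕ
  /-- next states -/
  nxtL : List (List ℕ)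
  /-- operations: `0` nothing, `1` pop, `s + 1` push the symbol `s > 0` -/
  opL : List (List ℕ)

namespace SM

variable (M : SM)

/-- active stack -/
def act (q : ℕ) : ℕ := M.actL.getD q 0

/-- next state -/
def nxt (q o : ℕ) : ℕ := (M.nxtL.getD q []).getD o 0

/-- operation -/
def op (q o : ℕ) : ℕ := (M.opL.getD q []).getD o 0

/-- effect of an operation on a stack -/
def upd (a : ℕ) (f : ℕ → ℕ) (i : ℕ) : ℕ :=
  if a = 0 then f i else if a = 1 then f (i + 1) else if i = 0 then a - 1 else f (i - 1)

/-- configurations: state and contents of the stacks, cell `0` being the top -/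
abbrev Cf := ℕ × (ℕ → ℕ → ℕ)

/-- one step -/
def step (C : Cf) : Cf :=
  (M.nxt C.1 (C.2 (M.act C.1) 0),
    fun k => upd (if k = M.act C.1 then M.op C.1 (C.2 (M.act C.1) 0) else 0) (C.2 k))

/-- the numbers of states, stacks and symbols -/
structure Bounded (nQ nK nG : ℕ) : Prop where
  act_lt : ∀ q < nQ, M.act q < nK
  nxt_lt : ∀ q < nQ, ∀ o ≤ nG, M.nxt q o < nQ
  op_le : ∀ q < nQ, ∀ o ≤ nG, M.op q o ≤ nG + 1

/-- well-formed configurations -/
structure WF (nQ nG h : ℕ) (C : Cf) : Prop where
  st : C.1 < nQ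
  sym : ∀ k i, C.2 k i ≤ nG
  blank : ∀ k i, h ≤ i → C.2 k i = 0

variable {M} {nQ nK nG : ℕ}

theorem WF.step (hM : M.Bounded nQ nK nG) {h : ℕ} {C : Cf} (hC : WF nQ nG h C) :
    WF nQ nG (h + 1) (M.step C) where
  st := hM.nxt_lt _ hC.st _ (hC.sym _ _)
  sym k i := by
    simp only [SM.step, upd]
    split_ifs with h1 h2 h3 h4 h5 h6 h7
    all_goals first
      | exact hC.sym _ _
      | (have := hM.op_le _ hC.st _ (hC.sym (M.act C.1) 0); omega)
  blank k i hi := by
    simp only [SM.step, upd]
    split_ifs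
    all_goals first
      | exact hC.blank _ _ (by omega)
      | omega

/-! ### Variables -/

/-- the variable saying that the state at time `t` is `q` -/
def vX (t q : ℕ) : ℕ := Nat.pair 0 (Nat.pair t q)

/-- the variable saying that the cell `i` of the stack `k` at time `t` is `s` -/
def vY (t k i s : ℕ) : ℕ := Nat.pair 1 (Nat.pair t (Nat.pair k (Nat.pair i s)))

/-- the assignment of a run -/
def asg (C : ℕ → Cf) (v : ℕ) : Bool :=
  if v.unpair.1 = 0 then
    decide (v.unpair.2.unpair.2 = (C v.unpair.2.unpair.1).1)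
  else
    decide (v.unpair.2.unpair.2.unpair.2.unpair.2 =
      (C v.unpair.2.unpair.1).2 v.unpair.2.unpair.2.unpair.1
        v.unpair.2.unpair.2.unpair.2.unpair.1)

theorem asg_X (C : ℕ → Cf) (t q : ℕ) : asg C (vX t q) = decide (q = (C t).1) := by
  simp [asg, vX]

theorem asg_Y (C : ℕ → Cf) (t k i s : ℕ) : asg C (vY t k i s) = decide (s = (C t).2 k i) := by
  simp [asg, vY]

/-! ### Clauses for the transitions -/

/-- the premise of the clauses -/
def pre (M : SM) (t q o : ℕ) : List Lit := [(false, vX t q), (false, vY t (M.act q) 0 o)]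

/-- the new state -/
def stCl (M : SM) (nQ t q o : ℕ) : CNF :=
  (List.range nQ).map (fun r => pre M t q o ++ [(r == M.nxt q o, vX (t + 1) r)])

/-- the new cells -/
def cellCl (M : SM) (N t q o k i s0 s : ℕ) : List Lit :=
  pre M t q o ++
    (if (if k = M.act q then M.op q o else 0) = 0 then
        [(false, vY t k i s0), (s == s0, vY (t + 1) k i s)]
      else if (if k = M.act q then M.op q o else 0) = 1 then
        (if i = N then [(s == 0, vY (t + 1) k i s)]
        else [(false, vY t k (i + 1) s0), (s == s0, vY (t + 1) k i s)])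
      else if i = 0 then
        [(s == (if k = M.act q then M.op q o else 0) - 1, vY (t + 1) k i s)]
      else [(false, vY t k (i - 1) s0), (s == s0, vY (t + 1) k i s)])

/-- all transition clauses -/
def trans (M : SM) (nQ nK nG T N : ℕ) : CNF :=
  (List.range T).flatMap fun t => (List.range nQ).flatMap fun q =>
    (List.range (nG + 1)).flatMap fun o => stCl M nQ t q o ++
      (List.range nK).flatMap fun k => (List.range (N + 1)).flatMap fun i =>
        (List.range (nG + 1)).flatMap fun s0 => (List.range (nG + 1)).map fun s =>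
          cellCl M N t q o k i s0 s

theorem mem_trans {T N : ℕ} {c : List Lit} :
    c ∈ trans M nQ nK nG T N ↔ ∃ t < T, ∃ q < nQ, ∃ o ≤ nG,
      (∃ r < nQ, c = pre M t q o ++ [(r == M.nxt q o, vX (t + 1) r)]) ∨
      (∃ k < nK, ∃ i ≤ N, ∃ s0 ≤ nG, ∃ s ≤ nG, c = cellCl M N t q o k i s0 s) := by
  simp only [trans, stCl, List.mem_flatMap, List.mem_range, List.mem_append, List.mem_map,
    Nat.lt_succ_iff, eq_comm]

/-- the row `t` of the assignment `a` describes the configuration `C` -/
structure Row (nQ nK nG N : ℕ) (a : ℕ → Bool) (t : ℕ) (C : Cf) : Prop where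
  st : ∀ q < nQ, a (vX t q) = decide (q = C.1)
  cell : ∀ k < nK, ∀ i ≤ N, ∀ s ≤ nG, a (vY t k i s) = decide (s = C.2 k i)

theorem sat_two {a : ℕ → Bool} {v w : ℕ} {l : List Lit}
    (hv : a v = true) (hw : a w = true)
    (h : ∃ x ∈ [((false, v) : Lit), (false, w)] ++ l, a x.2 = x.1) : ∃ x ∈ l, a x.2 = x.1 := by
  obtain ⟨x, hx, hx'⟩ := h
  simp only [List.cons_append, List.nil_append, List.mem_cons] at hx
  rcases hx with rfl | rfl | hx
  · simp [hv] at hx'
  · simp [hw] at hx'
  · exact ⟨x, hx, hx'⟩

theorem Row.step (hM : M.Bounded nQ nK nG) {T N h t : ℕ} {a : ℕ → Bool} {C : Cf}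
    (hC : WF nQ nG h C) (hN : h ≤ N + 1) (ht : t < T)
    (ha : ∀ c ∈ trans M nQ nK nG T N, ∃ l ∈ c, a l.2 = l.1)
    (hrow : Row nQ nK nG N a t C) : Row nQ nK nG N a (t + 1) (M.step C) := by
  have hX : a (vX t C.1) = true := by
    rw [hrow.st _ hC.st]; simp
  have hY : a (vY t (M.act C.1) 0 (C.2 (M.act C.1) 0)) = true := by
    rw [hrow.cell _ (hM.act_lt _ hC.st) _ (Nat.zero_le _) _ (hC.sym _ _)]; simp
  constructor
  · intro q hq
    have h1 := ha _ (mem_trans.2 ⟨t, ht, C.1, hC.st, _, hC.sym (M.act C.1) 0,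
      Or.inl ⟨q, hq, rfl⟩⟩)
    obtain ⟨l, hl, hl'⟩ := sat_two hX hY h1
    simp only [List.mem_singleton] at hl
    subst hl
    simp only at hl'
    rw [hl']
    simp only [SM.step]
    rfl
  · intro k hk i hi s hs
    have h1 := fun s0 (hs0 : s0 ≤ nG) => ha _ (mem_trans.2 ⟨t, ht, C.1, hC.st, _,
      hC.sym (M.act C.1) 0, Or.inr ⟨k, hk, i, hi, s0, hs0, s, hs, rfl⟩⟩)
    have h2 := fun s0 (hs0 : s0 ≤ nG) => sat_two hX hY (h1 s0 hs0)
    set b := (if k = M.act C.1 then M.op C.1 (C.2 (M.act C.1) 0) else 0) with hb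
    suffices hgoal : a (vY (t + 1) k i s) = decide (s = upd b (C.2 k) i) by exact hgoal
    -- the case of a source cell
    have key : ∀ j ≤ N, (∀ s0 ≤ nG, ∃ l ∈ [((false, vY t k j s0) : Lit),
        (s == s0, vY (t + 1) k i s)], a l.2 = l.1) →
        a (vY (t + 1) k i s) = decide (s = C.2 k j) := by
      intro j hj hh
      obtain ⟨l, hl, hl'⟩ := hh (C.2 k j) (hC.sym _ _)
      simp only [List.mem_cons, List.not_mem_nil, or_false] at hl
      rcases hl with rfl | rfl
      · simp only at hl'
        rw [hrow.cell k hk j hj _ (hC.sym _ _)] at hl'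
        simp at hl'
      · simp only at hl'
        rw [hl']
        rfl
    by_cases hb0 : b = 0
    · simp only [if_pos hb0] at h2
      rw [key i hi h2, upd, if_pos hb0]
    · simp only [if_neg hb0] at h2
      by_cases hb1 : b = 1
      · simp only [if_pos hb1] at h2
        by_cases hiN : i = N
        · simp only [if_pos hiN] at h2
          obtain ⟨l, hl, hl'⟩ := h2 0 (Nat.zero_le _)
          simp only [List.mem_singleton] at hl
          subst hl
          simp only at hl'
          rw [hl', upd, if_neg hb0, if_pos hb1, hC.blank k (i + 1) (by omega)]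
          rfl
        · simp only [if_neg hiN] at h2
          rw [key (i + 1) (by omega) h2, upd, if_neg hb0, if_pos hb1]
      · simp only [if_neg hb1] at h2
        by_cases hi0 : i = 0
        · simp only [if_pos hi0] at h2
          obtain ⟨l, hl, hl'⟩ := h2 0 (Nat.zero_le _)
          simp only [List.mem_singleton] at hl
          subst hl
          simp only at hl'
          rw [hl', upd, if_neg hb0, if_neg hb1, if_pos hi0]
          rfl
        · simp only [if_neg hi0] at h2
          rw [key (i - 1) (by omega) h2, upd, if_neg hb0, if_neg hb1, if_neg hi0]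

theorem trans_sat {T N : ℕ} (C : ℕ → Cf) (hC : ∀ t < T, C (t + 1) = M.step (C t))
    (hb : ∀ t < T, ∀ k, (C t).2 k (N + 1) = 0) :
    ∀ c ∈ trans M nQ nK nG T N, ∃ l ∈ c, asg C l.2 = l.1 := by
  intro c hc
  obtain ⟨t, ht, q, hq, o, ho, h⟩ := mem_trans.1 hc
  by_cases hq' : q = (C t).1
  swap
  · have : (false, vX t q) ∈ c := by
      rcases h with ⟨r, hr, rfl⟩ | ⟨k, hk, i, hi, s0, hs0, s, hs, rfl⟩
      · simp [pre]
      · simp [pre, cellCl]
    exact ⟨_, this, by rw [asg_X]; simpa using hq'⟩
  by_cases ho' : o = (C t).2 (M.act q) 0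
  swap
  · have : (false, vY t (M.act q) 0 o) ∈ c := by
      rcases h with ⟨r, hr, rfl⟩ | ⟨k, hk, i, hi, s0, hs0, s, hs, rfl⟩
      · simp [pre]
      · simp [pre, cellCl]
    exact ⟨_, this, by rw [asg_Y]; simpa using ho'⟩
  rcases h with ⟨r, hr, rfl⟩ | ⟨k, hk, i, hi, s0, hs0, s, hs, rfl⟩
  · refine ⟨(r == M.nxt q o, vX (t + 1) r), by simp, ?_⟩
    rw [asg_X, hC t ht, SM.step]
    simp only [← hq', ← ho']
    rfl
  · have hnew : (C (t + 1)).2 k i =
        upd (if k = M.act q then M.op q o else 0) ((C t).2 k) i := by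
      rw [hC t ht, SM.step]
      simp only [← hq', ← ho']
    simp only [cellCl]
    set b := (if k = M.act q then M.op q o else 0) with hbdef
    have key : ∀ j, (C (t + 1)).2 k i = (C t).2 k j →
        ∃ l ∈ pre M t q o ++ [((false, vY t k j s0) : Lit), (s == s0, vY (t + 1) k i s)],
          asg C l.2 = l.1 := by
      intro j hj
      by_cases hs0' : s0 = (C t).2 k j
      · refine ⟨(s == s0, vY (t + 1) k i s), by simp, ?_⟩
        rw [asg_Y, hj, ← hs0']
        rfl
      · refine ⟨(false, vY t k j s0), by simp, ?_⟩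
        rw [asg_Y]
        simpa using hs0'
    by_cases hb0 : b = 0
    · rw [if_pos hb0]
      apply key
      rw [hnew, upd, if_pos hb0]
    · rw [if_neg hb0]
      by_cases hb1 : b = 1
      · rw [if_pos hb1]
        by_cases hiN : i = N
        · rw [if_pos hiN]
          refine ⟨(s == 0, vY (t + 1) k i s), by simp, ?_⟩
          rw [asg_Y, hnew, upd, if_neg hb0, if_pos hb1, hiN, hb t ht k]
          rfl
        · rw [if_neg hiN]
          apply key
          rw [hnew, upd, if_neg hb0, if_pos hb1]
      · rw [if_neg hb1]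
        by_cases hi0 : i = 0
        · rw [if_pos hi0]
          refine ⟨(s == b - 1, vY (t + 1) k i s), by simp, ?_⟩
          rw [asg_Y, hnew, upd, if_neg hb0, if_neg hb1, if_pos hi0]
          rfl
        · rw [if_neg hi0]
          apply key
          rw [hnew, upd, if_neg hb0, if_neg hb1, if_neg hi0]

end SM

end Pool.Agent.Helper83.CL
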