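import Pool.Agent.Helper83.CookLevin1

/-!
# Cook-Levin, part 2: the initial row, the tableau theorem, and its polynomial time
-/

namespace Pool.Agent.Helper83.CL

open Pool.Agent.Helper81.CC

namespace SM

variable {M : SM} {nQ nK nG : ℕ}

/-- initial configurations -/
def initC (q0 k0 : ℕ) (w : List ℕ) : Cf := (q0, fun k i => if k = k0 then w.getD i 0 else 0)

/-- the clauses of a free cell -/
def freeCl (nG k cf ct i : ℕ) : CNF :=
  [(true, vY 0 k i 0), (true, vY 0 k i cf), (true, vY 0 k i ct)] ::
  [(false, vY 0 k i 0), (true, vY 0 k (i + 1) 0)] ::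
  ((List.range (nG + 1)).flatMap fun s => (List.range (nG + 1)).flatMap fun s' =>
    if s = s' then [] else [[(false, vY 0 k i s), (false, vY 0 k i s')]])

/-- the clauses of the initial row -/
def initCl (nQ nK nG q0 k0 cf ct : ℕ) (w : List ℕ) (P N : ℕ) : CNF :=
  (List.range nQ).map (fun q => [(q == q0, vX 0 q)]) ++
  (List.range nK).flatMap fun k => (List.range (N + 1)).flatMap fun i =>
    if k = k0 ∧ w.length ≤ i ∧ i < w.length + P then freeCl nG k cf ct i
    else (List.range (nG + 1)).map fun s =>
      [(s == (if k = k0 then w.getD i 0 else 0), vY 0 k i s)]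

theorem mem_freeCl {k cf ct i : ℕ} {c : List Lit} : c ∈ freeCl nG k cf ct i ↔
    c = [(true, vY 0 k i 0), (true, vY 0 k i cf), (true, vY 0 k i ct)] ∨
    c = [(false, vY 0 k i 0), (true, vY 0 k (i + 1) 0)] ∨
    ∃ s ≤ nG, ∃ s' ≤ nG, s ≠ s' ∧ c = [(false, vY 0 k i s), (false, vY 0 k i s')] := by
  simp only [freeCl, List.mem_cons, List.mem_flatMap, List.mem_range, Nat.lt_succ_iff]
  constructor
  · rintro (h | h | ⟨s, hs, s', hs', h⟩)
    · exact Or.inl h
    · exact Or.inr (Or.inl h)
    · by_cases hss : s = s'
      · rw [if_pos hss] at h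
        simp at h
      · rw [if_neg hss] at h
        exact Or.inr (Or.inr ⟨s, hs, s', hs', hss, by simpa using h⟩)
  · rintro (h | h | ⟨s, hs, s', hs', hss, h⟩)
    · exact Or.inl h
    · exact Or.inr (Or.inl h)
    · refine Or.inr (Or.inr ⟨s, hs, s', hs', ?_⟩)
      rw [if_neg hss]
      simpa using h

theorem mem_initCl {q0 k0 cf ct : ℕ} {w : List ℕ} {P N : ℕ} {c : List Lit} :
    c ∈ initCl nQ nK nG q0 k0 cf ct w P N ↔
    (∃ q < nQ, c = [(q == q0, vX 0 q)]) ∨
    (∃ k < nK, ∃ i ≤ N, (k = k0 ∧ w.length ≤ i ∧ i < w.length + P) ∧
      c ∈ freeCl nG k cf ct i) ∨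
    (∃ k < nK, ∃ i ≤ N, ¬ (k = k0 ∧ w.length ≤ i ∧ i < w.length + P) ∧
      ∃ s ≤ nG, c = [(s == (if k = k0 then w.getD i 0 else 0), vY 0 k i s)]) := by
  simp only [initCl, List.mem_append, List.mem_map, List.mem_range, List.mem_flatMap,
    Nat.lt_succ_iff]
  constructor
  · rintro (⟨q, hq, rfl⟩ | ⟨k, hk, i, hi, h⟩)
    · exact Or.inl ⟨q, hq, rfl⟩
    · by_cases hc : k = k0 ∧ w.length ≤ i ∧ i < w.length + P
      · rw [if_pos hc] at h
        exact Or.inr (Or.inl ⟨k, hk, i, hi, hc, h⟩)
      · rw [if_neg hc] at h
        obtain ⟨s, hs, rfl⟩ := List.mem_map.1 h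
        exact Or.inr (Or.inr ⟨k, hk, i, hi, hc, s, by simpa [Nat.lt_succ_iff] using hs, rfl⟩)
  · rintro (⟨q, hq, rfl⟩ | ⟨k, hk, i, hi, hc, h⟩ | ⟨k, hk, i, hi, hc, s, hs, rfl⟩)
    · exact Or.inl ⟨q, hq, rfl⟩
    · refine Or.inr ⟨k, hk, i, hi, ?_⟩
      rw [if_pos hc]
      exact h
    · refine Or.inr ⟨k, hk, i, hi, ?_⟩
      rw [if_neg hc]
      exact List.mem_map.2 ⟨s, by simpa [Nat.lt_succ_iff] using hs, rfl⟩

/-- the symbol of a bit -/
def bc (cf ct : ℕ) (b : Bool) : ℕ := if b then ct else cf

/-- the whole tableau -/
def tab (M : SM) (nQ nK nG q0 k0 k1 cf ct acc : ℕ) (w : List ℕ) (P T : ℕ) : CNF :=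
  [(true, vY T k1 0 acc)] ::
  (initCl nQ nK nG q0 k0 cf ct w P (w.length + P + T) ++
    trans M nQ nK nG T (w.length + P + T))

theorem initC_wf {q0 k0 cf ct : ℕ} (hq0 : q0 < nQ) (hcf : cf ≤ nG) (hct : ct ≤ nG)
    {w : List ℕ} (hw : ∀ x ∈ w, x ≤ nG) {P : ℕ} (y : List Bool) (hy : y.length ≤ P) :
    WF nQ nG (w.length + P) (initC q0 k0 (w ++ y.map (bc cf ct))) where
  st := hq0
  sym k i := by
    simp only [initC]
    split_ifs
    · rcases Nat.lt_or_ge i (w ++ y.map (bc cf ct)).length with h | h
      · rw [List.getD_eq_getElem _ _ h]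
        have := List.getElem_mem h
        rcases List.mem_append.1 this with h' | h'
        · exact hw _ h'
        · obtain ⟨b, _, hb⟩ := List.mem_map.1 h'
          rw [← hb, bc]
          split_ifs
          · exact hct
          · exact hcf
      · rw [List.getD_eq_default _ _ h]
        exact Nat.zero_le _
    · exact Nat.zero_le _
  blank k i hi := by
    simp only [initC]
    split_ifs
    · rw [List.getD_eq_default]
      rw [List.length_append, List.length_map]
      omega
    · rfl

theorem iter_wf (hM : M.Bounded nQ nK nG) {h : ℕ} {C : Cf} (hC : WF nQ nG h C) (t : ℕ) :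
    WF nQ nG (h + t) (M.step^[t] C) := by
  induction t with
  | zero => exact hC
  | succ t ih =>
    rw [Function.iterate_succ_apply']
    exact ih.step hM

/-- **Correctness of the tableau.** -/
theorem tab_iff (hM : M.Bounded nQ nK nG) {q0 k0 k1 cf ct acc : ℕ} (hq0 : q0 < nQ)
    (hk0 : k0 < nK) (hk1 : k1 < nK)
    (hcf : cf ≤ nG) (hct : ct ≤ nG) (hacc : acc ≤ nG) (hcf0 : cf ≠ 0) (hct0 : ct ≠ 0)
    (hcc : cf ≠ ct) {w : List ℕ} (hw : ∀ x ∈ w, x ≤ nG) (P T : ℕ) :
    (tab M nQ nK nG q0 k0 k1 cf ct acc w P T).Satisfiable ↔
      ∃ y : List Bool, y.length ≤ P ∧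
        (M.step^[T] (initC q0 k0 (w ++ y.map (bc cf ct)))).2 k1 0 = acc := by
  set N := w.length + P + T with hN
  constructor
  · rintro ⟨a, ha⟩
    have hfin : a (vY T k1 0 acc) = true := by
      obtain ⟨l, hl, hl'⟩ := ha [(true, vY T k1 0 acc)] (by simp [tab])
      simp only [List.mem_singleton] at hl
      subst hl
      exact hl'
    have hinit : ∀ c ∈ initCl nQ nK nG q0 k0 cf ct w P N, ∃ l ∈ c, a l.2 = l.1 := by
      intro c hc
      exact ha c (by simp only [tab, List.mem_cons, List.mem_append]; exact Or.inr (Or.inl hc))
    have htrans : ∀ c ∈ trans M nQ nK nG T N, ∃ l ∈ c, a l.2 = l.1 := by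
      intro c hc
      exact ha c (by simp only [tab, List.mem_cons, List.mem_append]; exact Or.inr (Or.inr hc))
    -- the free cells
    have hfree : ∀ j < P, ∀ c ∈ freeCl nG k0 cf ct (w.length + j), ∃ l ∈ c, a l.2 = l.1 := by
      intro j hj c hc
      exact hinit c (mem_initCl.2 (Or.inr (Or.inl ⟨k0, hk0, w.length + j, by omega,
        ⟨rfl, by omega, by omega⟩, hc⟩)))
    set f : ℕ → ℕ := fun j => if a (vY 0 k0 (w.length + j) ct) = true then ct
      else if a (vY 0 k0 (w.length + j) cf) = true then cf else 0 with hf
    have hftrue : ∀ j < P, a (vY 0 k0 (w.length + j) (f j)) = true := by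
      intro j hj
      simp only [hf]
      split_ifs with h1 h2
      · exact h1
      · exact h2
      · obtain ⟨l, hl, hl'⟩ := hfree j hj _ (mem_freeCl.2 (Or.inl rfl))
        simp only [List.mem_cons, List.not_mem_nil, or_false] at hl
        rcases hl with rfl | rfl | rfl
        · exact hl'
        · exact absurd hl' h2
        · exact absurd hl' h1
    have hfle : ∀ j, f j ≤ nG := by
      intro j
      simp only [hf]
      split_ifs
      · exact hct
      · exact hcf
      · exact Nat.zero_le _
    have hfuniq : ∀ j < P, ∀ s ≤ nG, a (vY 0 k0 (w.length + j) s) = decide (s = f j) := by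
      intro j hj s hs
      by_cases h : s = f j
      · rw [h, hftrue j hj]; simp
      · obtain ⟨l, hl, hl'⟩ := hfree j hj _ (mem_freeCl.2 (Or.inr (Or.inr
          ⟨s, hs, f j, hfle j, h, rfl⟩)))
        simp only [List.mem_cons, List.not_mem_nil, or_false] at hl
        rcases hl with rfl | rfl
        · simp only at hl'
          rw [hl']
          simp [h]
        · simp only at hl'
          rw [hftrue j hj] at hl'
          simp at hl'
    have hmono : ∀ j, j + 1 < P → f j = 0 → f (j + 1) = 0 := by
      intro j hj hj0
      obtain ⟨l, hl, hl'⟩ := hfree j (by omega) _ (mem_freeCl.2 (Or.inr (Or.inl rfl)))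
      simp only [List.mem_cons, List.not_mem_nil, or_false] at hl
      rcases hl with rfl | rfl
      · simp only at hl'
        have := hftrue j (by omega)
        rw [hj0] at this
        rw [this] at hl'
        simp at hl'
      · simp only at hl'
        rw [show w.length + j + 1 = w.length + (j + 1) by omega,
          hfuniq (j + 1) hj 0 (Nat.zero_le _)] at hl'
        simpa [eq_comm] using hl'
    have hex : ∃ m, P ≤ m ∨ f m = 0 := ⟨P, Or.inl le_rfl⟩
    classical
    set m := Nat.find hex with hm
    have hmP : m ≤ P := Nat.find_min' hex (Or.inl le_rfl)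
    have hlt : ∀ j < m, f j ≠ 0 := fun j hj h0 => Nat.find_min hex hj (Or.inr h0)
    have hge : ∀ j, m ≤ j → j < P → f j = 0 := by
      intro j hj hjP
      induction j, hj using Nat.le_induction with
      | base =>
        rcases Nat.find_spec hex with h | h
        · exact absurd h (by omega)
        · exact h
      | succ j hj ih => exact hmono j hjP (ih (by omega))
    set y : List Bool := (List.range m).map (fun j => decide (f j = ct)) with hy
    have hylen : y.length = m := by simp [hy]
    refine ⟨y, by omega, ?_⟩
    set C0 := initC q0 k0 (w ++ y.map (bc cf ct)) with hC0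
    have hwf0 : WF nQ nG (w.length + P) C0 := initC_wf hq0 hcf hct hw y (by omega)
    have hrow0 : Row nQ nK nG N a 0 C0 := by
      constructor
      · intro q hq
        obtain ⟨l, hl, hl'⟩ := hinit _ (mem_initCl.2 (Or.inl ⟨q, hq, rfl⟩))
        simp only [List.mem_singleton] at hl
        subst hl
        simp only at hl'
        rw [hl', hC0, initC]
        rfl
      · intro k hk i hi s hs
        by_cases hc : k = k0 ∧ w.length ≤ i ∧ i < w.length + P
        · obtain ⟨rfl, h1, h2⟩ := hc
          obtain ⟨j, rfl⟩ : ∃ j, i = w.length + j := ⟨i - w.length, by omega⟩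
          rw [hfuniq j (by omega) s hs]
          congr 1
          rw [hC0, initC]
          simp only [if_true]
          have : (w ++ y.map (bc cf ct)).getD (w.length + j) 0 = f j := by
            rw [List.getD_append_right _ _ _ _ (by omega), Nat.add_sub_cancel_left]
            rcases Nat.lt_or_ge j m with hj | hj
            · rw [List.getD_eq_getElem _ _ (by simpa [hylen] using hj)]
              simp only [List.getElem_map, hy, List.getElem_range, bc]
              have hne := hlt j hj
              by_cases hfc : f j = ct
              · rw [if_pos (decide_eq_true hfc), hfc]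
              · rw [if_neg (by rw [decide_eq_true_iff]; exact hfc)]
                have h3 : f j = ct ∨ f j = cf ∨ f j = 0 := by
                  simp only [hf]
                  by_cases h4 : a (vY 0 k (w.length + j) ct) = true
                  · left; rw [if_pos h4]
                  · right
                    rw [if_neg h4]
                    by_cases h5 : a (vY 0 k (w.length + j) cf) = true
                    · left; rw [if_pos h5]
                    · right; rw [if_neg h5]
                rcases h3 with h3 | h3 | h3
                · exact absurd h3 hfc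
                · exact h3.symm
                · exact absurd h3 hne
            · rw [List.getD_eq_default _ _ (by simpa [hylen] using hj), hge j hj (by omega)]
          rw [this]
        · obtain ⟨l, hl, hl'⟩ := hinit _ (mem_initCl.2 (Or.inr (Or.inr ⟨k, hk, i, hi, hc, s, hs,
            rfl⟩)))
          simp only [List.mem_singleton] at hl
          subst hl
          simp only at hl'
          rw [hl', hC0, initC]
          simp only
          by_cases hk : k = k0
          · subst hk
            simp only [if_true]
            have : (w ++ y.map (bc cf ct)).getD i 0 = w.getD i 0 := by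
              rcases Nat.lt_or_ge i w.length with h | h
              · rw [List.getD_append _ _ _ _ h]
              · have h2 : w.length + P ≤ i := by
                  by_contra hcon
                  exact hc ⟨rfl, h, by omega⟩
                rw [List.getD_eq_default _ _ h, List.getD_eq_default]
                rw [List.length_append, List.length_map, hylen]
                omega
            rw [this]
            rfl
          · simp only [if_neg hk]
            rfl
    have hrows : ∀ t ≤ T, Row nQ nK nG N a t (M.step^[t] C0) := by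
      intro t
      induction t with
      | zero => intro _; exact hrow0
      | succ t ih =>
        intro ht
        rw [Function.iterate_succ_apply']
        exact Row.step hM (iter_wf hM hwf0 t) (by omega) (by omega) htrans (ih (by omega))
    have h1 := (hrows T le_rfl).cell k1 hk1 0 (Nat.zero_le _) acc hacc
    rw [hfin] at h1
    exact (of_decide_eq_true h1.symm).symm
  · rintro ⟨y, hy, hacc'⟩
    set C0 := initC q0 k0 (w ++ y.map (bc cf ct)) with hC0
    have hwf0 : WF nQ nG (w.length + P) C0 := initC_wf hq0 hcf hct hw y hy
    refine ⟨asg (fun t => M.step^[t] C0), ?_⟩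
    intro c hc
    simp only [tab, List.mem_cons, List.mem_append] at hc
    rcases hc with rfl | hc | hc
    · refine ⟨_, List.mem_singleton_self _, ?_⟩
      rw [asg_Y]
      simp [hacc']
    · rcases mem_initCl.1 hc with ⟨q, hq, rfl⟩ | ⟨k, hk, i, hi, ⟨rfl, h1, h2⟩, hc'⟩ |
        ⟨k, hk, i, hi, hc', s, hs, rfl⟩
      · refine ⟨_, List.mem_singleton_self _, ?_⟩
        rw [asg_X]
        rfl
      · obtain ⟨j, rfl⟩ : ∃ j, i = w.length + j := ⟨i - w.length, by omega⟩
        have hcell : ∀ j, (M.step^[0] C0).2 k (w.length + j) =
            (y.map (bc cf ct)).getD j 0 := by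
          intro j
          simp only [Function.iterate_zero, id_eq, hC0, initC, if_true]
          rw [List.getD_append_right _ _ _ _ (by omega), Nat.add_sub_cancel_left]
        rcases mem_freeCl.1 hc' with rfl | rfl | ⟨s, hs, s', hs', hne, rfl⟩
        · rcases Nat.lt_or_ge j y.length with hj | hj
          · have h3 : (y.map (bc cf ct)).getD j 0 = bc cf ct y[j] := by
              rw [List.getD_eq_getElem _ _ (by simpa using hj)]
              simp
            cases hyj : y[j] with
            | true =>
              refine ⟨(true, vY 0 k (w.length + j) ct), by simp, ?_⟩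
              rw [asg_Y, hcell, h3, hyj]
              simp [bc]
            | false =>
              refine ⟨(true, vY 0 k (w.length + j) cf), by simp, ?_⟩
              rw [asg_Y, hcell, h3, hyj]
              simp [bc]
          · refine ⟨(true, vY 0 k (w.length + j) 0), by simp, ?_⟩
            rw [asg_Y, hcell, List.getD_eq_default _ _ (by simpa using hj)]
            simp
        · rcases Nat.lt_or_ge j y.length with hj | hj
          · refine ⟨(false, vY 0 k (w.length + j) 0), by simp, ?_⟩
            rw [asg_Y, hcell, List.getD_eq_getElem _ _ (by simpa using hj)]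
            simp only [List.getElem_map, bc]
            split_ifs
            · simpa [eq_comm] using hct0
            · simpa [eq_comm] using hcf0
          · refine ⟨(true, vY 0 k (w.length + j + 1) 0), by simp, ?_⟩
            rw [asg_Y, show w.length + j + 1 = w.length + (j + 1) by omega, hcell,
              List.getD_eq_default _ _ (by simp; omega)]
            simp
        · by_cases h3 : s = (M.step^[0] C0).2 k (w.length + j)
          · refine ⟨(false, vY 0 k (w.length + j) s'), by simp, ?_⟩
            rw [asg_Y, ← h3]
            simpa [eq_comm] using hne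
          · refine ⟨(false, vY 0 k (w.length + j) s), by simp, ?_⟩
            rw [asg_Y]
            exact decide_eq_false h3
      · refine ⟨_, List.mem_singleton_self _, ?_⟩
        rw [asg_Y]
        simp only [Function.iterate_zero, id_eq, hC0, initC]
        by_cases hk : k = k0
        · subst hk
          simp only [if_true]
          have : (w ++ y.map (bc cf ct)).getD i 0 = w.getD i 0 := by
            rcases Nat.lt_or_ge i w.length with h | h
            · rw [List.getD_append _ _ _ _ h]
            · have h2 : w.length + P ≤ i := by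
                by_contra hcon
                exact hc' ⟨rfl, h, by omega⟩
              rw [List.getD_eq_default _ _ h, List.getD_eq_default]
              rw [List.length_append, List.length_map]
              omega
          rw [this]
          rfl
        · simp only [if_neg hk]
          rfl
    · refine trans_sat (fun t => M.step^[t] C0) ?_ ?_ c hc
      · intro t _
        exact Function.iterate_succ_apply' _ _ _
      · intro t ht k
        exact (iter_wf hM hwf0 t).blank k _ (by omega)

/-! ### Polynomial time -/

section poly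

variable {α : Type} [ToData α]

theorem PT_pair {f g : α → ℕ} (hf : PolyTime f) (hg : PolyTime g) :
    PolyTime (fun a => Nat.pair (f a) (g a)) := by
  unfold Nat.pair
  fun_prop

attribute [local fun_prop] PT_pair

theorem PT_vX {f g : α → ℕ} (hf : PolyTime f) (hg : PolyTime g) :
    PolyTime (fun a => vX (f a) (g a)) := by
  unfold vX
  fun_prop

theorem PT_vY {f g h i : α → ℕ} (hf : PolyTime f) (hg : PolyTime g) (hh : PolyTime h)
    (hi : PolyTime i) : PolyTime (fun a => vY (f a) (g a) (h a) (i a)) := by
  unfold vY
  fun_prop

attribute [local fun_prop] PT_vX PT_vY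

theorem PT_act (M : SM) {q : α → ℕ} (hq : PolyTime q) : PolyTime (fun a => M.act (q a)) := by
  unfold act
  fun_prop

theorem PT_nxt (M : SM) {q o : α → ℕ} (hq : PolyTime q) (ho : PolyTime o) :
    PolyTime (fun a => M.nxt (q a) (o a)) := by
  unfold nxt
  fun_prop

theorem PT_op (M : SM) {q o : α → ℕ} (hq : PolyTime q) (ho : PolyTime o) :
    PolyTime (fun a => M.op (q a) (o a)) := by
  unfold op
  fun_prop

attribute [local fun_prop] PT_act PT_nxt PT_op

theorem PT_pre (M : SM) {t q o : α → ℕ} (ht : PolyTime t) (hq : PolyTime q) (ho : PolyTime o) :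
    PolyTime (fun a => M.pre (t a) (q a) (o a)) := by
  unfold pre
  fun_prop

attribute [local fun_prop] PT_pre

theorem PT_stCl (M : SM) (nQ : ℕ) {t q o : α → ℕ} (ht : PolyTime t) (hq : PolyTime q)
    (ho : PolyTime o) : PolyTime (fun a => M.stCl nQ (t a) (q a) (o a)) := by
  unfold stCl
  fun_prop

attribute [local fun_prop] PT_stCl

theorem PT_cellCl (M : SM) {N t q o k i s0 s : α → ℕ} (hN : PolyTime N) (ht : PolyTime t)
    (hq : PolyTime q) (ho : PolyTime o) (hk : PolyTime k) (hi : PolyTime i) (hs0 : PolyTime s0)
    (hs : PolyTime s) :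
    PolyTime (fun a => M.cellCl (N a) (t a) (q a) (o a) (k a) (i a) (s0 a) (s a)) := by
  unfold cellCl
  fun_prop

attribute [local fun_prop] PT_cellCl

theorem PT_trans (M : SM) (nQ nK nG : ℕ) {T N : α → ℕ} (hT : PolyTime T) (hN : PolyTime N) :
    PolyTime (fun a => M.trans nQ nK nG (T a) (N a)) := by
  unfold trans
  fun_prop

theorem PT_freeCl (nG : ℕ) {k cf ct i : α → ℕ} (hk : PolyTime k) (hcf : PolyTime cf)
    (hct : PolyTime ct) (hi : PolyTime i) :
    PolyTime (fun a => freeCl nG (k a) (cf a) (ct a) (i a)) := by
  unfold freeCl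
  fun_prop

attribute [local fun_prop] PT_trans PT_freeCl

theorem PT_initCl (nQ nK nG q0 k0 cf ct : ℕ) {w : α → List ℕ} {P N : α → ℕ}
    (hw : PolyTime w) (hP : PolyTime P) (hN : PolyTime N) :
    PolyTime (fun a => initCl nQ nK nG q0 k0 cf ct (w a) (P a) (N a)) := by
  unfold initCl
  fun_prop

attribute [local fun_prop] PT_initCl

theorem PT_tab (M : SM) (nQ nK nG q0 k0 k1 cf ct acc : ℕ) {w : α → List ℕ} {P T : α → ℕ}
    (hw : PolyTime w) (hP : PolyTime P) (hT : PolyTime T) :
    PolyTime (fun a => tab M nQ nK nG q0 k0 k1 cf ct acc (w a) (P a) (T a)) := by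
  unfold tab
  fun_prop

end poly

end SM

end Pool.Agent.Helper83.CL
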