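import Pool.Agent.Helper83.CookLevin2

/-!
# Cook-Levin, part 3: from `TM2` machines to coded stack machines
-/

namespace Pool.Agent.Helper83.CL

open Pool.Agent.Helper81.CC Turing

section micro

variable {K : Type} [DecidableEq K] {Γ : K → Type} {Λ σ : Type}

/-- micro-configurations -/
abbrev MC (Γ : K → Type) (Λ σ : Type) :=
  (Option (TM2.Stmt Γ Λ σ) × σ) × (∀ k, List (Γ k))

/-- one elementary step -/
def micro (m : Λ → TM2.Stmt Γ Λ σ) : MC Γ Λ σ → MC Γ Λ σ
  | ((some (.push k f q), v), S) => ((some q, v), Function.update S k (f v :: S k))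
  | ((some (.peek k f q), v), S) => ((some q, f v (S k).head?), S)
  | ((some (.pop k f q), v), S) => ((some q, f v (S k).head?), Function.update S k (S k).tail)
  | ((some (.load a q), v), S) => ((some q, a v), S)
  | ((some (.branch p q₁ q₂), v), S) => ((some (cond (p v) q₁ q₂), v), S)
  | ((some (.goto l), v), S) => ((some (m (l v)), v), S)
  | ((some .halt, v), S) => ((none, v), S)
  | ((none, v), S) => ((none, v), S)

/-- number of elementary steps of a statement -/
def depth : TM2.Stmt Γ Λ σ → ℕ
  | .push _ _ q => depth q + 1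
  | .peek _ _ q => depth q + 1
  | .pop _ _ q => depth q + 1
  | .load _ q => depth q + 1
  | .branch _ q₁ q₂ => max (depth q₁) (depth q₂) + 1
  | .goto _ => 1
  | .halt => 1

/-- configurations as micro-configurations -/
def conv (m : Λ → TM2.Stmt Γ Λ σ) (c : TM2.Cfg Γ Λ σ) : MC Γ Λ σ := ((c.l.map m, c.var), c.stk)

theorem micro_stepAux (m : Λ → TM2.Stmt Γ Λ σ) : ∀ (q : TM2.Stmt Γ Λ σ) (v : σ)
    (S : ∀ k, List (Γ k)), ∃ d ≤ depth q, (micro m)^[d] ((some q, v), S) =
      conv m (TM2.stepAux q v S) := by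
  intro q
  induction q with
  | push k f q ih =>
    intro v S
    obtain ⟨d, hd, h⟩ := ih v (Function.update S k (f v :: S k))
    refine ⟨d + 1, by simp [depth, hd], ?_⟩
    rw [Function.iterate_succ_apply]
    exact h
  | peek k f q ih =>
    intro v S
    obtain ⟨d, hd, h⟩ := ih (f v (S k).head?) S
    refine ⟨d + 1, by simp [depth, hd], ?_⟩
    rw [Function.iterate_succ_apply]
    exact h
  | pop k f q ih =>
    intro v S
    obtain ⟨d, hd, h⟩ := ih (f v (S k).head?) (Function.update S k (S k).tail)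
    refine ⟨d + 1, by simp [depth, hd], ?_⟩
    rw [Function.iterate_succ_apply]
    exact h
  | load a q ih =>
    intro v S
    obtain ⟨d, hd, h⟩ := ih (a v) S
    refine ⟨d + 1, by simp [depth, hd], ?_⟩
    rw [Function.iterate_succ_apply]
    exact h
  | branch p q₁ q₂ ih₁ ih₂ =>
    intro v S
    cases hp : p v with
    | true =>
      obtain ⟨d, hd, h⟩ := ih₁ v S
      refine ⟨d + 1, by simp only [depth]; omega, ?_⟩
      rw [Function.iterate_succ_apply]
      simp only [micro, hp, cond_true, TM2.stepAux]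
      exact h
    | false =>
      obtain ⟨d, hd, h⟩ := ih₂ v S
      refine ⟨d + 1, by simp only [depth]; omega, ?_⟩
      rw [Function.iterate_succ_apply]
      simp only [micro, hp, cond_false, TM2.stepAux]
      exact h
  | goto l =>
    intro v S
    exact ⟨1, by simp [depth], rfl⟩
  | halt =>
    intro v S
    exact ⟨1, by simp [depth], rfl⟩

theorem iter_bind_none {α : Type} (f : α → Option α) (t : ℕ) :
    (flip bind f)^[t] (none : Option α) = none := by
  induction t with
  | zero => rfl
  | succ t ih => rw [Function.iterate_succ_apply]; exact ih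

theorem micro_run (m : Λ → TM2.Stmt Γ Λ σ) {D : ℕ} (hD : ∀ l, depth (m l) ≤ D) :
    ∀ (t : ℕ) (c c' : TM2.Cfg Γ Λ σ), (flip bind (TM2.step m))^[t] (some c) = some c' →
      ∃ d ≤ D * t, (micro m)^[d] (conv m c) = conv m c' := by
  intro t
  induction t with
  | zero =>
    intro c c' h
    simp only [Function.iterate_zero, id_eq, Option.some.injEq] at h
    subst h
    exact ⟨0, by simp, rfl⟩
  | succ t ih =>
    intro c c' h
    rw [Function.iterate_succ_apply] at h
    obtain ⟨l, v, S⟩ := c
    cases l with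
    | none =>
      have : flip bind (TM2.step m) (some (⟨none, v, S⟩ : TM2.Cfg Γ Λ σ)) = none := rfl
      rw [this, iter_bind_none] at h
      simp at h
    | some l =>
      have : flip bind (TM2.step m) (some (⟨some l, v, S⟩ : TM2.Cfg Γ Λ σ)) =
        some (TM2.stepAux (m l) v S) := rfl
      rw [this] at h
      obtain ⟨d, hd, h1⟩ := ih _ _ h
      obtain ⟨d', hd', h2⟩ := micro_stepAux m (m l) v S
      refine ⟨d + d', ?_, ?_⟩
      · have := hD l
        rw [Nat.mul_succ]
        omega
      · rw [Function.iterate_add_apply]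
        have : conv m ⟨some l, v, S⟩ = ((some (m l), v), S) := rfl
        rw [this, h2, h1]

theorem micro_halt (m : Λ → TM2.Stmt Γ Λ σ) (c : TM2.Cfg Γ Λ σ) (hc : c.l = none) (n : ℕ) :
    (micro m)^[n] (conv m c) = conv m c := by
  induction n with
  | zero => rfl
  | succ n ih =>
    rw [Function.iterate_succ_apply]
    have : micro m (conv m c) = conv m c := by
      obtain ⟨l, v, S⟩ := c
      simp only at hc
      subst hc
      rfl
    rw [this, ih]

end micro

/-! ### The coded machine -/

section coded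

open Classical in
/-- the pushed symbols of a statement -/
noncomputable def pushG {K : Type} {Γ : K → Type} {Λ σ : Type} [Fintype σ] :
    Option (TM2.Stmt Γ Λ σ) → Finset (Σ k, Γ k)
  | some (.push k f _) => Finset.univ.image (fun v => ⟨k, f v⟩)
  | _ => ∅

variable {K : Type} {Γ : K → Type} {Λ σ : Type}

/-- active stack -/
def actv (k0 : K) : Option (TM2.Stmt Γ Λ σ) × σ → K
  | (some (.push k _ _), _) => k
  | (some (.peek k _ _), _) => k
  | (some (.pop k _ _), _) => k
  | _ => k0

/-- next control state, from the tops of the stacks -/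
def ctl (m : Λ → TM2.Stmt Γ Λ σ) :
    Option (TM2.Stmt Γ Λ σ) × σ → (∀ k, Option (Γ k)) → Option (TM2.Stmt Γ Λ σ) × σ
  | (some (.push _ _ q), v), _ => (some q, v)
  | (some (.peek k f q), v), tp => (some q, f v (tp k))
  | (some (.pop k f q), v), tp => (some q, f v (tp k))
  | (some (.load a q), v), _ => (some q, a v)
  | (some (.branch p q₁ q₂), v), _ => (some (cond (p v) q₁ q₂), v)
  | (some (.goto l), v), _ => (some (m (l v)), v)
  | (some .halt, v), _ => (none, v)
  | (none, v), _ => (none, v)

/-- operation -/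
def opr : Option (TM2.Stmt Γ Λ σ) × σ → Option (Option (Σ k, Γ k))
  | (some (.push k f _), v) => some (some ⟨k, f v⟩)
  | (some (.pop _ _ _), _) => some none
  | _ => none

/-- code of a cell -/
noncomputable def cellc (gl : List (Σ k, Γ k)) (k : K) : Option (Γ k) → ℕ
  | none => 0
  | some g => (by classical exact gl.idxOf ⟨k, g⟩) + 1

open Classical in
/-- decoding -/
noncomputable def dec (gl : List (Σ k, Γ k)) (o : ℕ) (k : K) : Option (Γ k) :=
  if h : ∃ g, cellc gl k (some g) = o ∧ (⟨k, g⟩ : Σ k, Γ k) ∈ gl then some h.choose else none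

theorem dec_cellc (gl : List (Σ k, Γ k)) (k : K) (x : Option (Γ k))
    (hx : ∀ g ∈ x, (⟨k, g⟩ : Σ k, Γ k) ∈ gl) : dec gl (cellc gl k x) k = x := by
  classical
  cases x with
  | none =>
    rw [dec, dif_neg]
    rintro ⟨g, h, -⟩
    simp [cellc] at h
  | some g =>
    have h : ∃ g', cellc gl k (some g') = cellc gl k (some g) ∧ (⟨k, g'⟩ : Σ k, Γ k) ∈ gl :=
      ⟨g, rfl, hx g rfl⟩
    rw [dec, dif_pos h]
    have h1 := h.choose_spec
    generalize h.choose = g' at h1 ⊢
    simp only [cellc, Nat.add_right_cancel_iff] at h1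
    have h2 := (List.idxOf_inj h1.2).1 h1.1
    rw [Sigma.mk.injEq] at h2
    exact congrArg some (eq_of_heq h2.2)

theorem cellc_inj (gl : List (Σ k, Γ k)) (k : K) {g g' : Γ k}
    (hg : (⟨k, g⟩ : Σ k, Γ k) ∈ gl) (h : cellc gl k (some g) = cellc gl k (some g')) : g = g' := by
  classical
  simp only [cellc, Nat.add_right_cancel_iff] at h
  have h2 := (List.idxOf_inj hg).1 h
  rw [Sigma.mk.injEq] at h2
  exact eq_of_heq h2.2

/-- code of an operation -/
noncomputable def opc (gl : List (Σ k, Γ k)) : Option (Option (Σ k, Γ k)) → ℕ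
  | none => 0
  | some none => 1
  | some (some g) => (by classical exact gl.idxOf g) + 2

/-- code of a stack -/
noncomputable def kc (kl : List K) (k : K) : ℕ := by classical exact kl.idxOf k

/-- code of a control state -/
noncomputable def qc (ql : List (Option (TM2.Stmt Γ Λ σ) × σ)) (c : Option (TM2.Stmt Γ Λ σ) × σ) :
    ℕ := by classical exact ql.idxOf c

/-- the coded machine -/
noncomputable def codeM (m : Λ → TM2.Stmt Γ Λ σ) (k0 : K)
    (ql : List (Option (TM2.Stmt Γ Λ σ) × σ)) (kl : List K) (gl : List (Σ k, Γ k)) : SM where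
  actL := ql.map (fun c => kc kl (actv k0 c))
  nxtL := ql.map (fun c => (List.range (gl.length + 1)).map (fun o => qc ql (ctl m c (dec gl o))))
  opL := ql.map (fun c => (List.range (gl.length + 1)).map (fun _ => opc gl (opr c)))

variable {m : Λ → TM2.Stmt Γ Λ σ} {k0 : K} {ql : List (Option (TM2.Stmt Γ Λ σ) × σ)}
  {kl : List K} {gl : List (Σ k, Γ k)}

theorem map_getD_idx {α β : Type} [BEq α] [LawfulBEq α] (l : List α) (f : α → β) (d : β) {a : α}
    (ha : a ∈ l) : (l.map f).getD (l.idxOf a) d = f a := by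
  have h := List.idxOf_lt_length_of_mem ha
  rw [List.getD_eq_getElem _ _ (by simpa using h)]
  simp

theorem codeM_act {c : Option (TM2.Stmt Γ Λ σ) × σ} (hc : c ∈ ql) :
    (codeM m k0 ql kl gl).act (qc ql c) = kc kl (actv k0 c) := by
  classical
  rw [SM.act, codeM, qc]
  exact map_getD_idx _ _ _ hc

theorem codeM_nxt {c : Option (TM2.Stmt Γ Λ σ) × σ} (hc : c ∈ ql) {o : ℕ} (ho : o ≤ gl.length) :
    (codeM m k0 ql kl gl).nxt (qc ql c) o = qc ql (ctl m c (dec gl o)) := by
  classical
  rw [SM.nxt, codeM, qc]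
  simp only
  rw [map_getD_idx _ _ _ hc, List.getD_eq_getElem _ _ (by simp; omega)]
  simp [qc]

theorem codeM_op {c : Option (TM2.Stmt Γ Λ σ) × σ} (hc : c ∈ ql) {o : ℕ} (ho : o ≤ gl.length) :
    (codeM m k0 ql kl gl).op (qc ql c) o = opc gl (opr c) := by
  classical
  rw [SM.op, codeM, qc]
  simp only
  rw [map_getD_idx _ _ _ hc, List.getD_eq_getElem _ _ (by simp; omega)]
  simp

/-- closure of the lists of control states and symbols -/
structure Closed (m : Λ → TM2.Stmt Γ Λ σ) (ql : List (Option (TM2.Stmt Γ Λ σ) × σ))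
    (kl : List K) (gl : List (Σ k, Γ k)) : Prop where
  nodup : ql.Nodup
  ctl : ∀ c ∈ ql, ∀ tp, ctl m c tp ∈ ql
  opr : ∀ c ∈ ql, ∀ g, opr c = some (some g) → g ∈ gl
  kl : ∀ k, k ∈ kl

theorem cellc_le (x : Option (Γ k0)) (hx : ∀ g ∈ x, (⟨k0, g⟩ : Σ k, Γ k) ∈ gl) :
    cellc gl k0 x ≤ gl.length := by
  classical
  cases x with
  | none => exact Nat.zero_le _
  | some g => exact List.idxOf_lt_length_of_mem (hx g rfl)

theorem qc_lt {c : Option (TM2.Stmt Γ Λ σ) × σ} (hc : c ∈ ql) : qc ql c < ql.length := by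
  classical
  exact List.idxOf_lt_length_of_mem hc

theorem kc_lt {k : K} (hk : k ∈ kl) : kc kl k < kl.length := by
  classical
  exact List.idxOf_lt_length_of_mem hk

theorem exists_qc (hn : ql.Nodup) {q : ℕ} (hq : q < ql.length) : ∃ c ∈ ql, qc ql c = q := by
  classical
  exact ⟨ql[q], List.getElem_mem _, List.Nodup.idxOf_getElem hn q hq⟩

theorem codeM_bounded (h : Closed m ql kl gl) :
    (codeM m k0 ql kl gl).Bounded ql.length kl.length gl.length where
  act_lt q hq := by
    obtain ⟨c, hc, rfl⟩ := exists_qc h.nodup hq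
    rw [codeM_act hc]
    exact kc_lt (h.kl _)
  nxt_lt q hq o ho := by
    obtain ⟨c, hc, rfl⟩ := exists_qc h.nodup hq
    rw [codeM_nxt hc ho]
    exact qc_lt (h.ctl _ hc _)
  op_le q hq o ho := by
    classical
    obtain ⟨c, hc, rfl⟩ := exists_qc h.nodup hq
    rw [codeM_op hc ho]
    rcases hcc : opr c with _ | _ | g
    · simp [opc]
    · simp [opc]
    · have := List.idxOf_lt_length_of_mem (h.opr c hc g hcc)
      simp only [opc]
      omega

/-- simulation relation -/
structure Rel (ql : List (Option (TM2.Stmt Γ Λ σ) × σ)) (kl : List K) (gl : List (Σ k, Γ k))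
    (x : MC Γ Λ σ) (C : SM.Cf) : Prop where
  mem : x.1 ∈ ql
  sym : ∀ k, ∀ g ∈ x.2 k, (⟨k, g⟩ : Σ k, Γ k) ∈ gl
  st : C.1 = qc ql x.1
  cell : ∀ k i, C.2 (kc kl k) i = cellc gl k ((x.2 k)[i]?)

theorem kc_inj (hk : ∀ k, k ∈ kl) {k k' : K} (h : kc kl k = kc kl k') : k = k' := by
  classical
  exact (List.idxOf_inj (hk k)).1 h

variable [DecidableEq K]

theorem micro_fst (x : MC Γ Λ σ) :
    (micro m x).1 = ctl m x.1 (fun k => (x.2 k).head?) := by
  obtain ⟨⟨s, v⟩, S⟩ := x
  rcases s with _ | s
  · rfl
  · cases s <;> rfl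

omit [DecidableEq K] in
theorem ctl_congr (c : Option (TM2.Stmt Γ Λ σ) × σ) (tp tp' : ∀ k, Option (Γ k))
    (h : tp (actv k0 c) = tp' (actv k0 c)) : ctl m c tp = ctl m c tp' := by
  obtain ⟨s, v⟩ := c
  rcases s with _ | s
  · rfl
  · cases s <;> simp_all [ctl, actv]

theorem micro_snd (x : MC Γ Λ σ) (k : K) :
    (∀ g ∈ (micro m x).2 k, g ∈ x.2 k ∨ opr x.1 = some (some ⟨k, g⟩)) ∧
    ∀ i, cellc gl k (((micro m x).2 k)[i]?) =
      SM.upd (if k = actv k0 x.1 then opc gl (opr x.1) else 0)
        (fun i => cellc gl k ((x.2 k)[i]?)) i := by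
  classical
  obtain ⟨⟨s, v⟩, S⟩ := x
  rcases s with _ | s
  · refine ⟨fun g hg => Or.inl hg, fun i => ?_⟩
    simp [micro, opr, opc, SM.upd]
  · cases s with
    | push k' f q =>
      by_cases hk : k = k'
      · subst hk
        refine ⟨?_, ?_⟩
        · intro g hg
          simp only [micro, Function.update_self, List.mem_cons] at hg
          rcases hg with rfl | hg
          · exact Or.inr rfl
          · exact Or.inl hg
        · intro i
          simp only [micro, Function.update_self, actv, if_true, opr, opc, SM.upd]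
          rcases i with _ | i
          · simp [cellc]
          · simp
      · refine ⟨?_, ?_⟩
        · intro g hg
          simp only [micro, Function.update_of_ne hk] at hg
          exact Or.inl hg
        · intro i
          simp [micro, actv, hk, SM.upd]
    | peek k' f q =>
      refine ⟨fun g hg => Or.inl hg, fun i => ?_⟩
      simp [micro, opr, opc, SM.upd]
    | pop k' f q =>
      by_cases hk : k = k'
      · subst hk
        refine ⟨?_, ?_⟩
        · intro g hg
          simp only [micro, Function.update_self] at hg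
          exact Or.inl (List.mem_of_mem_tail hg)
        · intro i
          simp [micro, actv, opr, opc, SM.upd]
      · refine ⟨?_, ?_⟩
        · intro g hg
          simp only [micro, Function.update_of_ne hk] at hg
          exact Or.inl hg
        · intro i
          simp [micro, actv, hk, SM.upd]
    | load a q =>
      refine ⟨fun g hg => Or.inl hg, fun i => ?_⟩
      simp [micro, opr, opc, SM.upd]
    | branch p q₁ q₂ =>
      refine ⟨fun g hg => Or.inl hg, fun i => ?_⟩
      simp [micro, opr, opc, SM.upd]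
    | goto l =>
      refine ⟨fun g hg => Or.inl hg, fun i => ?_⟩
      simp [micro, opr, opc, SM.upd]
    | halt =>
      refine ⟨fun g hg => Or.inl hg, fun i => ?_⟩
      simp [micro, opr, opc, SM.upd]

theorem Rel.step (h : Closed m ql kl gl) {x : MC Γ Λ σ} {C : SM.Cf} (hR : Rel ql kl gl x C) :
    Rel ql kl gl (micro m x) ((codeM m k0 ql kl gl).step C) := by
  have hact : (codeM m k0 ql kl gl).act C.1 = kc kl (actv k0 x.1) := by
    rw [hR.st, codeM_act hR.mem]
  have htop : C.2 ((codeM m k0 ql kl gl).act C.1) 0 =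
      cellc gl (actv k0 x.1) ((x.2 (actv k0 x.1)).head?) := by
    rw [hact, hR.cell, List.head?_eq_getElem?]
  have hmem : ∀ g ∈ (x.2 (actv k0 x.1)).head?, (⟨actv k0 x.1, g⟩ : Σ k, Γ k) ∈ gl := by
    intro g hg
    exact hR.sym _ g (List.mem_of_mem_head? hg)
  have hle := cellc_le (gl := gl) (k0 := actv k0 x.1) _ hmem
  refine ⟨?_, ?_, ?_, ?_⟩
  · rw [micro_fst]
    exact h.ctl _ hR.mem _
  · intro k g hg
    rcases (micro_snd (gl := gl) (k0 := k0) x k).1 g hg with h1 | h1
    · exact hR.sym k g h1
    · exact h.opr _ hR.mem _ h1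
  · rw [SM.step]
    simp only
    rw [htop, hR.st, codeM_nxt hR.mem hle, micro_fst]
    congr 1
    apply ctl_congr (k0 := k0)
    exact dec_cellc gl _ _ hmem
  · intro k i
    rw [(micro_snd (gl := gl) (k0 := k0) x k).2 i, SM.step]
    simp only
    rw [htop]
    have h1 : (codeM m k0 ql kl gl).op C.1
        (cellc gl (actv k0 x.1) ((x.2 (actv k0 x.1)).head?)) = opc gl (opr x.1) := by
      rw [hR.st, codeM_op hR.mem hle]
    rw [h1, hact]
    have h2 : (kc kl k = kc kl (actv k0 x.1)) ↔ k = actv k0 x.1 :=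
      ⟨fun h' => kc_inj h.kl h', fun h' => by rw [h']⟩
    have h3 : C.2 (kc kl k) = fun i => cellc gl k ((x.2 k)[i]?) := funext fun i => hR.cell k i
    rw [h3]
    congr 1
    by_cases hk : k = actv k0 x.1
    · rw [if_pos hk, if_pos (h2.2 hk)]
    · rw [if_neg hk, if_neg (fun h' => hk (h2.1 h'))]

theorem Rel.iter (h : Closed m ql kl gl) {x : MC Γ Λ σ} {C : SM.Cf} (hR : Rel ql kl gl x C)
    (t : ℕ) : Rel ql kl gl ((micro m)^[t] x) ((codeM m k0 ql kl gl).step^[t] C) := by
  induction t with
  | zero => exact hR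
  | succ t ih =>
    rw [Function.iterate_succ_apply', Function.iterate_succ_apply']
    exact ih.step h

end coded

end Pool.Agent.Helper83.CL
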