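import Mathlib

/-!
# First Fit for vector packing: definitions

Items are vectors `v : Fin d → ℝ`; a bin is described by its level, the coordinatewise sum of the
items it contains.
-/

namespace Pool.Agent.Helper83.FirstFit

variable {d : ℕ}

/-- `Fits b v`: the item `v` can be added to a bin whose current level (the coordinatewise sum of
the items it contains) is `b`, that is, every coordinate sum stays at most `1`. -/
def Fits (b v : Fin d → ℝ) : Prop := ∀ c, b c + v c ≤ 1

open Classical in
/-- One step of First Fit. The argument list holds the levels of the open bins in the order in
which they were opened. The item `v` goes into the earliest opened bin to which it can be added;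
if there is no such bin, a new bin containing only `v` is opened (at the end of the list). -/
noncomputable def place (v : Fin d → ℝ) : List (Fin d → ℝ) → List (Fin d → ℝ)
  | [] => [v]
  | b :: bs => if Fits b v then (b + v) :: bs else b :: place v bs

/-- The levels of the bins, in the order of opening, after First Fit has processed the items of
`L` one after the other, starting with no bins. -/
noncomputable def pack (L : List (Fin d → ℝ)) : List (Fin d → ℝ) :=
  L.foldl (fun bins v => place v bins) []

/-- `FF L` is the number of bins used by First Fit on the list `L`. -/
noncomputable def FF (L : List (Fin d → ℝ)) : ℕ := (pack L).length

/-- `OPT L` is the least number `m` of bins such that the items of `L` can be distributed over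
`m` bins with every coordinate sum in every bin at most `1`. -/
noncomputable def OPT (L : List (Fin d → ℝ)) : ℕ :=
  sInf {m : ℕ | ∃ a : Fin L.length → Fin m, ∀ (j : Fin m) (c : Fin d),
    ∑ i with a i = j, L.get i c ≤ 1}

end Pool.Agent.Helper83.FirstFit
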