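import Pool.Agent.Helper83.FFDefs

/-!
# First Fit for random vector packing is asymptotically optimal in every dimension

Items are vectors in `[0,1]^d`, bins have capacity `1` in every coordinate.  For independent items,
each uniform on `[0,1]^d`, the expected ratio of the number of bins used by First Fit to the
optimal number of bins tends to `1`, for every dimension `d`.

Idea of the proof.  Fix a grid of mesh `1/k`.  For a grid point `x` let `m_x(t)` be the number of
bins which, after `t` items, still have room for `x`.  In a time window shorter than `m_x(t)`, all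
the items below `x` go to bins opened before the window.  Counting the bins opened in the window
that have room for some grid point whose counter is small gives the inequality `window`:
such bins are created by the new bins whose first item `v` has `1 - v` outside the region of
the large counters, and can only be used by items outside that region.  The uniform law is
invariant under `v ↦ 1 - v`, so in the scaling limit (along any ultrafilter) the number of bins
`b` and the counters `M_x` satisfy
`2 (b (τ+h) - b τ) ≤ h (1 + d/k) + ∑_{M_x τ ≤ h} M_x (τ+h)`.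
All of these functions are Lipschitz, hence differentiable almost everywhere, and a nonnegative
function has zero derivative at its zeros; so `b' ≤ (1 + d/k)/2` almost everywhere.
-/


open MeasureTheory ProbabilityTheory Filter Topology Set
open scoped BigOperators ENNReal NNReal

namespace Pool.Agent.Helper83.FirstFit

variable {d : ℕ}

/-! ### basic facts on `place` -/

open Classical in
/-- number of entries of `l` satisfying `p` -/
noncomputable def cnt (p : (Fin d → ℝ) → Prop) (l : List (Fin d → ℝ)) : ℕ :=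
  l.countP (fun b => decide (p b))

@[simp] lemma cnt_nil (p : (Fin d → ℝ) → Prop) : cnt p [] = 0 := by simp [cnt]

open Classical in
lemma cnt_cons (p : (Fin d → ℝ) → Prop) (b : Fin d → ℝ) (l : List (Fin d → ℝ)) :
    cnt p (b :: l) = cnt p l + (if p b then 1 else 0) := by
  simp [cnt, List.countP_cons]

lemma cnt_append (p : (Fin d → ℝ) → Prop) (l l' : List (Fin d → ℝ)) :
    cnt p (l ++ l') = cnt p l + cnt p l' := by
  simp [cnt, List.countP_append]

lemma cnt_pos {p : (Fin d → ℝ) → Prop} {l : List (Fin d → ℝ)} :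
    0 < cnt p l ↔ ∃ b ∈ l, p b := by
  simp [cnt, List.countP_pos_iff]

lemma cnt_le_length (p : (Fin d → ℝ) → Prop) (l : List (Fin d → ℝ)) : cnt p l ≤ l.length :=
  List.countP_le_length

lemma place_of_not_fits {v : Fin d → ℝ} {l : List (Fin d → ℝ)} (h : ∀ b ∈ l, ¬ Fits b v) :
    place v l = l ++ [v] := by
  induction l with
  | nil => simp [place]
  | cons b l ih =>
    have h1 : ¬ Fits b v := h b (by simp)
    simp only [place, h1, if_false, List.cons_append]
    rw [ih (fun b hb => h b (by simp [hb]))]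

lemma place_append_of_not_fits {v : Fin d → ℝ} {l l' : List (Fin d → ℝ)}
    (h : ∀ b ∈ l, ¬ Fits b v) : place v (l ++ l') = l ++ place v l' := by
  induction l with
  | nil => simp
  | cons b l ih =>
    have h1 : ¬ Fits b v := h b (by simp)
    simp only [List.cons_append, place, h1, if_false]
    rw [ih (fun b hb => h b (by simp [hb]))]

lemma place_append_of_fits {v : Fin d → ℝ} {l l' : List (Fin d → ℝ)}
    (h : ∃ b ∈ l, Fits b v) : place v (l ++ l') = place v l ++ l' := by
  induction l with
  | nil => simp at h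
  | cons b l ih =>
    by_cases h1 : Fits b v
    · simp [place, h1]
    · simp only [List.cons_append, place, h1, if_false]
      rw [ih]
      obtain ⟨b', hb', hf⟩ := h
      rcases List.mem_cons.1 hb' with rfl | hb'
      · exact absurd hf h1
      · exact ⟨b', hb', hf⟩

lemma length_place_of_fits {v : Fin d → ℝ} {l : List (Fin d → ℝ)}
    (h : ∃ b ∈ l, Fits b v) : (place v l).length = l.length := by
  induction l with
  | nil => simp at h
  | cons b l ih =>
    by_cases h1 : Fits b v
    · simp [place, h1]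
    · simp only [place, h1, if_false, List.length_cons]
      rw [ih]
      obtain ⟨b', hb', hf⟩ := h
      rcases List.mem_cons.1 hb' with rfl | hb'
      · exact absurd hf h1
      · exact ⟨b', hb', hf⟩

lemma length_place_of_not_fits {v : Fin d → ℝ} {l : List (Fin d → ℝ)}
    (h : ∀ b ∈ l, ¬ Fits b v) : (place v l).length = l.length + 1 := by
  rw [place_of_not_fits h]; simp

lemma length_place_le (v : Fin d → ℝ) (l : List (Fin d → ℝ)) :
    (place v l).length ≤ l.length + 1 := by
  by_cases h : ∃ b ∈ l, Fits b v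
  · rw [length_place_of_fits h]; omega
  · push Not at h
    rw [length_place_of_not_fits h]

lemma le_length_place (v : Fin d → ℝ) (l : List (Fin d → ℝ)) :
    l.length ≤ (place v l).length := by
  by_cases h : ∃ b ∈ l, Fits b v
  · rw [length_place_of_fits h]
  · push Not at h
    rw [length_place_of_not_fits h]; omega

/-- placing an item changes one bin, so every count drops by at most one -/
lemma cnt_le_cnt_place (p : (Fin d → ℝ) → Prop) (v : Fin d → ℝ) (l : List (Fin d → ℝ)) :
    cnt p l ≤ cnt p (place v l) + 1 := by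
  induction l with
  | nil => simp
  | cons b l ih =>
    by_cases h1 : Fits b v
    · simp only [place, h1, if_true, cnt_cons]
      split_ifs <;> omega
    · simp only [place, h1, if_false, cnt_cons]
      omega

/-- placing an item changes one bin, so every count increases by at most one -/
lemma cnt_place_le (p : (Fin d → ℝ) → Prop) (v : Fin d → ℝ) (l : List (Fin d → ℝ)) :
    cnt p (place v l) ≤ cnt p l + 1 := by
  induction l with
  | nil => simp only [place, cnt_cons, cnt_nil]; split_ifs <;> omega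
  | cons b l ih =>
    by_cases h1 : Fits b v
    · simp only [place, h1, if_true, cnt_cons]
      split_ifs <;> omega
    · simp only [place, h1, if_false, cnt_cons]
      omega

/-! ### The run of First Fit on an infinite sequence -/

/-- bins after First Fit has processed `v 0, …, v (n-1)` -/
noncomputable def run (v : ℕ → Fin d → ℝ) : ℕ → List (Fin d → ℝ)
  | 0 => []
  | n + 1 => place (v n) (run v n)

lemma pack_ofFn (v : ℕ → Fin d → ℝ) (n : ℕ) :
    pack (List.ofFn fun i : Fin n => v i) = run v n := by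
  induction n with
  | zero => simp [pack, run]
  | succ n ih =>
    rw [List.ofFn_succ', List.concat_eq_append]
    simp only [pack, List.foldl_append, List.foldl_cons, List.foldl_nil, run] at ih ⊢
    simp only [Fin.val_castSucc, Fin.val_last]
    rw [ih]

lemma FF_ofFn (v : ℕ → Fin d → ℝ) (n : ℕ) :
    FF (List.ofFn fun i : Fin n => v i) = (run v n).length := by
  rw [FF, pack_ofFn]

open Classical in
/-- number of indices `s < n` with `v s ∈ D` -/
noncomputable def hits (D : Set (Fin d → ℝ)) (v : ℕ → Fin d → ℝ) (n : ℕ) : ℕ :=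
  ((Finset.range n).filter (fun s => v s ∈ D)).card

open Classical in
lemma hits_succ (D : Set (Fin d → ℝ)) (v : ℕ → Fin d → ℝ) (n : ℕ) :
    hits D v (n + 1) = hits D v n + (if v n ∈ D then 1 else 0) := by
  unfold hits
  rw [Finset.range_add_one, Finset.filter_insert]
  split_ifs with h
  · rw [Finset.card_insert_of_notMem (by simp)]
  · simp

lemma hits_mono (D : Set (Fin d → ℝ)) (v : ℕ → Fin d → ℝ) {m n : ℕ} (h : m ≤ n) :
    hits D v m ≤ hits D v n := by
  induction n, h using Nat.le_induction with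
  | base => exact le_rfl
  | succ n hmn ih => rw [hits_succ]; omega

/-- items that surely fit in the bins where some `x a`, `a ∈ X`, fits -/
def Dset {ι : Type*} (x : ι → Fin d → ℝ) (X : Finset ι) : Set (Fin d → ℝ) :=
  {v | ∃ a ∈ X, ∀ c, v c ≤ x a c}

/-- items `v` such that a bin containing only `v` has no room for `x a`, for all `a ∉ X` -/
def Gset {ι : Type*} (x : ι → Fin d → ℝ) (X : Finset ι) : Set (Fin d → ℝ) :=
  {v | ∀ a, a ∉ X → ¬ Fits v (x a)}

/-- The window inequality. -/
lemma window {ι : Type*} [Fintype ι] [DecidableEq ι] (v : ℕ → Fin d → ℝ)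
    (x : ι → Fin d → ℝ) (X : Finset ι) (t h : ℕ)
    (hX : ∀ a ∈ X, h ≤ cnt (fun b => Fits b (x a)) (run v t)) :
    2 * (run v (t + h)).length + hits (Dset x X) v (t + h) ≤
      2 * (run v t).length + hits (Dset x X) v t + h +
      (hits (Gset x X) v (t + h) - hits (Gset x X) v t) +
      ∑ a ∈ Xᶜ, cnt (fun b => Fits b (x a)) (run v (t + h)) := by
  classical
  set p : (Fin d → ℝ) → Prop := fun b => ∃ a, a ∉ X ∧ Fits b (x a) with hp
  -- main invariant
  have key : ∀ r ≤ h, ∃ O N : List (Fin d → ℝ), run v (t + r) = O ++ N ∧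
      O.length = (run v t).length ∧
      (∀ a, cnt (fun b => Fits b (x a)) (run v t) ≤ cnt (fun b => Fits b (x a)) O + r) ∧
      2 * N.length + hits (Dset x X) v (t + r) + hits (Gset x X) v t ≤
        hits (Dset x X) v t + r + hits (Gset x X) v (t + r) + cnt p N := by
    intro r
    induction r with
    | zero =>
      intro _
      refine ⟨run v t, [], by simp, rfl, fun a => by simp, ?_⟩
      simp
    | succ r ih =>
      intro hr
      obtain ⟨O, N, hrun, hO, hcnt, hinv⟩ := ih (by omega)
      have hstep : run v (t + (r + 1)) = place (v (t + r)) (O ++ N) := by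
        rw [← hrun]; rfl
      have hD := hits_succ (Dset x X) v (t + r)
      have hG := hits_succ (Gset x X) v (t + r)
      rw [← add_assoc t r 1, hD, hG, add_assoc t r 1]
      by_cases h1 : ∃ b ∈ O, Fits b (v (t + r))
      · refine ⟨place (v (t + r)) O, N, ?_, ?_, ?_, ?_⟩
        · rw [hstep, place_append_of_fits h1]
        · rw [length_place_of_fits h1, hO]
        · intro a
          have := cnt_le_cnt_place (fun b => Fits b (x a)) (v (t + r)) O
          have := hcnt a
          omega
        · split_ifs <;> omega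
      · -- then the item is not in `Dset`
        have hnD : v (t + r) ∉ Dset x X := by
          rintro ⟨a, haX, hle⟩
          have h2 := hX a haX
          have h3 := hcnt a
          have h4 : 0 < cnt (fun b => Fits b (x a)) O := by omega
          obtain ⟨b, hb, hfit⟩ := cnt_pos.1 h4
          exact h1 ⟨b, hb, fun c => by have := hfit c; have := hle c; linarith⟩
        rw [if_neg hnD]
        push Not at h1
        refine ⟨O, place (v (t + r)) N, ?_, hO, ?_, ?_⟩
        · rw [hstep, place_append_of_not_fits h1]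
        · intro a
          have := hcnt a
          omega
        · by_cases h2 : ∃ b ∈ N, Fits b (v (t + r))
          · rw [length_place_of_fits h2]
            have := cnt_le_cnt_place p (v (t + r)) N
            split_ifs <;> omega
          · push Not at h2
            rw [place_of_not_fits h2, cnt_append, cnt_cons, cnt_nil, List.length_append,
              List.length_singleton]
            have hpG : p (v (t + r)) ∨ v (t + r) ∈ Gset x X := by
              by_cases h3 : p (v (t + r))
              · exact Or.inl h3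
              · right
                intro a ha hf
                exact h3 ⟨a, ha, hf⟩
            rcases hpG with h3 | h3
            · rw [if_pos h3]; split_ifs <;> omega
            · rw [if_pos h3]; split_ifs <;> omega
  obtain ⟨O, N, hrun, hO, -, hinv⟩ := key h le_rfl
  have h1 : cnt p N ≤ ∑ a ∈ Xᶜ, cnt (fun b => Fits b (x a)) N := by
    clear hinv hrun
    induction N with
    | nil => simp
    | cons b N ih =>
      simp only [cnt_cons, Finset.sum_add_distrib]
      refine add_le_add ih ?_
      split_ifs with hb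
      · obtain ⟨a, ha, hf⟩ := hb
        have : (if Fits b (x a) then 1 else 0) ≤ ∑ a ∈ Xᶜ, (if Fits b (x a) then 1 else 0) :=
          Finset.single_le_sum (f := fun a => if Fits b (x a) then (1 : ℕ) else 0)
            (fun _ _ => Nat.zero_le _) (by simpa using ha)
        rw [if_pos hf] at this
        exact this
      · exact Nat.zero_le _
  have h2 : ∑ a ∈ Xᶜ, cnt (fun b => Fits b (x a)) N ≤
      ∑ a ∈ Xᶜ, cnt (fun b => Fits b (x a)) (run v (t + h)) := by
    refine Finset.sum_le_sum fun a _ => ?_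
    rw [hrun, cnt_append]; omega
  have h3 : (run v (t + h)).length = O.length + N.length := by rw [hrun]; simp
  have h4 := hits_mono (Gset x X) v (Nat.le_add_right t h)
  omega


lemma abs_floor_sub_floor_le (a b : ℝ) : |((⌊a⌋₊ : ℕ) : ℝ) - ((⌊b⌋₊ : ℕ) : ℝ)| ≤ |a - b| + 1 := by
  wlog hab : a ≤ b generalizing a b with H
  · rw [abs_sub_comm, abs_sub_comm a b]
    exact H b a (le_of_not_ge hab)
  have h1 : ((⌊a⌋₊ : ℕ) : ℝ) ≤ ((⌊b⌋₊ : ℕ) : ℝ) := by exact_mod_cast Nat.floor_mono hab
  have h2 := Nat.lt_floor_add_one a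
  rw [abs_sub_comm, abs_of_nonneg (by linarith), abs_sub_comm, abs_of_nonneg (by linarith)]
  rcases le_or_gt 0 b with hb | hb
  · have h3 := Nat.floor_le hb
    linarith
  · have h4 : ⌊b⌋₊ = 0 := Nat.floor_of_nonpos hb.le
    rw [h4] at h1 ⊢
    push_cast at *
    have : (0 : ℝ) ≤ ((⌊a⌋₊ : ℕ) : ℝ) := Nat.cast_nonneg _
    linarith

lemma abs_sub_le_of_lipschitz {g : ℕ → ℝ} (hg : ∀ m, |g (m + 1) - g m| ≤ 1) (m n : ℕ) :
    |g m - g n| ≤ |(m : ℝ) - n| := by
  wlog hmn : n ≤ m generalizing m n with H
  · rw [abs_sub_comm, abs_sub_comm (m : ℝ) n]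
    exact H n m (le_of_not_ge hmn)
  induction m, hmn using Nat.le_induction with
  | base => simp
  | succ m hmn ih =>
    have h1 : (n : ℝ) ≤ m := by exact_mod_cast hmn
    have e1 : |(m : ℝ) - n| = m - n := abs_of_nonneg (by linarith)
    have e2 : |((m + 1 : ℕ) : ℝ) - n| = m + 1 - n := by
      push_cast
      exact abs_of_nonneg (by linarith)
    rw [e1] at ih
    rw [e2]
    calc |g (m + 1) - g n| ≤ |g (m + 1) - g m| + |g m - g n| := abs_sub_le _ _ _
      _ ≤ 1 + ((m : ℝ) - n) := add_le_add (hg m) ih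
      _ = (m : ℝ) + 1 - n := by ring

/-- scaling limits along an ultrafilter -/
lemma exists_scaling_limit (𝒰 : Ultrafilter ℕ) (h𝒰 : (𝒰 : Filter ℕ) ≤ atTop) (g : ℕ → ℝ)
    (h0 : g 0 = 0) (hg : ∀ m, |g (m + 1) - g m| ≤ 1) :
    ∃ G : ℝ → ℝ, LipschitzWith 1 G ∧ G 0 = 0 ∧
      ∀ τ, Tendsto (fun n : ℕ => g ⌊(n : ℝ) * τ⌋₊ / n) 𝒰 (𝓝 (G τ)) := by
  have hgm : ∀ m, |g m| ≤ m := by
    intro m
    have := abs_sub_le_of_lipschitz hg m 0
    rw [h0] at this
    simpa using this
  have hex : ∀ τ : ℝ, ∃ y, Tendsto (fun n : ℕ => g ⌊(n : ℝ) * τ⌋₊ / n) 𝒰 (𝓝 y) := by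
    intro τ
    have hmem : ∀ n : ℕ, g ⌊(n : ℝ) * τ⌋₊ / n ∈ Icc (-|τ|) |τ| := by
      intro n
      rw [mem_Icc, ← abs_le, abs_div, Nat.abs_cast]
      rcases Nat.eq_zero_or_pos n with rfl | hn
      · simp
      · have hn' : (0 : ℝ) < n := by exact_mod_cast hn
        rw [div_le_iff₀ hn']
        refine (hgm _).trans ?_
        rcases le_or_gt 0 τ with hτ | hτ
        · refine (Nat.floor_le (by positivity)).trans ?_
          rw [abs_of_nonneg hτ]; linarith
        · rw [Nat.floor_of_nonpos (by nlinarith)]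
          simp only [Nat.cast_zero]
          positivity
    obtain ⟨y, -, hy⟩ := (isCompact_Icc (a := -|τ|) (b := |τ|)).ultrafilter_le_nhds
      (𝒰.map fun n : ℕ => g ⌊(n : ℝ) * τ⌋₊ / n) (by
        rw [le_principal_iff]
        exact Filter.mem_map.2 (Filter.univ_mem' hmem))
    exact ⟨y, hy⟩
  choose G hG using hex
  refine ⟨G, ?_, ?_, hG⟩
  · refine LipschitzWith.of_dist_le_mul fun τ σ => ?_
    rw [Real.dist_eq, Real.dist_eq, NNReal.coe_one, one_mul]
    have h1 : Tendsto (fun n : ℕ => |g ⌊(n : ℝ) * τ⌋₊ / n - g ⌊(n : ℝ) * σ⌋₊ / n|) 𝒰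
        (𝓝 |G τ - G σ|) := ((hG τ).sub (hG σ)).abs
    have h2 : Tendsto (fun n : ℕ => |τ - σ| + 1 / (n : ℝ)) 𝒰 (𝓝 (|τ - σ| + 0)) :=
      (tendsto_const_nhds.add (tendsto_one_div_atTop_nhds_zero_nat)).mono_left h𝒰
    rw [add_zero] at h2
    refine le_of_tendsto_of_tendsto h1 h2 ?_
    have h3 : ∀ᶠ n : ℕ in 𝒰, 0 < n := h𝒰 (eventually_gt_atTop 0)
    filter_upwards [h3] with n hn
    have hn' : (0 : ℝ) < n := by exact_mod_cast hn
    rw [← sub_div, abs_div, Nat.abs_cast, div_le_iff₀ hn']
    refine (abs_sub_le_of_lipschitz hg _ _).trans ((abs_floor_sub_floor_le _ _).trans ?_)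
    rw [← mul_sub, abs_mul, Nat.abs_cast]
    field_simp
    rfl
  · refine tendsto_nhds_unique (hG 0) ?_
    simp [h0]

lemma tendsto_floor_mul {g : ℕ → ℝ} {p τ : ℝ} (hτ : 0 ≤ τ) (hg0 : g 0 = 0)
    (hg : Tendsto (fun n : ℕ => g n / n) atTop (𝓝 p)) :
    Tendsto (fun n : ℕ => g ⌊(n : ℝ) * τ⌋₊ / n) atTop (𝓝 (τ * p)) := by
  rcases hτ.eq_or_lt with rfl | hτ
  · simp [hg0]
  · have h1 : Tendsto (fun n : ℕ => (⌊(n : ℝ) * τ⌋₊ : ℕ)) atTop atTop := by
      refine tendsto_nat_floor_atTop.comp ?_
      exact tendsto_natCast_atTop_atTop.atTop_mul_const hτ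
    have h2 := hg.comp h1
    have h3 : Tendsto (fun n : ℕ => ((⌊τ * (n : ℝ)⌋₊ : ℕ) : ℝ) / (n : ℝ)) atTop (𝓝 τ) :=
      (tendsto_nat_floor_mul_div_atTop hτ.le).comp tendsto_natCast_atTop_atTop
    have h4 := h3.mul h2
    refine h4.congr' ?_
    filter_upwards [h1.eventually_gt_atTop 0] with n hn
    have hn' : (0 : ℝ) < ((⌊(n : ℝ) * τ⌋₊ : ℕ) : ℝ) := by exact_mod_cast hn
    simp only [Function.comp]
    rw [mul_comm τ (n : ℝ)]
    field_simp

/-- lengths of the run change by at most one -/
lemma abs_length_run (v : ℕ → Fin d → ℝ) (m : ℕ) :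
    |((run v (m + 1)).length : ℝ) - ((run v m).length : ℝ)| ≤ 1 := by
  have h1 := length_place_le (v m) (run v m)
  have h2 := le_length_place (v m) (run v m)
  rw [abs_le]
  simp only [run]
  constructor
  · have : ((run v m).length : ℝ) ≤ ((place (v m) (run v m)).length : ℝ) := by exact_mod_cast h2
    linarith
  · have : ((place (v m) (run v m)).length : ℝ) ≤ ((run v m).length : ℝ) + 1 := by
      exact_mod_cast h1
    linarith

lemma abs_cnt_run (p : (Fin d → ℝ) → Prop) (v : ℕ → Fin d → ℝ) (m : ℕ) :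
    |(cnt p (run v (m + 1)) : ℝ) - (cnt p (run v m) : ℝ)| ≤ 1 := by
  have h1 := cnt_place_le p (v m) (run v m)
  have h2 := cnt_le_cnt_place p (v m) (run v m)
  rw [abs_le]
  simp only [run]
  constructor
  · have : (cnt p (run v m) : ℝ) ≤ (cnt p (place (v m) (run v m)) : ℝ) + 1 := by exact_mod_cast h2
    linarith
  · have : (cnt p (place (v m) (run v m)) : ℝ) ≤ (cnt p (run v m) : ℝ) + 1 := by
      exact_mod_cast h1
    linarith

/-- Deterministic core. -/
theorem limit_le {ι : Type*} [Fintype ι] [DecidableEq ι] (v : ℕ → Fin d → ℝ)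
    (x : ι → Fin d → ℝ) (pD pG : Finset ι → ℝ) (δ : ℝ)
    (hD : ∀ X, Tendsto (fun n : ℕ => (hits (Dset x X) v n : ℝ) / n) atTop (𝓝 (pD X)))
    (hG : ∀ X, Tendsto (fun n : ℕ => (hits (Gset x X) v n : ℝ) / n) atTop (𝓝 (pG X)))
    (hδ : ∀ X, pG X ≤ pD X + δ)
    (𝒰 : Ultrafilter ℕ) (h𝒰 : (𝒰 : Filter ℕ) ≤ atTop) (b₁ : ℝ)
    (hb₁ : Tendsto (fun n : ℕ => ((run v n).length : ℝ) / n) 𝒰 (𝓝 b₁)) :
    b₁ ≤ (1 + δ) / 2 := by
  obtain ⟨b, hbLip, hb0, hb⟩ := exists_scaling_limit 𝒰 h𝒰 (fun n => ((run v n).length : ℝ))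
    (by simp [run]) (abs_length_run v)
  have hM' : ∀ a : ι, ∃ G : ℝ → ℝ, LipschitzWith 1 G ∧ G 0 = 0 ∧
      ∀ τ, Tendsto (fun n : ℕ => (cnt (fun b => Fits b (x a)) (run v ⌊(n : ℝ) * τ⌋₊) : ℝ) / n)
        𝒰 (𝓝 (G τ)) := fun a =>
    exists_scaling_limit 𝒰 h𝒰 (fun n => (cnt (fun b => Fits b (x a)) (run v n) : ℝ))
      (by simp [run]) (abs_cnt_run _ v)
  choose M hMLip hM0 hM using hM'
  have hMnn : ∀ a τ, 0 ≤ M a τ := by
    intro a τ
    refine ge_of_tendsto' (hM a τ) fun n => by positivity
  have hbb : b 1 = b₁ := by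
    refine tendsto_nhds_unique (hb 1) (hb₁.congr fun n => ?_)
    simp
  -- the main inequality in the limit
  have main : ∀ τ h : ℝ, 0 ≤ τ → 0 < h →
      2 * (b (τ + h) - b τ) ≤ h * (1 + δ) +
        ∑ a ∈ Finset.univ.filter (fun a => M a τ ≤ h), M a (τ + h) := by
    intro τ h hτ hh
    set X : Finset ι := Finset.univ.filter (fun a => h < M a τ) with hX
    have hXc : Xᶜ = Finset.univ.filter (fun a => M a τ ≤ h) := by
      ext a; simp [hX]
    have hfl : ∀ σ : ℝ, 0 ≤ σ →
        Tendsto (fun n : ℕ => ((⌊(n : ℝ) * σ⌋₊ : ℕ) : ℝ) / n) atTop (𝓝 σ) := by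
      intro σ hσ
      have := (tendsto_nat_floor_mul_div_atTop hσ).comp tendsto_natCast_atTop_atTop
      refine this.congr fun n => ?_
      simp [mul_comm]
    have hw : Tendsto (fun n : ℕ => ((⌊(n : ℝ) * (τ + h)⌋₊ : ℕ) : ℝ) / n -
        ((⌊(n : ℝ) * τ⌋₊ : ℕ) : ℝ) / n) 𝒰 (𝓝 h) := by
      have := ((hfl (τ + h) (by positivity)).sub (hfl τ hτ)).mono_left h𝒰
      rwa [add_sub_cancel_left] at this
    -- eventually the hypothesis of `window` holds
    have hev : ∀ᶠ n : ℕ in 𝒰, ∀ a ∈ X,
        ⌊(n : ℝ) * (τ + h)⌋₊ - ⌊(n : ℝ) * τ⌋₊ ≤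
          cnt (fun b => Fits b (x a)) (run v ⌊(n : ℝ) * τ⌋₊) := by
      rw [Filter.eventually_all_finset]
      intro a ha
      have ha' : h < M a τ := by simpa [hX] using ha
      have h3 := (hw.sub (hM a τ)).eventually (gt_mem_nhds (show h - M a τ < 0 by linarith))
      have h4 : ∀ᶠ n : ℕ in 𝒰, 0 < n := h𝒰 (eventually_gt_atTop 0)
      filter_upwards [h3, h4] with n h3 hn
      have hn' : (0 : ℝ) < n := by exact_mod_cast hn
      have hle : ⌊(n : ℝ) * τ⌋₊ ≤ ⌊(n : ℝ) * (τ + h)⌋₊ := by
        apply Nat.floor_mono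
        nlinarith
      have : (((⌊(n : ℝ) * (τ + h)⌋₊ - ⌊(n : ℝ) * τ⌋₊ : ℕ) : ℕ) : ℝ) ≤
          (cnt (fun b => Fits b (x a)) (run v ⌊(n : ℝ) * τ⌋₊) : ℝ) := by
        rw [Nat.cast_sub hle]
        have h5 : ((((⌊(n : ℝ) * (τ + h)⌋₊ : ℕ) : ℝ) - ((⌊(n : ℝ) * τ⌋₊ : ℕ) : ℝ) -
          (cnt (fun b => Fits b (x a)) (run v ⌊(n : ℝ) * τ⌋₊) : ℝ)) / n) < 0 := by
          rw [sub_div, sub_div]; exact h3
        rw [div_lt_iff₀ hn'] at h5
        linarith
      exact_mod_cast this
    have hlim1 : Tendsto (fun n : ℕ =>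
        2 * (((run v ⌊(n : ℝ) * (τ + h)⌋₊).length : ℝ) / n) +
          (hits (Dset x X) v ⌊(n : ℝ) * (τ + h)⌋₊ : ℝ) / n) 𝒰
        (𝓝 (2 * b (τ + h) + (τ + h) * pD X)) := by
      refine ((hb (τ + h)).const_mul 2).add ?_
      exact (tendsto_floor_mul (by positivity) (by simp [hits]) (hD X)).mono_left h𝒰
    have hlim2 : Tendsto (fun n : ℕ =>
        2 * (((run v ⌊(n : ℝ) * τ⌋₊).length : ℝ) / n) +
          (hits (Dset x X) v ⌊(n : ℝ) * τ⌋₊ : ℝ) / n +
          (((⌊(n : ℝ) * (τ + h)⌋₊ : ℕ) : ℝ) / n - ((⌊(n : ℝ) * τ⌋₊ : ℕ) : ℝ) / n) +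
          ((hits (Gset x X) v ⌊(n : ℝ) * (τ + h)⌋₊ : ℝ) / n -
            (hits (Gset x X) v ⌊(n : ℝ) * τ⌋₊ : ℝ) / n) +
          ∑ a ∈ Xᶜ, (cnt (fun b => Fits b (x a)) (run v ⌊(n : ℝ) * (τ + h)⌋₊) : ℝ) / n) 𝒰
        (𝓝 (2 * b τ + τ * pD X + h + ((τ + h) * pG X - τ * pG X) + ∑ a ∈ Xᶜ, M a (τ + h))) := by
      refine (((((hb τ).const_mul 2).add ?_).add hw).add (Tendsto.sub ?_ ?_)).add ?_
      · exact (tendsto_floor_mul hτ (by simp [hits]) (hD X)).mono_left h𝒰
      · exact (tendsto_floor_mul (by positivity) (by simp [hits]) (hG X)).mono_left h𝒰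
      · exact (tendsto_floor_mul hτ (by simp [hits]) (hG X)).mono_left h𝒰
      · exact tendsto_finsetSum _ fun a _ => hM a (τ + h)
    have hle := le_of_tendsto_of_tendsto hlim1 hlim2 (by
      have h4 : ∀ᶠ n : ℕ in 𝒰, 0 < n := h𝒰 (eventually_gt_atTop 0)
      filter_upwards [hev, h4] with n hn hpos
      have hn' : (0 : ℝ) < n := by exact_mod_cast hpos
      set T := ⌊(n : ℝ) * τ⌋₊ with hT
      set T' := ⌊(n : ℝ) * (τ + h)⌋₊ with hT'
      have hle : T ≤ T' := by
        apply Nat.floor_mono
        nlinarith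
      have hwin := window v x X T (T' - T) hn
      have hTT : T + (T' - T) = T' := by omega
      rw [hTT] at hwin
      have hGm := hits_mono (Gset x X) v hle
      have hwin' : (2 * ((run v T').length : ℝ) + (hits (Dset x X) v T' : ℝ)) ≤
          2 * ((run v T).length : ℝ) + (hits (Dset x X) v T : ℝ) + ((T' : ℝ) - T) +
          ((hits (Gset x X) v T' : ℝ) - (hits (Gset x X) v T : ℝ)) +
          ∑ a ∈ Xᶜ, (cnt (fun b => Fits b (x a)) (run v T') : ℝ) := by
        have h5 : ((2 * (run v T').length + hits (Dset x X) v T' : ℕ) : ℝ) ≤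
            ((2 * (run v T).length + hits (Dset x X) v T + (T' - T) +
            (hits (Gset x X) v T' - hits (Gset x X) v T) +
            ∑ a ∈ Xᶜ, cnt (fun b => Fits b (x a)) (run v T') : ℕ) : ℝ) := by exact_mod_cast hwin
        push_cast [Nat.cast_sub hle, Nat.cast_sub hGm] at h5
        linarith
      have h6 := div_le_div_of_nonneg_right hwin' hn'.le
      calc 2 * (((run v T').length : ℝ) / n) + (hits (Dset x X) v T' : ℝ) / n
          = (2 * ((run v T').length : ℝ) + (hits (Dset x X) v T' : ℝ)) / n := by ring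
        _ ≤ _ := h6
        _ = _ := by
            rw [← Finset.sum_div]
            ring)
    have h7 := hδ X
    rw [hXc] at hle
    nlinarith
  -- differentiate
  have hder : ∀ᵐ τ : ℝ, 0 < τ → deriv b τ ≤ (1 + δ) / 2 := by
    have h1 : ∀ᵐ τ : ℝ, DifferentiableAt ℝ b τ := hbLip.ae_differentiableAt_real
    have h2 : ∀ᵐ τ : ℝ, ∀ a, DifferentiableAt ℝ (M a) τ :=
      ae_all_iff.2 fun a => (hMLip a).ae_differentiableAt_real
    filter_upwards [h1, h2] with τ hbτ hMτ hτ
    -- slopes
    have hs : ∀ f : ℝ → ℝ, DifferentiableAt ℝ f τ →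
        Tendsto (fun h : ℝ => h⁻¹ * (f (τ + h) - f τ)) (𝓝[>] 0) (𝓝 (deriv f τ)) := by
      intro f hf
      have := hf.hasDerivAt.tendsto_slope_zero_right
      simpa [smul_eq_mul] using this
    set Z : Finset ι := Finset.univ.filter (fun a => M a τ = 0) with hZ
    have hev : ∀ᶠ h : ℝ in 𝓝[>] 0, Finset.univ.filter (fun a => M a τ ≤ h) = Z := by
      have : ∀ a : ι, ∀ᶠ h : ℝ in 𝓝[>] 0, (M a τ ≤ h ↔ M a τ = 0) := by
        intro a
        rcases (hMnn a τ).eq_or_lt with h0 | h0
        · filter_upwards [self_mem_nhdsWithin] with h hh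
          rw [← h0]; simp only [iff_true]; exact le_of_lt hh
        · have : ∀ᶠ h : ℝ in 𝓝[>] 0, h < M a τ :=
            nhdsWithin_le_nhds (eventually_lt_nhds h0)
          filter_upwards [this] with h hh
          constructor
          · intro h'; linarith
          · intro h'; linarith
      filter_upwards [Filter.eventually_all.2 this] with h hh
      ext a; simp [hZ, hh a]
    have hlimR : Tendsto (fun h : ℝ => (1 + δ) + ∑ a ∈ Z, h⁻¹ * (M a (τ + h) - M a τ)) (𝓝[>] 0)
        (𝓝 ((1 + δ) + ∑ a ∈ Z, deriv (M a) τ)) :=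
      tendsto_const_nhds.add (tendsto_finsetSum _ fun a _ => hs (M a) (hMτ a))
    have hlimL : Tendsto (fun h : ℝ => 2 * (h⁻¹ * (b (τ + h) - b τ))) (𝓝[>] 0)
        (𝓝 (2 * deriv b τ)) := (hs b hbτ).const_mul 2
    have hZ0 : ∑ a ∈ Z, deriv (M a) τ = 0 := by
      refine Finset.sum_eq_zero fun a ha => ?_
      have ha' : M a τ = 0 := by simpa [hZ] using ha
      refine IsLocalMin.deriv_eq_zero ?_
      filter_upwards with y
      rw [ha']; exact hMnn a y
    have hle := le_of_tendsto_of_tendsto hlimL hlimR (by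
      filter_upwards [hev, self_mem_nhdsWithin] with h hh hpos
      have hpos' : (0 : ℝ) < h := hpos
      have h3 := main τ h hτ.le hpos'
      rw [hh] at h3
      have h4 : ∑ a ∈ Z, M a (τ + h) = ∑ a ∈ Z, (M a (τ + h) - M a τ) := by
        refine Finset.sum_congr rfl fun a ha => ?_
        have ha' : M a τ = 0 := by simpa [hZ] using ha
        rw [ha', sub_zero]
      rw [h4] at h3
      have h5 := mul_le_mul_of_nonneg_left h3 (inv_nonneg.2 hpos'.le)
      have h6 : h⁻¹ * (h * (1 + δ) + ∑ a ∈ Z, (M a (τ + h) - M a τ)) =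
          (1 + δ) + ∑ a ∈ Z, h⁻¹ * (M a (τ + h) - M a τ) := by
        rw [mul_add, ← mul_assoc, inv_mul_cancel₀ hpos'.ne', one_mul, Finset.mul_sum]
      rw [h6] at h5
      linarith)
    rw [hZ0, add_zero] at hle
    linarith
  -- integrate
  have hac : AbsolutelyContinuousOnInterval b 0 1 :=
    (hbLip.lipschitzOnWith (s := uIcc 0 1)).absolutelyContinuousOnInterval
  have hint := hac.integral_deriv_eq_sub
  have hle : ∫ τ in (0 : ℝ)..1, deriv b τ ≤ ∫ τ in (0 : ℝ)..1, (1 + δ) / 2 := by
    refine intervalIntegral.integral_mono_ae_restrict zero_le_one hac.intervalIntegrable_deriv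
      intervalIntegrable_const ?_
    have hne : ∀ᵐ τ : ℝ, τ ≠ 0 := by simp [ae_iff, measure_singleton]
    rw [Filter.EventuallyLE, ae_restrict_iff' measurableSet_Icc]
    filter_upwards [hder, hne] with τ h1 h2 h3
    exact h1 (lt_of_le_of_ne h3.1 (Ne.symm h2))
  rw [hint, hb0, hbb] at hle
  simpa using hle


/-- the grid points `a/k` -/
noncomputable def grid (d k : ℕ) (a : Fin d → Fin k) : Fin d → ℝ := fun c => ((a c : ℕ) : ℝ) / k

lemma isClosed_Dset {ι : Type*} (x : ι → Fin d → ℝ) (X : Finset ι) : IsClosed (Dset x X) := by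
  have : Dset x X = ⋃ a ∈ X, ⋂ c, {v : Fin d → ℝ | v c ≤ x a c} := by
    ext v; simp [Dset]
  rw [this]
  refine isClosed_biUnion_finset fun a _ => isClosed_iInter fun c => ?_
  exact isClosed_le (continuous_apply c) continuous_const

lemma measurableSet_Gset {ι : Type*} [Fintype ι] (x : ι → Fin d → ℝ) (X : Finset ι) :
    MeasurableSet (Gset x X) := by
  classical
  have : Gset x X = ⋂ a : ι, {v : Fin d → ℝ | a ∉ X → ¬ Fits v (x a)} := by
    ext v; simp [Gset]
  rw [this]
  refine MeasurableSet.iInter fun a => ?_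
  by_cases ha : a ∈ X
  · simp [ha]
  · have h2 : {v : Fin d → ℝ | a ∉ X → ¬ Fits v (x a)} = (⋂ c, {v : Fin d → ℝ | v c + x a c ≤ 1})ᶜ := by
      ext v; simp [ha, Fits]
    rw [h2]
    refine (IsClosed.measurableSet ?_).compl
    refine isClosed_iInter fun c => ?_
    exact isClosed_le ((continuous_apply c).add continuous_const) continuous_const

/-- the comparison of volumes -/
lemma volume_Gset_le (k : ℕ) (hk : 0 < k) (X : Finset (Fin d → Fin k)) :
    (volume.restrict (Icc (0 : Fin d → ℝ) 1)) (Gset (grid d k) X) ≤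
      (volume.restrict (Icc (0 : Fin d → ℝ) 1)) (Dset (grid d k) X) +
        ENNReal.ofReal ((d : ℝ) / k) := by
  classical
  have hk' : (0 : ℝ) < k := by exact_mod_cast hk
  have hDm : MeasurableSet (Dset (grid d k) X) := (isClosed_Dset _ _).measurableSet
  have hGm : MeasurableSet (Gset (grid d k) X) := measurableSet_Gset _ _
  rw [Measure.restrict_apply hGm, Measure.restrict_apply hDm]
  set T : (Fin d → ℝ) → (Fin d → ℝ) := fun v => (fun _ => 1 - 1 / (k : ℝ)) - v with hT
  have hTmp : MeasurePreserving T volume volume :=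
    Measure.measurePreserving_sub_left volume (fun _ => 1 - 1 / (k : ℝ))
  set B : Fin d → Set (Fin d → ℝ) := fun c =>
    Set.pi univ (fun c' => if c' = c then {0} ∪ Ioc (1 - 1 / (k : ℝ)) 1 else Icc 0 1) with hB
  set A : Set (Fin d → ℝ) := Gset (grid d k) X ∩ {v | ∀ c, 0 < v c ∧ v c ≤ 1 - 1 / (k : ℝ)} with hA
  have hsub : Gset (grid d k) X ∩ Icc 0 1 ⊆ A ∪ ⋃ c, B c := by
    rintro v ⟨hvG, hv⟩
    by_cases h : ∀ c, 0 < v c ∧ v c ≤ 1 - 1 / (k : ℝ)
    · exact Or.inl ⟨hvG, h⟩
    · right
      push Not at h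
      obtain ⟨c, hc⟩ := h
      refine mem_iUnion.2 ⟨c, ?_⟩
      rw [hB, Set.mem_univ_pi]
      intro c'
      have h0 : 0 ≤ v c' := hv.1 c'
      have h1 : v c' ≤ 1 := hv.2 c'
      split_ifs with h2
      · subst h2
        rcases h0.eq_or_lt with h3 | h3
        · left; exact h3.symm
        · right; exact ⟨hc h3, h1⟩
      · exact ⟨h0, h1⟩
  have hAsub : A ⊆ T ⁻¹' (Dset (grid d k) X ∩ Icc 0 1) := by
    rintro v ⟨hvG, hv⟩
    have hlt : ∀ c, ⌊(k : ℝ) * (1 - v c)⌋₊ < k := by
      intro c
      have h1 := (hv c).1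
      have h2 := (hv c).2
      rw [Nat.floor_lt (by
        have : 0 ≤ 1 / (k : ℝ) := by positivity
        have : 0 ≤ 1 - v c := by linarith
        positivity)]
      nlinarith
    refine ⟨?_, ?_, ?_⟩
    · refine ⟨fun c => ⟨⌊(k : ℝ) * (1 - v c)⌋₊, hlt c⟩, ?_, ?_⟩
      · by_contra hcon
        refine hvG _ hcon ?_
        intro c
        simp only [grid]
        have h2 := (hv c).2
        have : 0 ≤ 1 / (k : ℝ) := by positivity
        have h3 : 0 ≤ 1 - v c := by linarith
        have h4 := Nat.floor_le (show 0 ≤ (k : ℝ) * (1 - v c) by positivity)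
        have h5 : ((⌊(k : ℝ) * (1 - v c)⌋₊ : ℕ) : ℝ) / k ≤ 1 - v c := by
          rw [div_le_iff₀ hk']; linarith
        linarith
      · intro c
        simp only [grid, hT, Pi.sub_apply]
        have h4 := Nat.lt_floor_add_one ((k : ℝ) * (1 - v c))
        have h5 : (1 - v c) - 1 / (k : ℝ) ≤ ((⌊(k : ℝ) * (1 - v c)⌋₊ : ℕ) : ℝ) / k := by
          rw [le_div_iff₀ hk', sub_mul, one_div, inv_mul_cancel₀ hk'.ne']
          linarith
        linarith
    · intro c
      have h2 := (hv c).2
      simp only [hT, Pi.sub_apply, Pi.zero_apply]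
      linarith
    · intro c
      have h1 := (hv c).1
      have : 0 ≤ 1 / (k : ℝ) := by positivity
      simp only [hT, Pi.sub_apply, Pi.one_apply]
      linarith
  have hBv : ∀ c, volume (B c) ≤ ENNReal.ofReal (1 / k) := by
    intro c
    rw [hB, volume_pi_pi]
    rw [Finset.prod_eq_single c]
    · rw [if_pos rfl]
      refine (measure_union_le _ _).trans ?_
      rw [Real.volume_singleton, Real.volume_Ioc, zero_add]
      refine ENNReal.ofReal_le_ofReal ?_
      linarith
    · intro c' _ hc'
      rw [if_neg hc', Real.volume_Icc]; simp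
    · intro h; exact absurd (Finset.mem_univ c) h
  calc volume (Gset (grid d k) X ∩ Icc 0 1)
      ≤ volume (A ∪ ⋃ c, B c) := measure_mono hsub
    _ ≤ volume A + volume (⋃ c, B c) := measure_union_le _ _
    _ ≤ volume (Dset (grid d k) X ∩ Icc 0 1) + ENNReal.ofReal ((d : ℝ) / k) := by
        refine add_le_add ?_ ?_
        · refine (measure_mono hAsub).trans ?_
          rw [hTmp.measure_preimage (hDm.inter measurableSet_Icc).nullMeasurableSet]
        · refine (measure_iUnion_fintype_le _ _).trans ?_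
          refine (Finset.sum_le_sum fun c _ => hBv c).trans ?_
          rw [Finset.sum_const, Finset.card_univ, Fintype.card_fin, nsmul_eq_mul]
          rw [← ENNReal.ofReal_natCast, ← ENNReal.ofReal_mul (by positivity)]
          refine ENNReal.ofReal_le_ofReal ?_
          rw [mul_one_div]

instance : IsProbabilityMeasure (volume.restrict (Icc (0 : Fin d → ℝ) 1)) := by
  constructor
  rw [Measure.restrict_apply_univ, Real.volume_Icc_pi]
  simp

lemma real_Gset_le (k : ℕ) (hk : 0 < k) (X : Finset (Fin d → Fin k)) :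
    (volume.restrict (Icc (0 : Fin d → ℝ) 1)).real (Gset (grid d k) X) ≤
      (volume.restrict (Icc (0 : Fin d → ℝ) 1)).real (Dset (grid d k) X) + (d : ℝ) / k := by
  have h := volume_Gset_le k hk X
  simp only [Measure.real]
  have h2 := ENNReal.toReal_mono (by finiteness) h
  rw [ENNReal.toReal_add (by finiteness) (by finiteness),
    ENNReal.toReal_ofReal (by positivity)] at h2
  exact h2

/-! ### the strong law of large numbers -/

open Classical in
lemma hits_eq_sum (D : Set (Fin d → ℝ)) (v : ℕ → Fin d → ℝ) (n : ℕ) :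
    (hits D v n : ℝ) = ∑ i ∈ Finset.range n, D.indicator (fun _ => (1 : ℝ)) (v i) := by
  induction n with
  | zero => simp [hits]
  | succ n ih =>
    rw [hits_succ, Finset.sum_range_succ, ← ih]
    push_cast
    simp only [Set.indicator_apply]

section Prob

variable {Ω : Type*} [MeasurableSpace Ω] {P : Measure Ω} [IsProbabilityMeasure P]
  {V : ℕ → Ω → Fin d → ℝ}

lemma ae_tendsto_comp (hmeas : ∀ i, Measurable (V i)) (hindep : iIndepFun V P)
    (hunif : ∀ i, P.map (V i) = volume.restrict (Icc 0 1))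
    (f : (Fin d → ℝ) → ℝ) (hf : Measurable f) (C : ℝ) (hfb : ∀ v ∈ Icc (0 : Fin d → ℝ) 1, |f v| ≤ C) :
    ∀ᵐ ω ∂P, Tendsto (fun n : ℕ => (∑ i ∈ Finset.range n, f (V i ω)) / n) atTop
      (𝓝 (∫ v, f v ∂(volume.restrict (Icc 0 1)))) := by
  have hint : Integrable f (volume.restrict (Icc (0 : Fin d → ℝ) 1)) := by
    refine Integrable.of_bound hf.aestronglyMeasurable C ?_
    rw [ae_restrict_iff' measurableSet_Icc]
    exact ae_of_all _ fun v hv => hfb v hv
  have hid : ∀ i, IdentDistrib (V i) (V 0) P P := fun i =>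
    ⟨(hmeas i).aemeasurable, (hmeas 0).aemeasurable, by rw [hunif i, hunif 0]⟩
  have h := strong_law_ae_real (fun i ω => f (V i ω)) (μ := P) ?_ ?_ ?_
  · have h2 : P[fun ω => f (V 0 ω)] = ∫ v, f v ∂(volume.restrict (Icc 0 1)) := by
      rw [← hunif 0, integral_map (hmeas 0).aemeasurable hf.aestronglyMeasurable]
    rw [h2] at h
    exact h
  · have h3 : Integrable f (P.map (V 0)) := by rw [hunif 0]; exact hint
    exact h3.comp_measurable (hmeas 0)
  · intro i j hij
    exact (hindep.indepFun hij).comp hf hf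
  · intro i
    exact (hid i).comp hf

lemma ae_tendsto_hits (hmeas : ∀ i, Measurable (V i)) (hindep : iIndepFun V P)
    (hunif : ∀ i, P.map (V i) = volume.restrict (Icc 0 1))
    (D : Set (Fin d → ℝ)) (hD : MeasurableSet D) :
    ∀ᵐ ω ∂P, Tendsto (fun n : ℕ => (hits D (fun i => V i ω) n : ℝ) / n) atTop
      (𝓝 ((volume.restrict (Icc 0 1)).real D)) := by
  have h := ae_tendsto_comp hmeas hindep hunif (D.indicator fun _ => (1 : ℝ))
    (measurable_const.indicator hD) 1 (fun v _ => by
      by_cases hv : v ∈ D <;> simp [hv])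
  filter_upwards [h] with ω hω
  rw [integral_indicator_const _ hD, smul_eq_mul, mul_one] at hω
  refine hω.congr fun n => ?_
  rw [hits_eq_sum]

lemma integral_coord (c : Fin d) :
    ∫ v : Fin d → ℝ, v c ∂(volume.restrict (Icc 0 1)) = 1 / 2 := by
  have hint : Integrable (fun v : Fin d → ℝ => v c) (volume.restrict (Icc (0 : Fin d → ℝ) 1)) := by
    refine Integrable.of_bound (measurable_pi_apply c).aestronglyMeasurable 1 ?_
    rw [ae_restrict_iff' measurableSet_Icc]
    refine ae_of_all _ fun v hv => ?_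
    rw [Real.norm_eq_abs, abs_le]
    have h0 : 0 ≤ v c := hv.1 c
    have h1 : v c ≤ 1 := hv.2 c
    constructor <;> linarith
  have hT : MeasurePreserving (fun v : Fin d → ℝ => (1 : Fin d → ℝ) - v)
      (volume.restrict (Icc 0 1)) (volume.restrict (Icc 0 1)) := by
    have h := (Measure.measurePreserving_sub_left (volume : Measure (Fin d → ℝ)) 1).restrict_preimage
      (s := Icc 0 1) measurableSet_Icc
    have h2 : (fun v : Fin d → ℝ => (1 : Fin d → ℝ) - v) ⁻¹' Icc 0 1 = Icc 0 1 := by
      ext v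
      simp only [mem_preimage, mem_Icc, Pi.le_def, Pi.sub_apply, Pi.zero_apply, Pi.one_apply]
      constructor
      · rintro ⟨h1, h2⟩
        exact ⟨fun i => by linarith [h2 i], fun i => by linarith [h1 i]⟩
      · rintro ⟨h1, h2⟩
        exact ⟨fun i => by linarith [h2 i], fun i => by linarith [h1 i]⟩
    rw [h2] at h
    exact h
  have h1 : ∫ v : Fin d → ℝ, ((1 : Fin d → ℝ) - v) c ∂(volume.restrict (Icc 0 1)) =
      ∫ v : Fin d → ℝ, v c ∂(volume.restrict (Icc 0 1)) :=
    hT.integral_comp' (f := MeasurableEquiv.subLeft (1 : Fin d → ℝ)) (fun v => v c)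
  have h2 : ∫ v : Fin d → ℝ, ((1 : Fin d → ℝ) - v) c ∂(volume.restrict (Icc 0 1)) =
      1 - ∫ v : Fin d → ℝ, v c ∂(volume.restrict (Icc 0 1)) := by
    simp only [Pi.sub_apply, Pi.one_apply]
    rw [integral_sub (integrable_const _) hint]
    simp
  linarith

end Prob


/-! ### facts on `OPT` -/

lemma OPT_ofFn {n : ℕ} (f : Fin n → Fin d → ℝ) :
    OPT (List.ofFn f) = sInf {m : ℕ | ∃ a : Fin n → Fin m, ∀ (j : Fin m) (c : Fin d),
      ∑ i with a i = j, f i c ≤ 1} := by
  unfold OPT
  congr 1
  ext m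
  simp only [mem_ofPred_eq]
  have hlen : (List.ofFn f).length = n := List.length_ofFn
  constructor
  · rintro ⟨a, ha⟩
    refine ⟨fun i => a (Fin.cast hlen.symm i), fun j c => ?_⟩
    refine le_trans (le_of_eq ?_) (ha j c)
    refine Finset.sum_bij (fun i _ => Fin.cast hlen.symm i) ?_ ?_ ?_ ?_
    · intro i hi; simpa using hi
    · intro i _ i' _ h; simpa using h
    · intro i hi
      exact ⟨Fin.cast hlen i, by simpa using hi, by simp⟩
    · intro i hi; simp
  · rintro ⟨a, ha⟩
    refine ⟨fun i => a (Fin.cast hlen i), fun j c => ?_⟩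
    refine le_trans (le_of_eq ?_) (ha j c)
    refine Finset.sum_bij (fun i _ => Fin.cast hlen i) ?_ ?_ ?_ ?_
    · intro i hi; simpa using hi
    · intro i _ i' _ h; simpa using h
    · intro i hi
      exact ⟨Fin.cast hlen.symm i, by simpa using hi, by simp⟩
    · intro i hi; simp; rfl

/-- the set of feasible numbers of bins -/
def feas {n : ℕ} (f : Fin n → Fin d → ℝ) : Set ℕ :=
  {m : ℕ | ∃ a : Fin n → Fin m, ∀ (j : Fin m) (c : Fin d), ∑ i with a i = j, f i c ≤ 1}

lemma mem_feas_self {n : ℕ} (f : Fin n → Fin d → ℝ) (hf : ∀ i c, f i c ≤ 1) : n ∈ feas f := by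
  refine ⟨id, fun j c => ?_⟩
  have : (Finset.univ.filter fun i : Fin n => id i = j) = {j} := by ext; simp
  rw [this, Finset.sum_singleton]
  exact hf j c

lemma sum_le_of_mem_feas {n m : ℕ} (f : Fin n → Fin d → ℝ) (hm : m ∈ feas f) (c : Fin d) :
    ∑ i, f i c ≤ m := by
  obtain ⟨a, ha⟩ := hm
  rw [← Finset.sum_fiberwise (s := Finset.univ) (g := a)]
  calc ∑ j, ∑ i with a i = j, f i c ≤ ∑ _j : Fin m, (1 : ℝ) := Finset.sum_le_sum fun j _ => ha j c
    _ = m := by simp

lemma OPT_mem_feas {n : ℕ} (f : Fin n → Fin d → ℝ) (hf : ∀ i c, f i c ≤ 1) :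
    OPT (List.ofFn f) ∈ feas f := by
  rw [OPT_ofFn]
  exact Nat.sInf_mem ⟨n, mem_feas_self f hf⟩

lemma OPT_le_of_mem_feas {n m : ℕ} (f : Fin n → Fin d → ℝ) (hm : m ∈ feas f) :
    OPT (List.ofFn f) ≤ m := by
  rw [OPT_ofFn]
  exact Nat.sInf_le hm

lemma OPT_pos {n : ℕ} (hn : 0 < n) (f : Fin n → Fin d → ℝ) (hf : ∀ i c, f i c ≤ 1) :
    0 < OPT (List.ofFn f) := by
  obtain ⟨a, -⟩ := OPT_mem_feas f hf
  have := (a ⟨0, hn⟩).isLt
  omega

/-! ### First Fit gives a packing -/

open Classical in
/-- description of one step by an index -/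
lemma place_spec (v : Fin d → ℝ) (l : List (Fin d → ℝ)) :
    (∃ (j : ℕ) (hj : j < l.length), Fits l[j] v ∧ place v l = l.set j (l[j] + v)) ∨
      place v l = l ++ [v] := by
  induction l with
  | nil => right; simp [place]
  | cons b l ih =>
    by_cases h1 : Fits b v
    · left
      exact ⟨0, by simp, by simpa using h1, by simp [place, h1]⟩
    · rcases ih with ⟨j, hj, hf, he⟩ | he
      · left
        refine ⟨j + 1, by simpa using hj, by simpa using hf, ?_⟩
        simp [place, h1, he]
      · right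
        simp [place, h1, he]

/-- First Fit is a packing -/
lemma run_isPacking (v : ℕ → Fin d → ℝ) (hv : ∀ i c, v i c ≤ 1) (n : ℕ) :
    ∃ a : ℕ → ℕ, (∀ i < n, a i < (run v n).length) ∧
      ∀ (j : ℕ) (hj : j < (run v n).length) (c : Fin d),
        (run v n)[j] c = ∑ i ∈ (Finset.range n).filter (fun i => a i = j), v i c ∧
          (run v n)[j] c ≤ 1 := by
  induction n with
  | zero => exact ⟨id, by simp, by simp [run]⟩
  | succ n ih =>
    obtain ⟨a, ha1, ha2⟩ := ih
    have hne : ∀ i ∈ Finset.range n, ∀ j0, Function.update a n j0 i = a i := by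
      intro i hi j0
      rw [Function.update_of_ne]
      have := Finset.mem_range.1 hi
      omega
    have hsum : ∀ (j0 j : ℕ) (c : Fin d),
        ∑ i ∈ (Finset.range (n + 1)).filter (fun i => Function.update a n j0 i = j), v i c =
        ∑ i ∈ (Finset.range n).filter (fun i => a i = j), v i c + (if j0 = j then v n c else 0) := by
      intro j0 j c
      rw [Finset.sum_filter, Finset.sum_range_succ, Function.update_self, Finset.sum_filter]
      congr 1
      refine Finset.sum_congr rfl fun i hi => ?_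
      rw [hne i hi j0]
    rcases place_spec (v n) (run v n) with ⟨j0, hj0, hf, he⟩ | he
    · have hrun : run v (n + 1) = (run v n).set j0 ((run v n)[j0] + v n) := by rw [run, he]
      rw [hrun]
      refine ⟨Function.update a n j0, ?_, ?_⟩
      · intro i hi
        simp only [List.length_set]
        rcases Nat.lt_succ_iff_lt_or_eq.1 hi with h | rfl
        · rw [hne i (Finset.mem_range.2 h)]; exact ha1 i h
        · rw [Function.update_self]; exact hj0
      · intro j hj c
        have hj' : j < (run v n).length := by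
          simp only [List.length_set] at hj; exact hj
        rw [hsum]
        simp only [List.getElem_set]
        by_cases hjj : j0 = j
        · subst hjj
          rw [if_pos rfl, if_pos rfl, ← (ha2 j0 hj' c).1]
          exact ⟨rfl, hf c⟩
        · rw [if_neg hjj, if_neg hjj, add_zero]
          exact ha2 j hj' c
    · have hrun : run v (n + 1) = run v n ++ [v n] := by rw [run, he]
      rw [hrun]
      refine ⟨Function.update a n (run v n).length, ?_, ?_⟩
      · intro i hi
        simp only [List.length_append, List.length_singleton]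
        rcases Nat.lt_succ_iff_lt_or_eq.1 hi with h | rfl
        · rw [hne i (Finset.mem_range.2 h)]; have := ha1 i h; omega
        · rw [Function.update_self]; omega
      · intro j hj c
        rw [hsum]
        simp only [List.length_append, List.length_singleton] at hj
        simp only [List.getElem_append]
        by_cases hjj : j < (run v n).length
        · rw [dif_pos hjj, if_neg (by omega), add_zero]
          exact ha2 j hjj c
        · have hjj' : (run v n).length = j := by omega
          rw [dif_neg hjj, if_pos hjj']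
          have h0 : ∑ i ∈ (Finset.range n).filter (fun i => a i = j), v i c = 0 := by
            rw [Finset.filter_eq_empty_iff.2, Finset.sum_empty]
            intro i hi h
            have := ha1 i (Finset.mem_range.1 hi)
            omega
          rw [h0, zero_add]
          subst hjj'
          simp [hv n c]

lemma OPT_le_run (v : ℕ → Fin d → ℝ) (hv : ∀ i c, v i c ≤ 1) (n : ℕ) :
    OPT (List.ofFn fun i : Fin n => v i) ≤ (run v n).length := by
  obtain ⟨a, ha1, ha2⟩ := run_isPacking v hv n
  refine OPT_le_of_mem_feas _ ⟨fun i => ⟨a i, ha1 i i.isLt⟩, fun j c => ?_⟩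
  obtain ⟨h1, h2⟩ := ha2 j j.isLt c
  rw [h1] at h2
  refine le_trans (le_of_eq ?_) h2
  rw [Finset.sum_filter, Finset.sum_filter, Finset.sum_range]
  refine Finset.sum_congr rfl fun i _ => ?_
  simp only [Fin.ext_iff]

/-! ### First Fit never uses more than `2 d OPT + 1` bins -/

/-- all the pairs of bins are incompatible -/
lemma run_pairwise (v : ℕ → Fin d → ℝ) (hv : ∀ i c, 0 ≤ v i c) (n : ℕ) :
    (run v n).Pairwise (fun b b' => ∃ c, 1 < b c + b' c) ∧ ∀ b ∈ run v n, ∀ c, 0 ≤ b c := by
  induction n with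
  | zero => simp [run]
  | succ n ih =>
    obtain ⟨h1, h2⟩ := ih
    suffices H : ∀ (l : List (Fin d → ℝ)) (w : Fin d → ℝ), (∀ c, 0 ≤ w c) →
        l.Pairwise (fun b b' => ∃ c, 1 < b c + b' c) → (∀ b ∈ l, ∀ c, 0 ≤ b c) →
        (place w l).Pairwise (fun b b' => ∃ c, 1 < b c + b' c) ∧ (∀ b ∈ place w l, ∀ c, 0 ≤ b c) ∧
        ∀ b0 : Fin d → ℝ, (¬ Fits b0 w) → (∀ b ∈ l, ∃ c, 1 < b0 c + b c) →
          ∀ b ∈ place w l, ∃ c, 1 < b0 c + b c by
      have := H (run v n) (v n) (hv n) h1 h2
      exact ⟨this.1, this.2.1⟩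
    intro l w hw
    induction l with
    | nil =>
      intro _ _
      refine ⟨by simp [place], by simpa [place] using hw, ?_⟩
      intro b0 hb0 _ b hb
      simp only [place, List.mem_singleton] at hb
      subst hb
      simp only [Fits] at hb0
      push Not at hb0
      exact hb0
    | cons b l ihl =>
      intro hp hnn
      rw [List.pairwise_cons] at hp
      obtain ⟨i1, i2, i3⟩ := ihl hp.2 (fun b' hb' => hnn b' (by simp [hb']))
      have hb := hnn b (by simp)
      by_cases hf : Fits b w
      · simp only [place, hf, if_true]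
        refine ⟨?_, ?_, ?_⟩
        · rw [List.pairwise_cons]
          refine ⟨fun b' hb' => ?_, hp.2⟩
          obtain ⟨c, hc⟩ := hp.1 b' hb'
          exact ⟨c, by have := hw c; simp only [Pi.add_apply]; linarith⟩
        · intro b' hb' c
          rcases List.mem_cons.1 hb' with rfl | hb'
          · have := hb c; have := hw c; simp only [Pi.add_apply]; linarith
          · exact hnn b' (by simp [hb']) c
        · intro b0 _ hall b' hb'
          rcases List.mem_cons.1 hb' with rfl | hb'
          · obtain ⟨c, hc⟩ := hall b (by simp)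
            exact ⟨c, by have := hw c; simp only [Pi.add_apply]; linarith⟩
          · exact hall b' (by simp [hb'])
      · simp only [place, hf, if_false]
        refine ⟨?_, ?_, ?_⟩
        · rw [List.pairwise_cons]
          exact ⟨i3 b hf hp.1, i1⟩
        · intro b' hb' c
          rcases List.mem_cons.1 hb' with rfl | hb'
          · exact hb c
          · exact i2 b' hb' c
        · intro b0 hb0 hall b' hb'
          rcases List.mem_cons.1 hb' with rfl | hb'
          · exact hall b' (by simp)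
          · exact i3 b0 hb0 (fun b'' hb'' => hall b'' (by simp [hb''])) b' hb'

lemma length_le_of_pairwise : ∀ l : List (Fin d → ℝ),
    l.Pairwise (fun b b' => ∃ c, 1 < b c + b' c) → (∀ b ∈ l, ∀ c, 0 ≤ b c) →
      (l.length : ℝ) ≤ 2 * (l.map fun b => ∑ c, b c).sum + 1
  | [], _, _ => by simp
  | [b], _, hnn => by
    have : 0 ≤ ∑ c, b c := Finset.sum_nonneg fun c _ => hnn b (by simp) c
    simp only [List.length_singleton, List.map_cons, List.map_nil, List.sum_cons, List.sum_nil]
    push_cast
    linarith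
  | b :: b' :: l, hp, hnn => by
    rw [List.pairwise_cons, List.pairwise_cons] at hp
    obtain ⟨c, hc⟩ := hp.1 b' (by simp)
    have ih := length_le_of_pairwise l hp.2.2 (fun b'' hb'' => hnn b'' (by simp [hb'']))
    have h1 : b c ≤ ∑ c, b c :=
      Finset.single_le_sum (fun c _ => hnn b (by simp) c) (Finset.mem_univ c)
    have h2 : b' c ≤ ∑ c, b' c :=
      Finset.single_le_sum (fun c _ => hnn b' (by simp) c) (Finset.mem_univ c)
    simp only [List.length_cons, List.map_cons, List.sum_cons]
    push_cast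
    linarith

lemma sum_place (w : Fin d → ℝ) (l : List (Fin d → ℝ)) :
    ((place w l).map fun b => ∑ c, b c).sum = (l.map fun b => ∑ c, b c).sum + ∑ c, w c := by
  induction l with
  | nil => simp [place]
  | cons b l ih =>
    by_cases hf : Fits b w
    · simp only [place, hf, if_true, List.map_cons, List.sum_cons, Pi.add_apply,
        Finset.sum_add_distrib]
      ring
    · simp only [place, hf, if_false, List.map_cons, List.sum_cons, ih]
      ring

lemma sum_run (v : ℕ → Fin d → ℝ) (n : ℕ) :
    ((run v n).map fun b => ∑ c, b c).sum = ∑ c, ∑ i ∈ Finset.range n, v i c := by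
  induction n with
  | zero => simp [run]
  | succ n ih =>
    simp only [run, sum_place, ih, Finset.sum_range_succ, Finset.sum_add_distrib]

lemma run_le_OPT (v : ℕ → Fin d → ℝ) (hv0 : ∀ i c, 0 ≤ v i c) (hv1 : ∀ i c, v i c ≤ 1) (n : ℕ) :
    ((run v n).length : ℝ) ≤ 2 * d * (OPT (List.ofFn fun i : Fin n => v i) : ℝ) + 1 := by
  obtain ⟨h1, h2⟩ := run_pairwise v hv0 n
  have h3 := length_le_of_pairwise _ h1 h2
  rw [sum_run] at h3
  have h4 : ∑ c, ∑ i ∈ Finset.range n, v i c ≤
      ∑ _c : Fin d, (OPT (List.ofFn fun i : Fin n => v i) : ℝ) := by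
    refine Finset.sum_le_sum fun c _ => ?_
    have := sum_le_of_mem_feas (fun i : Fin n => v i)
      (OPT_mem_feas (fun i : Fin n => v i) (fun i c => hv1 i c)) c
    rw [Finset.sum_range]
    exact this
  rw [Finset.sum_const, Finset.card_univ, Fintype.card_fin, nsmul_eq_mul] at h4
  linarith

/-! ### measurability -/

section Meas

variable {Ω : Type*} [MeasurableSpace Ω]

lemma measurable_foldl (vs : List (Ω → Fin d → ℝ)) (hvs : ∀ v ∈ vs, Measurable v) :
    ∀ fs : List (Ω → Fin d → ℝ), (∀ f ∈ fs, Measurable f) →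
      Measurable (fun ω => ((vs.map (fun v => v ω)).foldl (fun bins v => place v bins)
        (fs.map (fun f => f ω))).length) := by
  induction vs with
  | nil =>
    intro fs _
    simp only [List.map_nil, List.foldl_nil, List.length_map]
    exact measurable_const
  | cons v vs ih =>
    have hv : Measurable v := hvs v (by simp)
    have ih' := ih (fun w hw => hvs w (by simp [hw]))
    suffices H : ∀ fs ps : List (Ω → Fin d → ℝ), (∀ f ∈ fs, Measurable f) →
        (∀ f ∈ ps, Measurable f) →
        Measurable (fun ω => ((vs.map (fun v => v ω)).foldl (fun bins v => place v bins)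
        (ps.map (fun f => f ω) ++ place (v ω) (fs.map (fun f => f ω)))).length) by
      intro fs hfs
      simpa using H fs [] hfs (by simp)
    intro fs
    induction fs with
    | nil =>
      intro ps _ hps
      have h := ih' (ps ++ [v]) (by
        intro f hf
        rcases List.mem_append.1 hf with h | h
        · exact hps f h
        · rw [List.mem_singleton.1 h]; exact hv)
      simpa [place] using h
    | cons f fs ihf =>
      intro ps hfs hps
      have hf : Measurable f := hfs f (by simp)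
      have hset : MeasurableSet {ω | Fits (f ω) (v ω)} := by
        have : {ω | Fits (f ω) (v ω)} = ⋂ c, {ω | f ω c + v ω c ≤ 1} := by
          ext ω; simp [Fits]
        rw [this]
        refine MeasurableSet.iInter fun c => ?_
        exact measurableSet_le (((measurable_pi_apply c).comp hf).add
          ((measurable_pi_apply c).comp hv)) measurable_const
      have h1 := ih' (ps ++ (fun ω => f ω + v ω) :: fs) (by
        intro g hg
        rcases List.mem_append.1 hg with h | h
        · exact hps g h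
        · rcases List.mem_cons.1 h with rfl | h
          · exact hf.add hv
          · exact hfs g (by simp [h]))
      have h2 := ihf (ps ++ [f]) (fun g hg => hfs g (by simp [hg])) (by
        intro g hg
        rcases List.mem_append.1 hg with h | h
        · exact hps g h
        · rw [List.mem_singleton.1 h]; exact hf)
      have h3 := @Measurable.ite _ _ _ _ _ _ _ (fun ω => Classical.propDecidable _) hset h1 h2
      convert! h3 using 1
      ext ω
      by_cases hω : Fits (f ω) (v ω)
      · simp [place, hω]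
      · simp [place, hω]

lemma measurable_FF (V : ℕ → Ω → Fin d → ℝ) (hV : ∀ i, Measurable (V i)) (n : ℕ) :
    Measurable (fun ω => FF (List.ofFn fun i : Fin n => V i ω)) := by
  have h := measurable_foldl (List.ofFn fun i : Fin n => V i) (by
    intro v hv
    rw [List.mem_ofFn] at hv
    obtain ⟨i, rfl⟩ := hv
    exact hV i) [] (by simp)
  simpa [FF, pack, List.map_ofFn, Function.comp_def] using h

lemma measurableSet_feas (V : ℕ → Ω → Fin d → ℝ) (hV : ∀ i, Measurable (V i)) (n m : ℕ) :
    MeasurableSet {ω | m ∈ feas (fun i : Fin n => V i ω)} := by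
  have : {ω | m ∈ feas (fun i : Fin n => V i ω)} =
      ⋃ a : Fin n → Fin m, ⋂ j : Fin m, ⋂ c : Fin d, {ω | ∑ i with a i = j, V i ω c ≤ 1} := by
    ext ω; simp [feas]
  rw [this]
  refine MeasurableSet.iUnion fun a => MeasurableSet.iInter fun j => MeasurableSet.iInter fun c => ?_
  refine measurableSet_le ?_ measurable_const
  exact Finset.measurable_sum _ fun i _ => (measurable_pi_apply c).comp (hV i)

lemma measurable_OPT (V : ℕ → Ω → Fin d → ℝ) (hV : ∀ i, Measurable (V i)) (n : ℕ) :
    Measurable (fun ω => OPT (List.ofFn fun i : Fin n => V i ω)) := by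
  refine measurable_to_countable' fun m => ?_
  have : (fun ω => OPT (List.ofFn fun i : Fin n => V i ω)) ⁻¹' {m} =
      {ω | sInf (feas (fun i : Fin n => V i ω)) = m} := by
    ext ω
    simp only [mem_preimage, mem_singleton_iff, mem_ofPred_eq, OPT_ofFn, feas]
  rw [this]
  rcases Nat.eq_zero_or_pos m with rfl | hm
  · have h2 : {ω | sInf (feas (fun i : Fin n => V i ω)) = 0} =
        {ω | 0 ∈ feas (fun i : Fin n => V i ω)} ∪ ⋂ k : ℕ, {ω | k ∈ feas (fun i : Fin n => V i ω)}ᶜ := by
      ext ω
      simp only [mem_ofPred_eq, Nat.sInf_eq_zero, mem_union, mem_iInter, mem_compl_iff,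
        Set.eq_empty_iff_forall_notMem]
    rw [h2]
    exact (measurableSet_feas V hV n 0).union
      (MeasurableSet.iInter fun k => (measurableSet_feas V hV n k).compl)
  · have h2 : {ω | sInf (feas (fun i : Fin n => V i ω)) = m} =
        {ω | m ∈ feas (fun i : Fin n => V i ω)} ∩
          ⋂ k ∈ Finset.range m, {ω | k ∈ feas (fun i : Fin n => V i ω)}ᶜ := by
      ext ω
      simp only [mem_ofPred_eq, mem_inter_iff, mem_iInter, mem_compl_iff, Finset.mem_range]
      constructor
      · rintro rfl
        have hne : (feas (fun i : Fin n => V i ω)).Nonempty := by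
          by_contra hcon
          rw [not_nonempty_iff_eq_empty] at hcon
          rw [hcon] at hm
          simp at hm
        exact ⟨Nat.sInf_mem hne, fun k hk => Nat.notMem_of_lt_sInf hk⟩
      · rintro ⟨h1, h2⟩
        refine le_antisymm (Nat.sInf_le h1) ?_
        by_contra hcon
        exact h2 _ (not_le.1 hcon) (Nat.sInf_mem ⟨m, h1⟩)
    rw [h2]
    exact (measurableSet_feas V hV n m).inter
      (Finset.measurableSet_biInter _ fun k _ => (measurableSet_feas V hV n k).compl)

end Meas


/-- Deterministic conclusion: a sequence of items with the right frequencies. -/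
lemma tendsto_run (v : ℕ → Fin d → ℝ) (hv1 : ∀ i c, v i c ≤ 1)
    (c₀ : Fin d)
    (hmean : Tendsto (fun n : ℕ => (∑ i ∈ Finset.range n, v i c₀) / n) atTop (𝓝 (1 / 2)))
    (hD : ∀ (k : ℕ) (X : Finset (Fin d → Fin (k + 1))),
      Tendsto (fun n : ℕ => (hits (Dset (grid d (k + 1)) X) v n : ℝ) / n) atTop
        (𝓝 ((volume.restrict (Icc 0 1)).real (Dset (grid d (k + 1)) X))))
    (hG : ∀ (k : ℕ) (X : Finset (Fin d → Fin (k + 1))),
      Tendsto (fun n : ℕ => (hits (Gset (grid d (k + 1)) X) v n : ℝ) / n) atTop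
        (𝓝 ((volume.restrict (Icc 0 1)).real (Gset (grid d (k + 1)) X)))) :
    Tendsto (fun n : ℕ => ((run v n).length : ℝ) / n) atTop (𝓝 (1 / 2)) := by
  rw [tendsto_iff_ultrafilter]
  intro 𝒰 h𝒰
  obtain ⟨b, -, -, hb⟩ := exists_scaling_limit 𝒰 h𝒰 (fun n => ((run v n).length : ℝ))
    (by simp [run]) (abs_length_run v)
  have hb1 : Tendsto (fun n : ℕ => ((run v n).length : ℝ) / n) 𝒰 (𝓝 (b 1)) := by
    refine (hb 1).congr fun n => ?_
    simp
  have hub : ∀ k : ℕ, b 1 ≤ (1 + (d : ℝ) / ((k + 1 : ℕ) : ℝ)) / 2 := by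
    intro k
    exact limit_le v (grid d (k + 1))
      (fun X => (volume.restrict (Icc 0 1)).real (Dset (grid d (k + 1)) X))
      (fun X => (volume.restrict (Icc 0 1)).real (Gset (grid d (k + 1)) X))
      ((d : ℝ) / ((k + 1 : ℕ) : ℝ)) (hD k) (hG k) (fun X => real_Gset_le (k + 1) (by omega) X)
      𝒰 h𝒰 (b 1) hb1
  have hub' : b 1 ≤ 1 / 2 := by
    have h1 : Tendsto (fun k : ℕ => (1 + (d : ℝ) / ((k + 1 : ℕ) : ℝ)) / 2) atTop
        (𝓝 ((1 + 0) / 2)) := by
      refine (tendsto_const_nhds.add ?_).div_const 2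
      have := tendsto_const_div_atTop_nhds_zero_nat (d : ℝ)
      exact this.comp (tendsto_add_atTop_nat 1)
    rw [add_zero] at h1
    exact ge_of_tendsto' h1 hub
  have hlb : 1 / 2 ≤ b 1 := by
    refine le_of_tendsto_of_tendsto (hmean.mono_left h𝒰) hb1 ?_
    filter_upwards with n
    refine div_le_div_of_nonneg_right ?_ (Nat.cast_nonneg n)
    have h1 := sum_le_of_mem_feas (fun i : Fin n => v i)
      (OPT_mem_feas (fun i : Fin n => v i) (fun i c => hv1 i c)) c₀
    have h2 : (OPT (List.ofFn fun i : Fin n => v i) : ℝ) ≤ ((run v n).length : ℝ) := by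
      exact_mod_cast OPT_le_run v hv1 n
    rw [Finset.sum_range]
    exact h1.trans h2
  have : b 1 = 1 / 2 := le_antisymm hub' hlb
  rw [this] at hb1
  exact hb1

lemma tendsto_ratio (v : ℕ → Fin d → ℝ) (hv1 : ∀ i c, v i c ≤ 1)
    (c₀ : Fin d)
    (hmean : Tendsto (fun n : ℕ => (∑ i ∈ Finset.range n, v i c₀) / n) atTop (𝓝 (1 / 2)))
    (hrun : Tendsto (fun n : ℕ => ((run v n).length : ℝ) / n) atTop (𝓝 (1 / 2))) :
    Tendsto (fun n : ℕ => (FF (List.ofFn fun i : Fin n => v i) : ℝ) /
      (OPT (List.ofFn fun i : Fin n => v i) : ℝ)) atTop (𝓝 1) := by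
  have h1 : Tendsto (fun n : ℕ => (((run v n).length : ℝ) / n) /
      ((∑ i ∈ Finset.range n, v i c₀) / n)) atTop (𝓝 1) := by
    have h0 := hrun.div hmean (by norm_num)
    rw [div_self (by norm_num : (1 / 2 : ℝ) ≠ 0)] at h0
    exact h0
  refine tendsto_of_tendsto_of_tendsto_of_le_of_le' tendsto_const_nhds h1 ?_ ?_
  · filter_upwards [eventually_gt_atTop 0] with n hn
    have h2 : (OPT (List.ofFn fun i : Fin n => v i) : ℝ) ≤ ((run v n).length : ℝ) := by
      exact_mod_cast OPT_le_run v hv1 n
    have h3 : (0 : ℝ) < (OPT (List.ofFn fun i : Fin n => v i) : ℝ) := by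
      exact_mod_cast OPT_pos hn _ (fun i c => hv1 i c)
    rw [FF_ofFn, le_div_iff₀ h3, one_mul]
    exact h2
  · have h4 : ∀ᶠ n : ℕ in atTop, 0 < (∑ i ∈ Finset.range n, v i c₀) / n :=
      hmean.eventually (lt_mem_nhds (by norm_num))
    filter_upwards [eventually_gt_atTop 0, h4] with n hn h5
    have hn' : (0 : ℝ) < n := by exact_mod_cast hn
    have h3 : (0 : ℝ) < (OPT (List.ofFn fun i : Fin n => v i) : ℝ) := by
      exact_mod_cast OPT_pos hn _ (fun i c => hv1 i c)
    have h6 : 0 < ∑ i ∈ Finset.range n, v i c₀ := by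
      have := mul_pos h5 hn'
      rwa [div_mul_cancel₀ _ hn'.ne'] at this
    have h7 : ∑ i ∈ Finset.range n, v i c₀ ≤ (OPT (List.ofFn fun i : Fin n => v i) : ℝ) := by
      rw [Finset.sum_range]
      exact sum_le_of_mem_feas (fun i : Fin n => v i)
        (OPT_mem_feas (fun i : Fin n => v i) (fun i c => hv1 i c)) c₀
    rw [FF_ofFn, div_div_div_cancel_right₀ hn'.ne']
    exact div_le_div_of_nonneg_left (Nat.cast_nonneg _) h6 h7

/-- **First Fit is asymptotically optimal for random vector packing in every dimension.**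
For every `d ≥ 1`, if `V 0, V 1, …` are independent random vectors, each uniformly distributed on
the cube `[0,1]^d`, and `L_n` is the list `V 0, …, V (n-1)`, then the expectation of
`FF L_n / OPT L_n` tends to `1` as `n → ∞`. -/
theorem main {d : ℕ} (hd : 1 ≤ d) {Ω : Type*} [MeasurableSpace Ω] (P : Measure Ω)
    [IsProbabilityMeasure P] (V : ℕ → Ω → Fin d → ℝ) (hmeas : ∀ i, Measurable (V i))
    (hindep : iIndepFun V P) (hunif : ∀ i, P.map (V i) = volume.restrict (Icc 0 1)) :
    Tendsto (fun n : ℕ => ∫ ω, (FF (List.ofFn fun i : Fin n => V i ω) : ℝ) /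
      (OPT (List.ofFn fun i : Fin n => V i ω) : ℝ) ∂P) atTop (𝓝 1) := by
  set c₀ : Fin d := ⟨0, hd⟩
  -- the items lie in the cube
  have hmem : ∀ᵐ ω ∂P, ∀ i, V i ω ∈ Icc (0 : Fin d → ℝ) 1 := by
    rw [ae_all_iff]
    intro i
    have h1 : ∀ᵐ v ∂(P.map (V i)), v ∈ Icc (0 : Fin d → ℝ) 1 := by
      rw [hunif i]
      exact ae_restrict_mem measurableSet_Icc
    exact ae_of_ae_map (hmeas i).aemeasurable h1
  have hmean : ∀ᵐ ω ∂P, Tendsto (fun n : ℕ => (∑ i ∈ Finset.range n, V i ω c₀) / n) atTop
      (𝓝 (1 / 2)) := by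
    have h := ae_tendsto_comp hmeas hindep hunif (fun v => v c₀) (measurable_pi_apply c₀) 1
      (fun v hv => by
        rw [abs_le]
        have h0 : 0 ≤ v c₀ := hv.1 c₀
        have h1 : v c₀ ≤ 1 := hv.2 c₀
        constructor <;> linarith)
    rw [integral_coord] at h
    exact h
  have hD : ∀ᵐ ω ∂P, ∀ (k : ℕ) (X : Finset (Fin d → Fin (k + 1))),
      Tendsto (fun n : ℕ => (hits (Dset (grid d (k + 1)) X) (fun i => V i ω) n : ℝ) / n) atTop
        (𝓝 ((volume.restrict (Icc 0 1)).real (Dset (grid d (k + 1)) X))) := by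
    rw [ae_all_iff]; intro k; rw [ae_all_iff]; intro X
    exact ae_tendsto_hits hmeas hindep hunif _ (isClosed_Dset _ _).measurableSet
  have hG : ∀ᵐ ω ∂P, ∀ (k : ℕ) (X : Finset (Fin d → Fin (k + 1))),
      Tendsto (fun n : ℕ => (hits (Gset (grid d (k + 1)) X) (fun i => V i ω) n : ℝ) / n) atTop
        (𝓝 ((volume.restrict (Icc 0 1)).real (Gset (grid d (k + 1)) X))) := by
    rw [ae_all_iff]; intro k; rw [ae_all_iff]; intro X
    exact ae_tendsto_hits hmeas hindep hunif _ (measurableSet_Gset _ _)
  have hlim : ∀ᵐ ω ∂P, Tendsto (fun n : ℕ => (FF (List.ofFn fun i : Fin n => V i ω) : ℝ) /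
      (OPT (List.ofFn fun i : Fin n => V i ω) : ℝ)) atTop (𝓝 1) := by
    filter_upwards [hmem, hmean, hD, hG] with ω h1 h2 h3 h4
    exact tendsto_ratio (fun i => V i ω) (fun i c => (h1 i).2 c) c₀ h2
      (tendsto_run (fun i => V i ω) (fun i c => (h1 i).2 c) c₀ h2 h3 h4)
  have hdom := tendsto_integral_of_dominated_convergence (μ := P)
    (F := fun (n : ℕ) ω => (FF (List.ofFn fun i : Fin n => V i ω) : ℝ) /
      (OPT (List.ofFn fun i : Fin n => V i ω) : ℝ)) (f := fun _ => (1 : ℝ))
    (fun _ => (2 * d + 1 : ℝ)) ?_ (integrable_const _) ?_ hlim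
  · simpa using hdom
  · intro n
    have h1 : Measurable (fun ω => (FF (List.ofFn fun i : Fin n => V i ω) : ℝ)) :=
      measurable_from_nat.comp (measurable_FF V hmeas n)
    have h2 : Measurable (fun ω => (OPT (List.ofFn fun i : Fin n => V i ω) : ℝ)) :=
      measurable_from_nat.comp (measurable_OPT V hmeas n)
    exact (h1.div h2).aestronglyMeasurable
  · intro n
    filter_upwards [hmem] with ω h1
    rw [Real.norm_eq_abs, abs_of_nonneg (by positivity)]
    have hv0 : ∀ i c, 0 ≤ V i ω c := fun i c => (h1 i).1 c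
    have hv1 : ∀ i c, V i ω c ≤ 1 := fun i c => (h1 i).2 c
    rcases Nat.eq_zero_or_pos n with rfl | hn
    · simp [FF, pack]
      positivity
    · have h3 : (1 : ℝ) ≤ (OPT (List.ofFn fun i : Fin n => V i ω) : ℝ) := by
        exact_mod_cast OPT_pos hn _ (fun i c => hv1 i c)
      rw [FF_ofFn (fun i => V i ω), div_le_iff₀ (by linarith)]
      have := run_le_OPT (fun i => V i ω) hv0 hv1 n
      nlinarith


end Pool.Agent.Helper83.FirstFit
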