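import Mathlib

/-!
# k-independent sets: generic constructions
-/

open Finset

namespace Pool.Agent.Helper83.KI

/-- `S` is `k`-independent: every vertex of `S` has at most `k` neighbours in `S`. -/
def IsKInd {V : Type*} (G : SimpleGraph V) (k : ℕ) (S : Finset V) : Prop :=
  ∀ v ∈ S, ∀ T : Finset V, T ⊆ S → (∀ w ∈ T, G.Adj v w) → T.card ≤ k

lemma isKInd_iff {V : Type*} (G : SimpleGraph V) [DecidableRel G.Adj] (k : ℕ) (S : Finset V) :
    IsKInd G k S ↔ ∀ v ∈ S, (S.filter (G.Adj v)).card ≤ k := by
  constructor
  · intro h v hv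
    exact h v hv _ (filter_subset _ _) (fun w hw => (mem_filter.1 hw).2)
  · intro h v hv T hT hadj
    refine le_trans (card_le_card ?_) (h v hv)
    intro w hw
    exact mem_filter.2 ⟨hT hw, hadj w hw⟩

/-- `G` has a `k`-independent set with at least `q` vertices -/
def Has {V : Type*} (G : SimpleGraph V) (k q : ℕ) : Prop :=
  ∃ S : Finset V, IsKInd G k S ∧ q ≤ S.card

lemma IsKInd.mono {V : Type*} {G : SimpleGraph V} {k : ℕ} {S T : Finset V} (h : IsKInd G k S)
    (hT : T ⊆ S) : IsKInd G k T :=
  fun v hv U hU hadj => h v (hT hv) U (hU.trans hT) hadj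

/-- pulling back along an injective homomorphism -/
lemma IsKInd.preimage {V W : Type*} {G : SimpleGraph V} {G' : SimpleGraph W} {k : ℕ}
    {S : Finset W} (h : IsKInd G' k S) (f : V ↪ W) (hf : ∀ v w, G.Adj v w → G'.Adj (f v) (f w))
    (T : Finset V) (hT : ∀ v ∈ T, f v ∈ S) : IsKInd G k T := by
  intro v hv U hU hadj
  have := h (f v) (hT v hv) (U.map f) (by
    intro w hw
    obtain ⟨u, hu, rfl⟩ := mem_map.1 hw
    exact hT u (hU hu)) (by
    intro w hw
    obtain ⟨u, hu, rfl⟩ := mem_map.1 hw
    exact hf _ _ (hadj u hu))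
  rwa [card_map] at this

/-! ## Stage B: pendant vertices -/

section Leaves

variable {V : Type*} (G : SimpleGraph V) (t : ℕ)

/-- add `t` pendant vertices at every vertex -/
def leafy : SimpleGraph (V × Fin (t + 1)) where
  Adj a b := (a.2 = 0 ∧ b.2 = 0 ∧ G.Adj a.1 b.1) ∨ (a.1 = b.1 ∧ a.2 = 0 ∧ b.2 ≠ 0) ∨
    (a.1 = b.1 ∧ a.2 ≠ 0 ∧ b.2 = 0)
  symm := ⟨fun a b h => by
    rcases h with ⟨h1, h2, h3⟩ | ⟨h1, h2, h3⟩ | ⟨h1, h2, h3⟩
    · exact Or.inl ⟨h2, h1, h3.symm⟩
    · exact Or.inr (Or.inr ⟨h1.symm, h3, h2⟩)
    · exact Or.inr (Or.inl ⟨h1.symm, h3, h2⟩)⟩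
  loopless := ⟨fun a h => by
    rcases h with ⟨h1, h2, h3⟩ | ⟨h1, h2, h3⟩ | ⟨h1, h2, h3⟩
    · exact G.loopless.irrefl _ h3
    · exact h3 h2
    · exact h2 h3⟩

variable {G t}

lemma leafy_has [Fintype V] [DecidableEq V] {k q : ℕ} (h : Has G k q) :
    Has (leafy G t) (k + t) (t * Fintype.card V + q) := by
  classical
  obtain ⟨S, hS, hq⟩ := h
  set L : Finset (V × Fin (t + 1)) := univ.filter (fun a => a.2 ≠ 0) with hL
  set S0 : Finset (V × Fin (t + 1)) := S.image (fun v => (v, 0)) with hS0
  refine ⟨L ∪ S0, ?_, ?_⟩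
  · rw [isKInd_iff]
    rintro ⟨v, i⟩ hv
    by_cases hi : i = 0
    · subst hi
      have hvS : v ∈ S := by
        rcases mem_union.1 hv with h | h
        · simp [hL] at h
        · obtain ⟨w, hw, he⟩ := mem_image.1 h
          have e1 : w = v := (Prod.ext_iff.1 he).1
          rw [← e1]; exact hw
      have hsub : (L ∪ S0).filter ((leafy G t).Adj (v, 0)) ⊆
          (S.filter (G.Adj v)).image (fun w => (w, 0)) ∪
            (univ.filter (fun j : Fin (t + 1) => j ≠ 0)).image (fun j => (v, j)) := by
        rintro ⟨w, j⟩ hw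
        obtain ⟨hw1, hw2⟩ := mem_filter.1 hw
        rcases hw2 with ⟨-, h2, h3⟩ | ⟨h1, -, h3⟩ | ⟨-, h2, -⟩
        · simp only at h2 h3
          subst h2
          have hwS : w ∈ S := by
            rcases mem_union.1 hw1 with h | h
            · simp [hL] at h
            · obtain ⟨w', hw', he⟩ := mem_image.1 h
              have e1 : w' = w := (Prod.ext_iff.1 he).1
              rw [← e1]; exact hw'
          exact mem_union_left _ (mem_image.2 ⟨w, mem_filter.2 ⟨hwS, h3⟩, rfl⟩)
        · simp only at h1 h3
          subst h1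
          exact mem_union_right _ (mem_image.2 ⟨j, by simpa using h3, rfl⟩)
        · exact absurd rfl h2
      refine (card_le_card hsub).trans ((card_union_le _ _).trans (add_le_add ?_ ?_))
      · exact card_image_le.trans ((isKInd_iff G k S).1 hS v hvS)
      · refine card_image_le.trans ?_
        rw [filter_ne' univ (0 : Fin (t + 1)), card_erase_of_mem (mem_univ _)]
        simp
    · have hsub : (L ∪ S0).filter ((leafy G t).Adj (v, i)) ⊆ {(v, 0)} := by
        rintro ⟨w, j⟩ hw
        obtain ⟨hw1, hw2⟩ := mem_filter.1 hw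
        rcases hw2 with ⟨h1, -, -⟩ | ⟨-, h2, -⟩ | ⟨h1, -, h3⟩
        · exact absurd h1 hi
        · exact absurd h2 hi
        · simp only at h1 h3
          simp [h1, h3]
      have h1 := card_le_card hsub
      rw [card_singleton] at h1
      have ht : 1 ≤ t := by
        by_contra hcon
        have h0 : t = 0 := by omega
        apply hi
        apply Fin.ext
        have := i.2
        simp only [Fin.val_zero]
        omega
      omega
  · have hdisj : Disjoint L S0 := by
      rw [disjoint_left]
      rintro ⟨v, i⟩ h1 h2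
      obtain ⟨w, -, he⟩ := mem_image.1 h2
      have : i = 0 := (Prod.ext_iff.1 he).2.symm
      simp [hL, this] at h1
    rw [card_union_of_disjoint hdisj]
    have h1 : S0.card = S.card := card_image_of_injective _ (fun a b h => (Prod.ext_iff.1 h).1)
    have h2 : L.card = t * Fintype.card V := by
      have : L = (univ : Finset V) ×ˢ (univ.filter (fun j : Fin (t + 1) => j ≠ 0)) := by
        ext ⟨v, i⟩; simp [hL]
      rw [this, card_product, filter_ne' univ (0 : Fin (t + 1)), card_erase_of_mem (mem_univ _)]
      simp [mul_comm]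
    omega

lemma has_of_leafy [Fintype V] [DecidableEq V] {k q : ℕ}
    (h : Has (leafy G t) (k + t) (t * Fintype.card V + q)) : Has G k q := by
  classical
  obtain ⟨S, hS, hq⟩ := h
  -- the vertices all whose leaves and itself are in `S`
  set S0 : Finset V := univ.filter (fun v => ∀ i, (v, i) ∈ S) with hS0
  refine ⟨S0, ?_, ?_⟩
  · intro v hv T hT hadj
    have hvall : ∀ i, (v, i) ∈ S := by simpa [hS0] using hv
    have h1 := hS (v, 0) (hvall 0) (T.image (fun w => (w, 0)) ∪
      (univ.filter (fun j : Fin (t + 1) => j ≠ 0)).image (fun j => (v, j))) (by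
        rintro ⟨w, j⟩ hw
        rcases mem_union.1 hw with h | h
        · obtain ⟨w', hw', he⟩ := mem_image.1 h
          rw [← he]
          have := hT hw'
          have : ∀ i, (w', i) ∈ S := by simpa [hS0] using this
          exact this 0
        · obtain ⟨j', -, he⟩ := mem_image.1 h
          rw [← he]; exact hvall j') (by
        rintro ⟨w, j⟩ hw
        rcases mem_union.1 hw with h | h
        · obtain ⟨w', hw', he⟩ := mem_image.1 h
          rw [← he]
          exact Or.inl ⟨rfl, rfl, hadj w' hw'⟩
        · obtain ⟨j', hj', he⟩ := mem_image.1 h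
          rw [← he]
          exact Or.inr (Or.inl ⟨rfl, rfl, by simpa using hj'⟩))
    rw [card_union_of_disjoint, card_image_of_injective _ (fun a b h => (Prod.ext_iff.1 h).1),
      card_image_of_injective _ (fun a b h => (Prod.ext_iff.1 h).2),
      filter_ne' univ (0 : Fin (t + 1)), card_erase_of_mem (mem_univ _)] at h1
    · simp only [card_univ, Fintype.card_fin, Nat.add_sub_cancel] at h1
      omega
    · rw [disjoint_left]
      rintro ⟨w, j⟩ h2 h3
      obtain ⟨w', -, he⟩ := mem_image.1 h2
      obtain ⟨j', hj', he'⟩ := mem_image.1 h3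
      have e1 : (0 : Fin (t + 1)) = j := (Prod.ext_iff.1 he).2
      have e2 : j' = j := (Prod.ext_iff.1 he').2
      have : j' ≠ 0 := by simpa using hj'
      exact this (by rw [e2, ← e1])
  · -- counting
    have hcard : S.card = ∑ v : V, (univ.filter (fun i : Fin (t + 1) => (v, i) ∈ S)).card := by
      have : S = (univ : Finset V).biUnion
          (fun v => (univ.filter (fun i : Fin (t + 1) => (v, i) ∈ S)).image (fun i => (v, i))) := by
        ext ⟨v, i⟩; simp
      conv_lhs => rw [this]
      rw [card_biUnion]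
      · refine sum_congr rfl fun v _ => ?_
        exact card_image_of_injective _ (fun a b h => (Prod.ext_iff.1 h).2)
      · intro v _ w _ hvw
        rw [Function.onFun, disjoint_left]
        rintro ⟨a, i⟩ h1 h2
        obtain ⟨_, _, h1⟩ := mem_image.1 h1
        obtain ⟨_, _, h2⟩ := mem_image.1 h2
        exact hvw ((Prod.ext_iff.1 h1).1.trans (Prod.ext_iff.1 h2).1.symm)
    have hle : ∀ v : V, (univ.filter (fun i : Fin (t + 1) => (v, i) ∈ S)).card ≤
        t + (if v ∈ S0 then 1 else 0) := by
      intro v
      by_cases hv : v ∈ S0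
      · rw [if_pos hv]
        refine (card_le_univ _).trans ?_
        simp
      · rw [if_neg hv, add_zero]
        have : ∃ i, (v, i) ∉ S := by
          by_contra hcon
          push Not at hcon
          exact hv (by simpa [hS0] using hcon)
        obtain ⟨i, hi⟩ := this
        have hsub : univ.filter (fun i : Fin (t + 1) => (v, i) ∈ S) ⊆ univ.erase i := by
          intro j hj
          rw [mem_erase]
          refine ⟨?_, mem_univ _⟩
          rintro rfl
          exact hi (mem_filter.1 hj).2
        have := card_le_card hsub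
        rw [card_erase_of_mem (mem_univ _)] at this
        simpa using this
    have h3 : S.card ≤ t * Fintype.card V + S0.card := by
      rw [hcard]
      refine (sum_le_sum fun v _ => hle v).trans ?_
      rw [sum_add_distrib, sum_const, card_univ, smul_eq_mul, ← card_filter, mul_comm]
      simp
    omega

end Leaves

end Pool.Agent.Helper83.KI
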