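import Pool.Agent.Helper83.KI9

/-!
# NP-hardness
-/

open Finset

namespace Pool.Agent.Helper83.KI

open Pool.Agent.Helper81.CC Pool.Agent.Helper83.KDef

/-! ### Binary digits of unary numbers -/

/-- one step of the computation of the digits -/
def bitStep (s : ℕ × List Bool) : ℕ × List Bool :=
  if s.1 = 0 then s else (s.1 / 2, s.2 ++ [decide (s.1 % 2 = 1)])

theorem bits_step {m : ℕ} (hm : m ≠ 0) : Nat.bits m = decide (m % 2 = 1) :: Nat.bits (m / 2) := by
  have h : m = Nat.bit (decide (m % 2 = 1)) (m / 2) := by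
    rw [Nat.bit_val]
    rcases Nat.mod_two_eq_zero_or_one m with h | h <;> simp [h] <;> omega
  conv_lhs => rw [h]
  rw [Nat.bits_append_bit]
  intro h0
  rcases Nat.mod_two_eq_zero_or_one m with h | h
  · omega
  · simp [h]

theorem bitStep_iter (n : ℕ) : ∀ k, ((bitStep^[k] (n, [])).2 ++ Nat.bits (bitStep^[k] (n, [])).1 =
    Nat.bits n) ∧ (bitStep^[k] (n, [])).1 ≤ n - k ∧ (bitStep^[k] (n, [])).2.length ≤ k := by
  intro k
  induction k with
  | zero => simp
  | succ k ih =>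
    rw [Function.iterate_succ_apply']
    generalize bitStep^[k] (n, []) = s at ih
    obtain ⟨m, l⟩ := s
    simp only at ih
    by_cases hm : m = 0
    · simp only [bitStep, hm, if_true]
      rw [hm] at ih
      exact ⟨ih.1, by omega, by omega⟩
    · simp only [bitStep, hm, if_false]
      refine ⟨?_, ?_, ?_⟩
      · rw [← ih.1, bits_step hm]
        simp
      · omega
      · simp only [List.length_append, List.length_cons, List.length_nil]
        omega

theorem sz_listBool_le : ∀ l : List Bool, sz l ≤ 4 * l.length + 1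
  | [] => by simp
  | b :: l => by
    have := sz_listBool_le l
    have := sz_bool b
    simp only [sz_cons, List.length_cons]
    omega

theorem polyTime_bits : PolyTime Nat.bits := by
  have h := PolyTime.iterate_bd (α := ℕ) (n := fun n => n) (s0 := fun n => (n, ([] : List Bool)))
    (step := fun _ s => bitStep s) (by fun_prop) (by fun_prop) (by unfold bitStep; fun_prop)
    (B := fun n => 6 * sz n + 6) (PBd.add (PBd.mul (PBd.const 6) PBd.sz) (PBd.const 6)) (by
      intro n k hk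
      have h1 := bitStep_iter n k
      have h2 := sz_listBool_le (bitStep^[k] (n, [])).2
      rw [show bitStep^[k] (n, []) = ((bitStep^[k] (n, [])).1, (bitStep^[k] (n, [])).2) from rfl,
        sz_pair, sz_nat, sz_nat]
      omega)
  refine PolyTime.congr (PolyTime.snd h) fun n => ?_
  have h1 := bitStep_iter n n
  have h2 : (bitStep^[n] (n, [])).1 = 0 := by omega
  rw [h2] at h1
  simpa using h1.1

theorem PT_bits {α : Type} [ToData α] {f : α → ℕ} (hf : PolyTime f) :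
    PolyTime (fun a => Nat.bits (f a)) := PolyTime.comp polyTime_bits hf

/-! ### Conversions between the two forms of the definitions -/

theorem isReg_iff {n : ℕ} {G : SimpleGraph (Fin n)} {r : ℕ} : IsReg G r ↔ Reg G r := by
  classical
  constructor
  · intro h v
    refine ⟨univ.filter (G.Adj v), ?_, by simp⟩
    have h1 := h v
    have h2 : G.neighborSet v = ((univ.filter (G.Adj v) : Finset (Fin n)) : Set (Fin n)) := by
      ext w; simp
    rw [h2, Set.encard_coe_eq_coe_finsetCard] at h1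
    exact_mod_cast h1
  · intro h v
    obtain ⟨N, hN, hN'⟩ := h v
    have h2 : G.neighborSet v = (N : Set (Fin n)) := by
      ext w; simp [hN']
    rw [h2, Set.encard_coe_eq_coe_finsetCard, hN]

theorem kind_iff {n : ℕ} {G : SimpleGraph (Fin n)} {k : ℕ} {S : Finset (Fin n)} :
    (∀ v ∈ S, {w | w ∈ S ∧ G.Adj v w}.encard ≤ k) ↔ IsKInd G k S := by
  classical
  rw [isKInd_iff]
  refine forall₂_congr fun v _ => ?_
  have h2 : {w | w ∈ S ∧ G.Adj v w} = ((S.filter (G.Adj v) : Finset (Fin n)) : Set (Fin n)) := by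
    ext w; simp
  rw [h2, Set.encard_coe_eq_coe_finsetCard]
  exact_mod_cast Iff.rfl

theorem has_iff {n : ℕ} {G : SimpleGraph (Fin n)} {k r p : ℕ} (hG : IsReg G r) :
    (∃ S, IsRegKIndep G k S ∧ p ≤ S.card) ↔ Has G k p := by
  constructor
  · rintro ⟨S, h, hp⟩
    exact ⟨S, kind_iff.1 h.1, hp⟩
  · rintro ⟨S, h, hp⟩
    exact ⟨S, ⟨kind_iff.2 h, fun v _ w _ => by rw [hG v, hG w]⟩, hp⟩

/-! ### Transport along the numbering of the vertices -/

theorem Repr.exists_graph {V τ : Type} {G : SimpleGraph V} {L : List τ} {adj : τ → τ → Bool}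
    {ι : V → τ} (h : Repr G L adj ι) : ∃ G' : SimpleGraph (Fin L.length),
      adjMatrix G' = L.map (fun a => L.map (fun b => adj a b)) ∧
      (∀ r, Reg G r → Reg G' r) ∧ (∀ k q, Has G' k q ↔ Has G k q) := by
  classical
  obtain ⟨e, he⟩ := h.exists_equiv
  refine ⟨G.comap e, ?_, ?_, ?_⟩
  · have h1 : ∀ i j : Fin L.length, decide ((G.comap e).Adj i j) = adj (L.get i) (L.get j) := by
      intro i j
      rw [Bool.eq_iff_iff, decide_eq_true_eq, SimpleGraph.comap_adj, ← h.adj, he, he]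
    rw [adjMatrix]
    have h2 : ∀ f : τ → List Bool, L.map f = (List.finRange L.length).map (fun i => f (L.get i)) := by
      intro f
      conv_lhs => rw [← List.map_get_finRange L]
      rw [List.map_map]
      rfl
    have h3 : ∀ f : τ → Bool, L.map f = (List.finRange L.length).map (fun i => f (L.get i)) := by
      intro f
      conv_lhs => rw [← List.map_get_finRange L]
      rw [List.map_map]
      rfl
    rw [h2]
    refine List.map_congr_left fun i _ => ?_
    rw [h3]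
    refine List.map_congr_left fun j _ => ?_
    rw [← h1]
    congr
  · intro r hr v
    obtain ⟨N, hN, hN'⟩ := hr (e v)
    refine ⟨N.map e.symm.toEmbedding, by rw [card_map, hN], ?_⟩
    intro w
    rw [mem_map_equiv, Equiv.symm_symm, hN', SimpleGraph.comap_adj]
  · intro k q
    constructor
    · rintro ⟨S, hS, hq⟩
      refine ⟨S.map e.toEmbedding, ?_, by rwa [card_map]⟩
      refine hS.preimage e.symm.toEmbedding ?_ _ ?_
      · intro v w hvw
        simpa using hvw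
      · intro v hv
        rw [mem_map_equiv] at hv
        exact hv
    · rintro ⟨S, hS, hq⟩
      refine ⟨S.map e.symm.toEmbedding, ?_, by rwa [card_map]⟩
      refine hS.preimage e.toEmbedding ?_ _ ?_
      · intro v w hvw
        simpa using hvw
      · intro v hv
        rw [mem_map_equiv, Equiv.symm_symm] at hv
        exact hv

/-! ### The reduction -/

/-- number of literal occurrences -/
abbrev nH (φ : CNF) : ℕ := (occ φ).length

/-- adjacency of the conflict graph -/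
def hH (φ : CNF) (i j : ℕ) : Bool :=
  decide (i ≠ j) && confl ((occ φ).getD i (0, (false, 0))) ((occ φ).getD j (0, (false, 0)))

theorem hH_iff (φ : CNF) (u v : Fin (nH φ)) : hH φ u v = true ↔ (cgraph φ).Adj u v := by
  have hu : u.val < (occ φ).length := u.2
  have hv : v.val < (occ φ).length := v.2
  rw [hH, List.getD_eq_getElem _ _ hu, List.getD_eq_getElem _ _ hv]
  simp only [Bool.and_eq_true, decide_eq_true_eq, cgraph, ne_eq, Fin.ext_iff, List.get_eq_getElem]

theorem PT_occ : PolyTime occ := by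
  unfold occ
  fun_prop

theorem PT_confl {α : Type} [ToData α] {f g : α → ℕ × Lit} (hf : PolyTime f) (hg : PolyTime g) :
    PolyTime (fun a => confl (f a) (g a)) := by
  unfold confl
  fun_prop

theorem PT_nH : PolyTime nH := PolyTime.length PT_occ

theorem PT_hH : PolyTime (fun z : CNF × ℕ × ℕ => hH z.1 z.2.1 z.2.2) := by
  unfold hH
  have h1 : PolyTime (fun z : CNF × ℕ × ℕ => occ z.1) := PolyTime.comp PT_occ (by fun_prop)
  exact PolyTime.and (by fun_prop) (PT_confl (PolyTime.getD h1 (by fun_prop) (by fun_prop))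
    (PolyTime.getD h1 (by fun_prop) (by fun_prop)))

section caseA

/-- vertices before regularisation -/
def LA (k : ℕ) (φ : CNF) : List ((ℕ × ℕ × Fin 3) × Fin (k - 1 + 1)) :=
  leafyL (k - 1) (baseL 3 (nH φ))

/-- adjacency before regularisation -/
def adjA (k : ℕ) (φ : CNF) (a b : (ℕ × ℕ × Fin 3) × Fin (k - 1 + 1)) : Bool :=
  leafyAdj (k - 1) (base1Adj (nH φ) (hH φ)) a b

/-- deficiency -/
def sA (k r : ℕ) (φ : CNF) (a : (ℕ × ℕ × Fin 3) × Fin (k - 1 + 1)) : ℕ :=
  r - (LA k φ).countP (fun b => adjA k φ a b)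

theorem PT_LA (k : ℕ) : PolyTime (LA k) := by
  unfold LA leafyL baseL
  have h1 := PT_occ
  fun_prop

theorem PT_adjA (k : ℕ) : PolyTime (fun z : CNF × ((ℕ × ℕ × Fin 3) × Fin (k - 1 + 1)) ×
    ((ℕ × ℕ × Fin 3) × Fin (k - 1 + 1)) => adjA k z.1 z.2.1 z.2.2) := by
  have h := PT_leafyAdj (adj := fun φ => base1Adj (nH φ) (hH φ)) (PT_base1Adj PT_nH PT_hH) (k - 1)
  exact h

theorem PT_sA (k r : ℕ) : PolyTime (fun z : CNF × ((ℕ × ℕ × Fin 3) × Fin (k - 1 + 1)) =>
    sA k r z.1 z.2) := by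
  unfold sA
  refine PolyTime.sub (PolyTime.const r) (PolyTime.countP
    (p := fun (z : CNF × ((ℕ × ℕ × Fin 3) × Fin (k - 1 + 1))) b => adjA k z.1 z.2 b) ?_
    (PolyTime.comp (PT_LA k) (f := fun z : CNF × ((ℕ × ℕ × Fin 3) × Fin (k - 1 + 1)) => z.1)
      (by fun_prop)))
  exact PolyTime.comp (PT_adjA k) (f := fun z : (CNF × ((ℕ × ℕ × Fin 3) × Fin (k - 1 + 1))) ×
    ((ℕ × ℕ × Fin 3) × Fin (k - 1 + 1)) => (z.1.1, z.1.2, z.2)) (by fun_prop)

theorem existsA {k r : ℕ} (hk : 1 ≤ k) (hr : k + 2 ≤ r) :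
    ∃ M : CNF → List (List Bool) × List Bool, PolyTime M ∧ ∀ φ : CNF, φ ≠ [] →
      ∃ x : GraphNum, (adjMatrix x.G, Nat.bits x.p) = M φ ∧ IsReg x.G r ∧ 1 ≤ x.p ∧
        (CNF.Satisfiable φ ↔ Has x.G k x.p) := by
  classical
  set CL : List (Bool ⊕ Fin r × Fin (r + 1)) := (univ : Finset _).toList with hCL
  set x0 : Fin (r + 1) := ⟨0, by omega⟩ with hx0
  set y0 : Fin (r + 1) := ⟨1, by omega⟩ with hy0
  set QA : Fin (r + 1) → Fin (r + 1) → Bool := fun a b => decide (a ≠ b) with hQA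
  set thr : CNF → ℕ := fun φ =>
    (2 * ((k - 1) * (3 * (nH φ * (nH φ + 1))) + (2 * (nH φ * (nH φ + 1)) + φ.length)) +
        (k + 1) * r * (3 * (nH φ * (nH φ + 1)) * k)) with hthr
  refine ⟨fun φ => ((regzL CL (LA k φ)).map (fun a => (regzL CL (LA k φ)).map (fun b =>
    regzAdj QA x0 y0 (sA k r φ) (adjA k φ) a b)), Nat.bits (thr φ)), ?_, ?_⟩
  · have h1 : PolyTime (fun φ => regzL CL (LA k φ)) := PolyTime.product (PT_LA k) (PolyTime.const CL)
    have h2 := PT_regzAdj (r := r) QA x0 y0 (PT_sA k r) (PT_adjA k)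
    refine PolyTime.pair ?_ (PT_bits ?_)
    · refine PolyTime.list_map (f := fun φ a => (regzL CL (LA k φ)).map (fun b =>
        regzAdj QA x0 y0 (sA k r φ) (adjA k φ) a b)) h1 ?_
      refine PolyTime.list_map (f := fun (z : CNF × _) b =>
        regzAdj QA x0 y0 (sA k r z.1) (adjA k z.1) z.2 b) (PolyTime.comp h1
          (f := fun z : CNF × (((ℕ × ℕ × Fin 3) × Fin (k - 1 + 1)) ×
            (Bool ⊕ Fin r × Fin (r + 1))) => z.1) (by fun_prop)) ?_
      exact PolyTime.comp h2 (f := fun z : (CNF × (((ℕ × ℕ × Fin 3) × Fin (k - 1 + 1)) ×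
        (Bool ⊕ Fin r × Fin (r + 1)))) × (((ℕ × ℕ × Fin 3) × Fin (k - 1 + 1)) ×
        (Bool ⊕ Fin r × Fin (r + 1))) => (z.1.1, z.1.2, z.2)) (by fun_prop)
    · have := PT_occ
      fun_prop
  · intro φ hφ
    have hrep : Repr (leafy (base1 (cgraph φ)) (k - 1)) (LA k φ) (adjA k φ)
        (fun v => (baseι 3 (nH φ) v.1, v.2)) :=
      (Repr.base1 (hB := hH φ) (fun u v => hH_iff φ u v)).leafy (k - 1)
    have hs : ∀ v, ∀ N : Finset ((Fin (nH φ) × Fin (nH φ + 1) × Fin 3) × Fin (k - 1 + 1)),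
        (∀ w, w ∈ N ↔ (leafy (base1 (cgraph φ)) (k - 1)).Adj v w) →
        sA k r φ (baseι 3 (nH φ) v.1, v.2) = r - N.card := by
      intro v N hN
      rw [hrep.card_eq v N hN]
      rfl
    obtain ⟨hreg, hhas⟩ := caseA hk hr (cgraph φ) (fun v => sA k r φ (baseι 3 (nH φ) v.1, v.2)) hs
    have hfin := hrep.regz (Q := (⊤ : SimpleGraph (Fin (r + 1)))) (QA := QA) (by simp [hQA])
      x0 y0 (sA k r φ) (CL := CL) (by rw [hCL]; exact nodup_toList _) (by simp [hCL])
    obtain ⟨G', hG1, hG2, hG3⟩ := hfin.exists_graph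
    refine ⟨⟨_, G', thr φ⟩, ?_, isReg_iff.2 (hG2 _ hreg), ?_, ?_⟩
    · rw [hG1]
    · have : 1 ≤ φ.length := List.length_pos_iff.2 hφ
      simp only [hthr]
      omega
    · rw [hG3, ← cgraph_has, ← hhas]

end caseA

section caseB

/-- vertices before regularisation -/
def LB (k : ℕ) (φ : CNF) : List ((ℕ × ℕ × Fin 7) × Fin (k - 2 + 1)) :=
  leafyL (k - 2) (baseL 7 (nH φ))

/-- adjacency before regularisation -/
def adjB (k : ℕ) (φ : CNF) (a b : (ℕ × ℕ × Fin 7) × Fin (k - 2 + 1)) : Bool :=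
  leafyAdj (k - 2) (base2Adj (nH φ) (hH φ)) a b

/-- deficiency -/
def sB (k r : ℕ) (φ : CNF) (a : (ℕ × ℕ × Fin 7) × Fin (k - 2 + 1)) : ℕ :=
  r - (LB k φ).countP (fun b => adjB k φ a b)

theorem PT_LB (k : ℕ) : PolyTime (LB k) := by
  unfold LB leafyL baseL
  have h1 := PT_occ
  fun_prop

theorem PT_adjB (k : ℕ) : PolyTime (fun z : CNF × ((ℕ × ℕ × Fin 7) × Fin (k - 2 + 1)) ×
    ((ℕ × ℕ × Fin 7) × Fin (k - 2 + 1)) => adjB k z.1 z.2.1 z.2.2) := by
  have h := PT_leafyAdj (adj := fun φ => base2Adj (nH φ) (hH φ)) (PT_base2Adj PT_nH PT_hH) (k - 2)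
  exact h

theorem PT_sB (k r : ℕ) : PolyTime (fun z : CNF × ((ℕ × ℕ × Fin 7) × Fin (k - 2 + 1)) =>
    sB k r z.1 z.2) := by
  unfold sB
  refine PolyTime.sub (PolyTime.const r) (PolyTime.countP
    (p := fun (z : CNF × ((ℕ × ℕ × Fin 7) × Fin (k - 2 + 1))) b => adjB k z.1 z.2 b) ?_
    (PolyTime.comp (PT_LB k) (f := fun z : CNF × ((ℕ × ℕ × Fin 7) × Fin (k - 2 + 1)) => z.1)
      (by fun_prop)))
  exact PolyTime.comp (PT_adjB k) (f := fun z : (CNF × ((ℕ × ℕ × Fin 7) × Fin (k - 2 + 1))) ×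
    ((ℕ × ℕ × Fin 7) × Fin (k - 2 + 1)) => (z.1.1, z.1.2, z.2)) (by fun_prop)

theorem existsB {k : ℕ} (hk : 2 ≤ k) :
    ∃ M : CNF → List (List Bool) × List Bool, PolyTime M ∧ ∀ φ : CNF, φ ≠ [] →
      ∃ x : GraphNum, (adjMatrix x.G, Nat.bits x.p) = M φ ∧ IsReg x.G (k + 1) ∧ 1 ≤ x.p ∧
        (CNF.Satisfiable φ ↔ Has x.G k x.p) := by
  classical
  set CL : List (Bool ⊕ Fin (k + 1) × (Bool × Fin (k + 1))) := (univ : Finset _).toList with hCL
  set x0 : Bool × Fin (k + 1) := (false, ⟨0, by omega⟩) with hx0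
  set y0 : Bool × Fin (k + 1) := (true, ⟨0, by omega⟩) with hy0
  set QA : Bool × Fin (k + 1) → Bool × Fin (k + 1) → Bool := fun a b => decide (a.1 ≠ b.1) with hQA
  set thr : CNF → ℕ := fun φ =>
    (2 * ((k - 2) * (7 * (nH φ * (nH φ + 1))) + (6 * (nH φ * (nH φ + 1)) + φ.length)) +
        2 * k * (k + 1) * (7 * (nH φ * (nH φ + 1)) * (k - 1))) with hthr
  refine ⟨fun φ => ((regzL CL (LB k φ)).map (fun a => (regzL CL (LB k φ)).map (fun b =>
    regzAdj QA x0 y0 (sB k (k + 1) φ) (adjB k φ) a b)), Nat.bits (thr φ)), ?_, ?_⟩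
  · have h1 : PolyTime (fun φ => regzL CL (LB k φ)) := PolyTime.product (PT_LB k) (PolyTime.const CL)
    have h2 := PT_regzAdj (r := k + 1) QA x0 y0 (PT_sB k (k + 1)) (PT_adjB k)
    refine PolyTime.pair ?_ (PT_bits ?_)
    · refine PolyTime.list_map (f := fun φ a => (regzL CL (LB k φ)).map (fun b =>
        regzAdj QA x0 y0 (sB k (k + 1) φ) (adjB k φ) a b)) h1 ?_
      refine PolyTime.list_map (f := fun (z : CNF × _) b =>
        regzAdj QA x0 y0 (sB k (k + 1) z.1) (adjB k z.1) z.2 b) (PolyTime.comp h1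
          (f := fun z : CNF × (((ℕ × ℕ × Fin 7) × Fin (k - 2 + 1)) ×
            (Bool ⊕ Fin (k + 1) × (Bool × Fin (k + 1)))) => z.1) (by fun_prop)) ?_
      exact PolyTime.comp h2 (f := fun z : (CNF × (((ℕ × ℕ × Fin 7) × Fin (k - 2 + 1)) ×
        (Bool ⊕ Fin (k + 1) × (Bool × Fin (k + 1))))) × (((ℕ × ℕ × Fin 7) × Fin (k - 2 + 1)) ×
        (Bool ⊕ Fin (k + 1) × (Bool × Fin (k + 1)))) => (z.1.1, z.1.2, z.2)) (by fun_prop)
    · have := PT_occ
      fun_prop
  · intro φ hφ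
    have hrep : Repr (leafy (base2 (cgraph φ)) (k - 2)) (LB k φ) (adjB k φ)
        (fun v => (baseι 7 (nH φ) v.1, v.2)) :=
      (Repr.base2 (hB := hH φ) (fun u v => hH_iff φ u v)).leafy (k - 2)
    have hs : ∀ v, ∀ N : Finset ((Fin (nH φ) × Fin (nH φ + 1) × Fin 7) × Fin (k - 2 + 1)),
        (∀ w, w ∈ N ↔ (leafy (base2 (cgraph φ)) (k - 2)).Adj v w) →
        sB k (k + 1) φ (baseι 7 (nH φ) v.1, v.2) = k + 1 - N.card := by
      intro v N hN
      rw [hrep.card_eq v N hN]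
      rfl
    obtain ⟨hreg, hhas⟩ := caseB hk (cgraph φ)
      (fun v => sB k (k + 1) φ (baseι 7 (nH φ) v.1, v.2)) hs
    have hfin := hrep.regz (Q := bip (k + 1)) (QA := QA) (by simp [hQA, bip])
      x0 y0 (sB k (k + 1) φ) (CL := CL) (by rw [hCL]; exact nodup_toList _) (by simp [hCL])
    obtain ⟨G', hG1, hG2, hG3⟩ := hfin.exists_graph
    refine ⟨⟨_, G', thr φ⟩, ?_, isReg_iff.2 (hG2 _ hreg), ?_, ?_⟩
    · rw [hG1]
    · have : 1 ≤ φ.length := List.length_pos_iff.2 hφ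
      simp only [hthr]
      omega
    · rw [hG3, ← cgraph_has, ← hhas]

end caseB

theorem exists_reduction {k r : ℕ} (hk : 1 ≤ k) (hr : max 3 (k + 1) ≤ r) :
    ∃ M : CNF → List (List Bool) × List Bool, PolyTime M ∧ ∀ φ : CNF, φ ≠ [] →
      ∃ x : GraphNum, (adjMatrix x.G, Nat.bits x.p) = M φ ∧ IsReg x.G r ∧ 1 ≤ x.p ∧
        (CNF.Satisfiable φ ↔ Has x.G k x.p) := by
  rcases Nat.lt_or_ge r (k + 2) with h | h
  · have h1 : r = k + 1 := by
      have := le_max_right 3 (k + 1)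
      omega
    have h2 : 2 ≤ k := by
      have := le_max_left 3 (k + 1)
      omega
    subst h1
    exact existsB h2
  · exact existsA hk h

/-- a tautological clause is added -/
def addTaut (φ : CNF) : CNF := [(true, 0), (false, 0)] :: φ

theorem addTaut_sat (φ : CNF) : CNF.Satisfiable (addTaut φ) ↔ CNF.Satisfiable φ := by
  constructor
  · rintro ⟨a, ha⟩
    exact ⟨a, fun c hc => ha c (List.mem_cons_of_mem _ hc)⟩
  · rintro ⟨a, ha⟩
    refine ⟨a, fun c hc => ?_⟩
    rcases List.mem_cons.1 hc with rfl | hc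
    · cases h : a 0 with
      | true => exact ⟨(true, 0), by simp, h⟩
      | false => exact ⟨(false, 0), by simp, h⟩
    · exact ha c hc

theorem exists_map {k r : ℕ} (hk : 1 ≤ k) (hr : max 3 (k + 1) ≤ r) :
    ∃ f : CNF → {x : GraphNum // IsReg x.G r ∧ 1 ≤ x.p},
      SComp (encOf CNF) (fun x : {x : GraphNum // IsReg x.G r ∧ 1 ≤ x.p} => x.1.enc) f ∧
      ∀ φ, CNF.Satisfiable φ ↔ ∃ S, IsRegKIndep (f φ).1.G k S ∧ (f φ).1.p ≤ S.card := by
  obtain ⟨M, hM, h⟩ := exists_reduction hk hr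
  have h' : ∀ φ : CNF, ∃ x : GraphNum, (adjMatrix x.G, Nat.bits x.p) = M (addTaut φ) ∧
      IsReg x.G r ∧ 1 ≤ x.p ∧ (CNF.Satisfiable φ ↔ Has x.G k x.p) := by
    intro φ
    obtain ⟨x, h1, h2, h3, h4⟩ := h (addTaut φ) (by simp [addTaut])
    exact ⟨x, h1, h2, h3, by rw [← h4, addTaut_sat]⟩
  choose f hf1 hf2 hf3 hf4 using h'
  refine ⟨fun φ => ⟨f φ, hf2 φ, hf3 φ⟩, ?_, ?_⟩
  · have h1 : PolyTime (fun φ : CNF => M (addTaut φ)) := by
      refine PolyTime.comp hM ?_
      unfold addTaut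
      fun_prop
    refine SComp.cast h1.scomp fun φ => ⟨φ, rfl, ?_⟩
    show encOf _ (M (addTaut φ)) = (f φ).enc
    rw [GraphNum.enc, hf1]
  · intro φ
    rw [hf4, has_iff (hf2 φ)]

theorem regKMIS_hardS {k r : ℕ} (hk : 1 ≤ k) (hr : max 3 (k + 1) ≤ r) : (regKMIS k r).HardS := by
  obtain ⟨f, hf, h⟩ := exists_map hk hr
  exact Pool.Agent.Helper83.CL.SAT_hardS.trans ⟨f, hf, h⟩

theorem regKMISAll_hardS {k r : ℕ} (hk : 1 ≤ k) (hr : max 3 (k + 1) ≤ r) :
    (regKMISAll k r).HardS := by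
  obtain ⟨f, hf, h⟩ := exists_map hk hr
  refine Pool.Agent.Helper83.CL.SAT_hardS.trans ⟨fun φ => ⟨(f φ).1, (f φ).2.2⟩, ?_, ?_⟩
  · exact SComp.cast hf fun φ => ⟨φ, rfl, rfl⟩
  · intro φ
    refine (h φ).trans ?_
    exact ⟨fun h1 => ⟨(f φ).2.1, h1⟩, fun h1 => h1.2⟩

end Pool.Agent.Helper83.KI
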