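import Pool.Agent.Helper83.KI10

/-!
# Membership in NP
-/

open Finset

namespace Pool.Agent.Helper83.KI

open Pool.Agent.Helper81.CC Pool.Agent.Helper83.KDef

/-- the entry of a matrix -/
def ent (M : List (List Bool)) (i j : ℕ) : Bool := (M.getD i []).getD j false

/-- the verifier: `c` is the characteristic vector of the set -/
def ver (k : ℕ) (z : (List (List Bool) × List Bool) × List Bool) : Bool :=
  decide (∀ i ∈ List.range z.1.1.length, z.2.getD i false = true →
    (List.range z.1.1.length).countP (fun j => z.2.getD j false && ent z.1.1 i j) ≤ k) &&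
  decide (z.1.2 ∈ (List.range ((List.range z.1.1.length).countP
    (fun j => z.2.getD j false) + 1)).map Nat.bits)

/-- the test of regularity -/
def verReg (r : ℕ) (M : List (List Bool)) : Bool :=
  decide (∀ i ∈ List.range M.length, (List.range M.length).countP (fun j => ent M i j) = r)

theorem PT_ent {α : Type} [ToData α] {M : α → List (List Bool)} {i j : α → ℕ} (hM : PolyTime M)
    (hi : PolyTime i) (hj : PolyTime j) : PolyTime (fun a => ent (M a) (i a) (j a)) := by
  unfold ent
  fun_prop

theorem PT_ver (k : ℕ) : PolyTime (ver k) := by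
  unfold ver ent
  have h1 : PolyTime (fun z : ((List (List Bool) × List Bool) × List Bool) × ℕ => Nat.bits z.2) :=
    PT_bits (by fun_prop)
  have h2 := polyTime_bits
  fun_prop

theorem PT_verReg (r : ℕ) : PolyTime (verReg r) := by
  unfold verReg ent
  fun_prop

theorem length_adjMatrix {n : ℕ} (G : SimpleGraph (Fin n)) : (adjMatrix G).length = n := by
  simp [adjMatrix]

theorem ent_adjMatrix {n : ℕ} (G : SimpleGraph (Fin n)) (i j : Fin n) :
    ent (adjMatrix G) i j = true ↔ G.Adj i j := by
  classical
  have hi : (i : ℕ) < (adjMatrix G).length := by rw [length_adjMatrix]; exact i.2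
  rw [ent, List.getD_eq_getElem _ _ hi]
  simp [adjMatrix]

theorem countP_range {n : ℕ} (p : ℕ → Bool) :
    (List.range n).countP p = (univ.filter (fun i : Fin n => p i = true)).card := by
  rw [List.countP_eq_length_filter, ← List.map_coe_finRange_eq_range, List.filter_map,
    List.length_map]
  have : ((List.finRange n).filter (p ∘ (fun i : Fin n => (i : ℕ)))).length =
      ((List.finRange n).filter (p ∘ (fun i : Fin n => (i : ℕ)))).toFinset.card := by
    rw [List.toFinset_card_of_nodup ((List.nodup_finRange n).filter _)]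
  rw [this]
  congr 1
  ext i
  simp

theorem verReg_iff {n : ℕ} (G : SimpleGraph (Fin n)) (r : ℕ) :
    verReg r (adjMatrix G) = true ↔ IsReg G r := by
  classical
  rw [verReg, decide_eq_true_eq, length_adjMatrix]
  have key : ∀ v : Fin n, (List.range n).countP (fun j => ent (adjMatrix G) v j) = r ↔
      (G.neighborSet v).encard = r := by
    intro v
    rw [countP_range]
    have h2 : G.neighborSet v = ((univ.filter (fun j : Fin n => ent (adjMatrix G) v j = true) :
        Finset (Fin n)) : Set (Fin n)) := by
      ext w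
      rw [mem_coe, mem_filter, ent_adjMatrix]
      simp
    rw [h2, Set.encard_coe_eq_coe_finsetCard]
    exact_mod_cast Iff.rfl
  constructor
  · intro h v
    exact (key v).1 (h v (List.mem_range.2 v.2))
  · intro h i hi
    exact (key ⟨i, List.mem_range.1 hi⟩).2 (h ⟨i, List.mem_range.1 hi⟩)

theorem ver_iff {n : ℕ} (G : SimpleGraph (Fin n)) (k p : ℕ) (c : List Bool) :
    ver k ((adjMatrix G, Nat.bits p), c) = true ↔
      IsKInd G k (univ.filter (fun i : Fin n => c.getD i false = true)) ∧
      p ≤ (univ.filter (fun i : Fin n => c.getD i false = true)).card := by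
  classical
  rw [ver, Bool.and_eq_true, decide_eq_true_eq, decide_eq_true_eq]
  simp only [length_adjMatrix]
  refine and_congr ?_ ?_
  · rw [isKInd_iff]
    constructor
    · intro h v hv
      have h1 := h v (List.mem_range.2 v.2) (mem_filter.1 hv).2
      rw [countP_range] at h1
      refine le_trans (card_le_card ?_) h1
      intro w hw
      rw [mem_filter, mem_filter] at hw
      rw [mem_filter, Bool.and_eq_true, ent_adjMatrix]
      exact ⟨mem_univ _, hw.1.2, hw.2⟩
    · intro h i hi hc
      have hi' := List.mem_range.1 hi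
      have h1 := h ⟨i, hi'⟩ (mem_filter.2 ⟨mem_univ _, hc⟩)
      rw [countP_range]
      refine le_trans (card_le_card ?_) h1
      intro w hw
      rw [mem_filter, Bool.and_eq_true] at hw
      rw [mem_filter, mem_filter]
      exact ⟨⟨mem_univ _, hw.2.1⟩, (ent_adjMatrix G ⟨i, hi'⟩ w).1 hw.2.2⟩
  · rw [countP_range, List.mem_map]
    constructor
    · rintro ⟨m, hm, hm'⟩
      have h1 : m = p := by
        have := congrArg (fun l : List Bool => l.foldr (fun b m => Nat.bit b m) 0) hm'
        have key : ∀ q : ℕ, (Nat.bits q).foldr (fun b m => Nat.bit b m) 0 = q := by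
          intro q
          induction q using Nat.binaryRec' with
          | zero => simp
          | bit b q hb ih => rw [Nat.bits_append_bit q b hb, List.foldr_cons, ih]
        simpa only [key] using this
      have h2 := List.mem_range.1 hm
      omega
    · intro hp
      exact ⟨p, List.mem_range.2 (by omega), rfl⟩

theorem exists_mask {n : ℕ} (S : Finset (Fin n)) : ∃ c : List Bool, c.length = n ∧
    (univ.filter (fun i : Fin n => c.getD i false = true)) = S := by
  classical
  refine ⟨(List.finRange n).map (fun i => decide (i ∈ S)), by simp, ?_⟩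
  ext i
  rw [mem_filter, List.getD_eq_getElem _ _ (by simp)]
  simp

/-! ### The two problems as problems on types coded by trees -/

/-- coding of graphs -/
noncomputable local instance : ToData GraphNum where
  toData x := toData (adjMatrix x.G, Nat.bits x.p)
  inj _ _ h := adjMatrix_inj (ToData.inj h)

theorem regKMIS_eq (k r : ℕ) : regKMIS k r = Problem.of {x : GraphNum // IsReg x.G r ∧ 1 ≤ x.p}
    (fun x => ∃ S, IsRegKIndep x.1.G k S ∧ x.1.p ≤ S.card) := rfl

theorem regKMISAll_eq (k r : ℕ) : regKMISAll k r = Problem.of {x : GraphNum // 1 ≤ x.p}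
    (fun x => IsReg x.1.G r ∧ ∃ S, IsRegKIndep x.1.G k S ∧ x.1.p ≤ S.card) := rfl

theorem sz_graph_ge {P : GraphNum → Prop} (x : {x : GraphNum // P x}) : x.1.n ≤ sz x := by
  have h1 : sz x = sz (adjMatrix x.1.G) + sz (Nat.bits x.1.p) + 1 := by
    have : sz x = sz (adjMatrix x.1.G, Nat.bits x.1.p) := rfl
    rw [this, sz_pair]
  have h2 := length_le_sz (adjMatrix x.1.G)
  rw [length_adjMatrix] at h2
  omega

theorem regKMIS_inNP (k r : ℕ) : (regKMIS k r).InNP := by
  rw [regKMIS_eq]
  refine Problem.inNP_of_cert (γ := List Bool)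
    (V := fun z => ver k ((adjMatrix z.1.1.G, Nat.bits z.1.1.p), z.2)) ?_
    (B := fun x => 4 * sz x + 1) ((PBd.mul (PBd.const 4) PBd.sz).add (PBd.const 1)) ?_ ?_
  · exact PolyTime.castD (PT_ver k) fun z => ⟨_, rfl, rfl⟩
  · rintro x ⟨S, hS, hp⟩
    obtain ⟨c, hc, hcS⟩ := exists_mask S
    refine ⟨c, ?_, ?_⟩
    · have h1 := sz_listBool_le c
      have h2 := sz_graph_ge x
      omega
    · simp only
      rw [ver_iff, hcS]
      exact ⟨kind_iff.1 hS.1, hp⟩
  · intro x c h
    simp only at h
    rw [ver_iff] at h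
    exact (has_iff x.2.1).2 ⟨_, h.1, h.2⟩

theorem regKMISAll_inNP (k r : ℕ) : (regKMISAll k r).InNP := by
  rw [regKMISAll_eq]
  refine Problem.inNP_of_cert (γ := List Bool)
    (V := fun z => verReg r (adjMatrix z.1.1.G) && ver k ((adjMatrix z.1.1.G, Nat.bits z.1.1.p), z.2))
    ?_ (B := fun x => 4 * sz x + 1) ((PBd.mul (PBd.const 4) PBd.sz).add (PBd.const 1)) ?_ ?_
  · have h1 : PolyTime (fun z : (List (List Bool) × List Bool) × List Bool =>
        verReg r z.1.1 && ver k z) :=
      PolyTime.and (PolyTime.comp (PT_verReg r) (by fun_prop)) (PT_ver k)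
    exact PolyTime.castD h1 fun z =>
      ⟨((adjMatrix z.1.1.G, Nat.bits z.1.1.p), z.2), rfl, rfl⟩
  · rintro x ⟨hreg, S, hS, hp⟩
    obtain ⟨c, hc, hcS⟩ := exists_mask S
    refine ⟨c, ?_, ?_⟩
    · have h1 := sz_listBool_le c
      have h2 := sz_graph_ge x
      omega
    · simp only
      rw [Bool.and_eq_true, verReg_iff, ver_iff, hcS]
      exact ⟨hreg, kind_iff.1 hS.1, hp⟩
  · intro x c h
    simp only at h
    rw [Bool.and_eq_true, verReg_iff, ver_iff] at h
    exact ⟨h.1, (has_iff h.1).2 ⟨_, h.2.1, h.2.2⟩⟩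

theorem regKMIS_npComplete {k r : ℕ} (hk : 1 ≤ k) (hr : max 3 (k + 1) ≤ r) :
    (regKMIS k r).NPComplete ∧ (regKMISAll k r).NPComplete :=
  ⟨⟨regKMIS_inNP k r, (regKMIS_hardS hk hr).npHard⟩,
    ⟨regKMISAll_inNP k r, (regKMISAll_hardS hk hr).npHard⟩⟩

end Pool.Agent.Helper83.KI
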