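import Pool.Agent.Helper83.KI1

/-!
# Regularisation
-/

open Finset

namespace Pool.Agent.Helper83.KI

section Regularize

variable {V P : Type*}

/-- Make a graph of maximum degree at most `r` regular: take two copies of it, and attach gadgets.
`s v` is the deficiency at `v`, `Q` is an `r`-regular graph with an edge `xy`. -/
def regz (G : SimpleGraph V) (s : V → ℕ) (r : ℕ) (Q : SimpleGraph P) (x y : P) :
    SimpleGraph (V × (Bool ⊕ Fin r × P)) where
  Adj a b := match a, b with
    | (v, .inl p), (w, .inl q) => p = q ∧ G.Adj v w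
    | (v, .inl p), (w, .inr (i, a)) => v = w ∧ i.val < s v ∧ a = cond p y x
    | (v, .inr (i, a)), (w, .inl p) => v = w ∧ i.val < s v ∧ a = cond p y x
    | (v, .inr (i, a)), (w, .inr (j, b)) => v = w ∧ i = j ∧ Q.Adj a b ∧
        (i.val < s v → ¬ (a = x ∧ b = y) ∧ ¬ (a = y ∧ b = x))
  symm := ⟨fun a b h => by
    rcases a with ⟨v, p | ⟨i, a⟩⟩ <;> rcases b with ⟨w, q | ⟨j, b⟩⟩
    · exact ⟨h.1.symm, h.2.symm⟩
    · obtain ⟨rfl, h2, h3⟩ := h
      exact ⟨rfl, h2, h3⟩
    · obtain ⟨rfl, h2, h3⟩ := h
      exact ⟨rfl, h2, h3⟩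
    · obtain ⟨rfl, rfl, h3, h4⟩ := h
      exact ⟨rfl, rfl, h3.symm, fun hi => ⟨fun hh => (h4 hi).2 ⟨hh.2, hh.1⟩,
        fun hh => (h4 hi).1 ⟨hh.2, hh.1⟩⟩⟩⟩
  loopless := ⟨fun a h => by
    rcases a with ⟨v, p | ⟨i, a⟩⟩
    · exact G.loopless.irrefl _ h.2
    · exact Q.loopless.irrefl _ h.2.2.1⟩

/-- The properties of the gadget `Q` that are used. -/
structure Gadget (Q : SimpleGraph P) (k r : ℕ) (x y : P) (m : ℕ) : Prop where
  adj : Q.Adj x y
  reg : ∀ a, ∃ N : Finset P, N.card = r ∧ ∀ b, b ∈ N ↔ Q.Adj a b
  good : ∃ T : Finset P, x ∉ T ∧ y ∉ T ∧ T.card = m ∧ IsKInd Q k T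
  bound : ∀ T : Finset P,
    (∀ v ∈ T, ∀ U : Finset P, U ⊆ T → (∀ w ∈ U, Q.Adj v w ∧ ¬ (v = x ∧ w = y) ∧
      ¬ (v = y ∧ w = x)) → U.card ≤ k) → T.card ≤ m

variable {G : SimpleGraph V} {s : V → ℕ} {k r : ℕ} {Q : SimpleGraph P} {x y : P} {m : ℕ}

lemma regz_has [Fintype V] (hQ : Gadget Q k r x y m) {q : ℕ} (h : Has G k q) :
    Has (regz G s r Q x y) k (2 * q + m * r * Fintype.card V) := by
  classical
  obtain ⟨S, hS, hq⟩ := h
  obtain ⟨T, hxT, hyT, hTm, hT⟩ := hQ.good
  set A : Finset (V × (Bool ⊕ Fin r × P)) :=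
    (S ×ˢ (univ : Finset Bool)).image (fun a => (a.1, Sum.inl a.2)) with hA
  set B : Finset (V × (Bool ⊕ Fin r × P)) :=
    ((univ : Finset V) ×ˢ ((univ : Finset (Fin r)) ×ˢ T)).image (fun a => (a.1, Sum.inr a.2)) with hB
  have memA : ∀ v p, (v, Sum.inl p) ∈ A ↔ v ∈ S := by
    intro v p; simp [hA]
  have memA' : ∀ v p, (v, Sum.inr p) ∉ A := by
    intro v p; simp [hA]
  have memB : ∀ v i a, (v, Sum.inr (i, a)) ∈ B ↔ a ∈ T := by
    intro v i a; simp [hB]
  have memB' : ∀ v p, (v, Sum.inl p) ∉ B := by
    intro v p; simp [hB]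
  refine ⟨A ∪ B, ?_, ?_⟩
  · rintro ⟨v, p | ⟨i, a⟩⟩ hv U hU hadj
    · have hvS : v ∈ S := by
        rcases mem_union.1 hv with h | h
        · exact (memA _ _).1 h
        · exact absurd h (memB' _ _)
      have key : ∀ b ∈ U, ∃ w ∈ S, G.Adj v w ∧ b = (w, Sum.inl p) := by
        rintro ⟨w, q | ⟨j, b⟩⟩ hb
        · have h1 := hadj _ hb
          have h2 : w ∈ S := by
            rcases mem_union.1 (hU hb) with h | h
            · exact (memA _ _).1 h
            · exact absurd h (memB' _ _)
          exact ⟨w, h2, h1.2, by rw [h1.1]⟩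
        · exfalso
          have h1 := hadj _ hb
          have h2 : b ∈ T := by
            rcases mem_union.1 (hU hb) with h | h
            · exact absurd h (memA' _ _)
            · exact (memB _ _ _).1 h
          have h3 : b = cond p y x := h1.2.2
          cases p
          · simp only [cond_false] at h3
            rw [h3] at h2
            exact hxT h2
          · simp only [cond_true] at h3
            rw [h3] at h2
            exact hyT h2
      have h1 := hS v hvS (U.image Prod.fst) (by
        intro w hw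
        obtain ⟨b, hb, rfl⟩ := mem_image.1 hw
        obtain ⟨w, hw', _, rfl⟩ := key b hb
        exact hw') (by
        intro w hw
        obtain ⟨b, hb, rfl⟩ := mem_image.1 hw
        obtain ⟨w, _, hw', rfl⟩ := key b hb
        exact hw')
      rwa [card_image_of_injOn] at h1
      intro b hb c hc hbc
      obtain ⟨w, _, _, rfl⟩ := key b hb
      obtain ⟨w', _, _, rfl⟩ := key c hc
      simp only at hbc
      rw [hbc]
    · have haT : a ∈ T := by
        rcases mem_union.1 hv with h | h
        · exact absurd h (memA' _ _)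
        · exact (memB _ _ _).1 h
      have key : ∀ b ∈ U, ∃ c ∈ T, Q.Adj a c ∧ b = (v, Sum.inr (i, c)) := by
        rintro ⟨w, q | ⟨j, b⟩⟩ hb
        · exfalso
          have h1 := hadj _ hb
          have h3 : a = cond q y x := h1.2.2
          cases q
          · simp only [cond_false] at h3
            rw [h3] at haT
            exact hxT haT
          · simp only [cond_true] at h3
            rw [h3] at haT
            exact hyT haT
        · have h1 := hadj _ hb
          have h2 : b ∈ T := by
            rcases mem_union.1 (hU hb) with h | h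
            · exact absurd h (memA' _ _)
            · exact (memB _ _ _).1 h
          obtain ⟨rfl, rfl, h3, _⟩ := h1
          exact ⟨b, h2, h3, rfl⟩
      have inj : Function.Injective (fun c : P => ((v, Sum.inr (i, c)) : V × (Bool ⊕ Fin r × P))) := by
        intro c d h
        simpa using h
      have h1 := hT a haT (U.preimage (fun c => (v, Sum.inr (i, c))) inj.injOn) (by
        intro c hc
        obtain ⟨d, hd, _, he⟩ := key _ (mem_preimage.1 hc)
        rw [inj he]; exact hd) (by
        intro c hc
        obtain ⟨d, _, hd, he⟩ := key _ (mem_preimage.1 hc)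
        rw [inj he]; exact hd)
      refine le_trans ?_ h1
      have : U = (U.preimage (fun c => (v, Sum.inr (i, c))) inj.injOn).image
          (fun c => (v, Sum.inr (i, c))) := by
        ext b
        constructor
        · intro hb
          obtain ⟨d, _, hd, rfl⟩ := key _ hb
          exact mem_image.2 ⟨d, mem_preimage.2 hb, rfl⟩
        · intro hb
          obtain ⟨d, hd, rfl⟩ := mem_image.1 hb
          exact (mem_preimage (f := fun c : P => ((v, Sum.inr (i, c)) : V × (Bool ⊕ Fin r × P)))).1 hd
      conv_lhs => rw [this]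
      exact card_image_le
  · have hdisj : Disjoint A B := by
      rw [disjoint_left]
      rintro ⟨v, p | a⟩ h1 h2
      · exact memB' _ _ h2
      · exact memA' _ _ h1
    rw [card_union_of_disjoint hdisj, hA, hB, card_image_of_injective, card_image_of_injective]
    · simp only [card_product, card_univ, Fintype.card_bool, Fintype.card_fin, hTm]
      nlinarith
    · rintro ⟨a, b⟩ ⟨c, d⟩ h
      simpa using h
    · rintro ⟨a, b⟩ ⟨c, d⟩ h
      simpa using h

lemma has_of_regz [Fintype V] (hQ : Gadget Q k r x y m) {q : ℕ}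
    (h : Has (regz G s r Q x y) k (2 * q + m * r * Fintype.card V)) : Has G k q := by
  classical
  obtain ⟨S, hS, hq⟩ := h
  -- the pieces
  set A : Bool → Finset V := fun p => univ.filter (fun v => (v, Sum.inl p) ∈ S) with hA
  have hAind : ∀ p, IsKInd G k (A p) := by
    intro p v hv U hU hadj
    have h1 := hS (v, Sum.inl p) (by simpa [hA] using hv) (U.image (fun w => (w, Sum.inl p))) (by
      intro b hb
      obtain ⟨w, hw, rfl⟩ := mem_image.1 hb
      have := hU hw
      simpa [hA] using this) (by
      intro b hb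
      obtain ⟨w, hw, rfl⟩ := mem_image.1 hb
      exact ⟨rfl, hadj w hw⟩)
    rwa [card_image_of_injective] at h1
    intro a b h
    exact (Prod.ext_iff.1 h).1
  have inj : ∀ v (i : Fin r), Function.Injective
      (fun c : P => ((v, Sum.inr (i, c)) : V × (Bool ⊕ Fin r × P))) := by
    intro v i c d h
    simpa using h
  set B : V × Fin r → Finset P := fun vi => S.preimage (fun c => (vi.1, Sum.inr (vi.2, c)))
    ((inj vi.1 vi.2).injOn) with hB
  have hBm : ∀ vi, (B vi).card ≤ m := by
    rintro ⟨v, i⟩
    apply hQ.bound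
    intro a ha U hU hadj
    have h1 := hS (v, Sum.inr (i, a)) (by simpa [hB] using ha)
      (U.image (fun c => (v, Sum.inr (i, c)))) (by
      intro b hb
      obtain ⟨w, hw, rfl⟩ := mem_image.1 hb
      have := hU hw
      simpa [hB] using this) (by
      intro b hb
      obtain ⟨w, hw, rfl⟩ := mem_image.1 hb
      exact ⟨rfl, rfl, (hadj w hw).1, fun _ => (hadj w hw).2⟩)
    rwa [card_image_of_injective _ (inj v i)] at h1
  have hcover : S ⊆ (univ.biUnion (fun p => (A p).image
        (fun v => ((v, Sum.inl p) : V × (Bool ⊕ Fin r × P))))) ∪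
      (univ : Finset (V × Fin r)).biUnion (fun vi => (B vi).image
        (fun c => ((vi.1, Sum.inr (vi.2, c)) : V × (Bool ⊕ Fin r × P)))) := by
    rintro ⟨v, p | ⟨i, a⟩⟩ hv
    · apply mem_union_left
      rw [mem_biUnion]
      exact ⟨p, mem_univ _, mem_image.2 ⟨v, by simpa [hA] using hv, rfl⟩⟩
    · apply mem_union_right
      rw [mem_biUnion]
      exact ⟨(v, i), mem_univ _, mem_image.2 ⟨a, by simpa [hB] using hv, rfl⟩⟩
  have h1 : S.card ≤ ((A false).card + (A true).card) + m * r * Fintype.card V := by
    refine (card_le_card hcover).trans ((card_union_le _ _).trans (add_le_add ?_ ?_))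
    · refine card_biUnion_le.trans ?_
      rw [Fintype.sum_bool, add_comm]
      exact add_le_add card_image_le card_image_le
    · refine card_biUnion_le.trans ?_
      refine (sum_le_sum fun vi _ => card_image_le.trans (hBm vi)).trans ?_
      rw [sum_const, card_univ, Fintype.card_prod, Fintype.card_fin, smul_eq_mul]
      apply le_of_eq
      ring
  by_cases hh : q ≤ (A false).card
  · exact ⟨_, hAind false, hh⟩
  · exact ⟨_, hAind true, by omega⟩

end Regularize

end Pool.Agent.Helper83.KI
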