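import Pool.Agent.Helper83.KI2

/-!
# Regularisation: degrees, and the two gadgets
-/

open Finset

namespace Pool.Agent.Helper83.KI

/-- `G` is `r`-regular -/
def Reg {V : Type*} (G : SimpleGraph V) (r : ℕ) : Prop :=
  ∀ a, ∃ N : Finset V, N.card = r ∧ ∀ b, b ∈ N ↔ G.Adj a b

section

variable {V P : Type*} {G : SimpleGraph V} {s : V → ℕ} {k r : ℕ} {Q : SimpleGraph P} {x y : P}
  {m : ℕ}

lemma regz_reg (hG : ∀ v, ∃ N : Finset V, N.card + s v = r ∧ ∀ w, w ∈ N ↔ G.Adj v w)
    (hQ : Gadget Q k r x y m) : Reg (regz G s r Q x y) r := by
  classical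
  have hxy : x ≠ y := hQ.adj.ne
  rintro ⟨v, p | ⟨i, a⟩⟩
  · obtain ⟨N, hN, hN'⟩ := hG v
    refine ⟨N.image (fun w => (w, Sum.inl p)) ∪
      (univ.filter (fun i : Fin r => i.val < s v)).image
        (fun i => (v, Sum.inr (i, cond p y x))), ?_, ?_⟩
    · rw [card_union_of_disjoint, card_image_of_injective, card_image_of_injective]
      · have h1 : (univ.filter (fun i : Fin r => i.val < s v)).card = s v := by
          have : (univ.filter (fun i : Fin r => i.val < s v)).map Fin.valEmbedding =
              range (s v) := by
            ext j
            simp only [mem_map, mem_filter, mem_univ, true_and, Fin.valEmbedding_apply, mem_range]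
            constructor
            · rintro ⟨i, hi, rfl⟩; exact hi
            · intro hj
              exact ⟨⟨j, by omega⟩, hj, rfl⟩
          rw [← card_map Fin.valEmbedding, this, card_range]
        omega
      · intro i j h
        simpa using h
      · intro i j h
        simpa using h
      · rw [disjoint_left]
        intro b h1 h2
        obtain ⟨w, _, rfl⟩ := mem_image.1 h1
        obtain ⟨i, _, h⟩ := mem_image.1 h2
        simp at h
    · rintro ⟨w, q | ⟨j, b⟩⟩
      · simp only [mem_union, mem_image, Prod.mk.injEq, reduceCtorEq, and_false, exists_false,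
          or_false, Sum.inl.injEq]
        constructor
        · rintro ⟨w', hw', rfl, rfl⟩
          exact ⟨rfl, (hN' _).1 hw'⟩
        · rintro ⟨rfl, h⟩
          exact ⟨w, (hN' _).2 h, rfl, rfl⟩
      · simp only [mem_union, mem_image, Prod.mk.injEq, reduceCtorEq, and_false, exists_false,
          false_or, Sum.inr.injEq, mem_filter, mem_univ, true_and]
        constructor
        · rintro ⟨i, hi, rfl, rfl, rfl⟩
          exact ⟨rfl, hi, rfl⟩
        · rintro ⟨rfl, h, rfl⟩
          exact ⟨j, h, rfl, rfl, rfl⟩
  · obtain ⟨N, hN, hN'⟩ := hQ.reg a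
    have inj : Function.Injective (fun c : P => ((v, Sum.inr (i, c)) : V × (Bool ⊕ Fin r × P))) := by
      intro c d h
      simpa using h
    by_cases hi : i.val < s v
    · by_cases hax : a = x
      · subst hax
        refine ⟨insert (v, Sum.inl false) ((N.erase y).image (fun b => (v, Sum.inr (i, b)))), ?_, ?_⟩
        · have hy : y ∈ N := (hN' y).2 hQ.adj
          rw [card_insert_of_notMem, card_image_of_injective _ inj, card_erase_of_mem hy]
          · have := card_pos.2 ⟨y, hy⟩
            omega
          · simp
        · rintro ⟨w, q | ⟨j, b⟩⟩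
          · simp only [mem_insert, Prod.mk.injEq, Sum.inl.injEq, mem_image, reduceCtorEq,
              and_false, exists_false, or_false]
            constructor
            · rintro ⟨rfl, rfl⟩
              exact ⟨rfl, hi, rfl⟩
            · rintro ⟨rfl, _, h3⟩
              refine ⟨rfl, ?_⟩
              cases q
              · rfl
              · exact absurd h3 hxy
          · simp only [mem_insert, Prod.mk.injEq, reduceCtorEq, and_false, mem_image,
              false_or, Sum.inr.injEq, mem_erase]
            constructor
            · rintro ⟨c, ⟨hc1, hc2⟩, rfl, rfl, rfl⟩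
              refine ⟨rfl, rfl, (hN' _).1 hc2, fun _ => ⟨fun h => hc1 h.2, fun h => hxy h.1⟩⟩
            · rintro ⟨rfl, rfl, h3, h4⟩
              exact ⟨b, ⟨fun h => (h4 hi).1 ⟨rfl, h⟩, (hN' _).2 h3⟩, rfl, rfl, rfl⟩
      · by_cases hay : a = y
        · subst hay
          refine ⟨insert (v, Sum.inl true) ((N.erase x).image (fun b => (v, Sum.inr (i, b)))),
            ?_, ?_⟩
          · have hy : x ∈ N := (hN' x).2 hQ.adj.symm
            rw [card_insert_of_notMem, card_image_of_injective _ inj, card_erase_of_mem hy]
            · have := card_pos.2 ⟨x, hy⟩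
              omega
            · simp
          · rintro ⟨w, q | ⟨j, b⟩⟩
            · simp only [mem_insert, Prod.mk.injEq, Sum.inl.injEq, mem_image, reduceCtorEq,
                and_false, exists_false, or_false]
              constructor
              · rintro ⟨rfl, rfl⟩
                exact ⟨rfl, hi, rfl⟩
              · rintro ⟨rfl, _, h3⟩
                refine ⟨rfl, ?_⟩
                cases q
                · exact absurd h3 hax
                · rfl
            · simp only [mem_insert, Prod.mk.injEq, reduceCtorEq, and_false, mem_image,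
                false_or, Sum.inr.injEq, mem_erase]
              constructor
              · rintro ⟨c, ⟨hc1, hc2⟩, rfl, rfl, rfl⟩
                refine ⟨rfl, rfl, (hN' _).1 hc2, fun _ => ⟨fun h => hax h.1, fun h => hc1 h.2⟩⟩
              · rintro ⟨rfl, rfl, h3, h4⟩
                exact ⟨b, ⟨fun h => (h4 hi).2 ⟨rfl, h⟩, (hN' _).2 h3⟩, rfl, rfl, rfl⟩
        · refine ⟨N.image (fun b => (v, Sum.inr (i, b))), ?_, ?_⟩
          · rw [card_image_of_injective _ inj, hN]
          · rintro ⟨w, q | ⟨j, b⟩⟩
            · simp only [mem_image, Prod.mk.injEq, reduceCtorEq, and_false, exists_false,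
                false_iff]
              rintro ⟨_, _, h3⟩
              cases q
              · exact hax h3
              · exact hay h3
            · simp only [mem_image, Prod.mk.injEq, Sum.inr.injEq]
              constructor
              · rintro ⟨c, hc, rfl, rfl, rfl⟩
                exact ⟨rfl, rfl, (hN' _).1 hc, fun _ => ⟨fun h => hax h.1, fun h => hay h.1⟩⟩
              · rintro ⟨rfl, rfl, h3, h4⟩
                exact ⟨b, (hN' _).2 h3, rfl, rfl, rfl⟩
    · refine ⟨N.image (fun b => (v, Sum.inr (i, b))), ?_, ?_⟩
      · rw [card_image_of_injective _ inj, hN]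
      · rintro ⟨w, q | ⟨j, b⟩⟩
        · simp only [mem_image, Prod.mk.injEq, reduceCtorEq, and_false, exists_false,
            false_iff]
          rintro ⟨rfl, h2, h3⟩
          exact hi h2
        · simp only [mem_image, Prod.mk.injEq, Sum.inr.injEq]
          constructor
          · rintro ⟨c, hc, rfl, rfl, rfl⟩
            exact ⟨rfl, rfl, (hN' _).1 hc, fun h => absurd h hi⟩
          · rintro ⟨rfl, rfl, h3, h4⟩
            exact ⟨b, (hN' _).2 h3, rfl, rfl, rfl⟩

/-- the complete graph on `r + 1` vertices is a gadget when `r ≥ k + 2` -/
lemma gadget_complete (hk : 1 ≤ k) (hr : k + 2 ≤ r) :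
    Gadget (⊤ : SimpleGraph (Fin (r + 1))) k r ⟨0, by omega⟩ ⟨1, by omega⟩ (k + 1) where
  adj := by
    rw [SimpleGraph.top_adj]
    intro h
    have := Fin.ext_iff.1 h
    simp at this
  reg a := by
    refine ⟨univ.erase a, ?_, ?_⟩
    · rw [card_erase_of_mem (mem_univ _), card_univ, Fintype.card_fin]; rfl
    · intro b
      simp [ne_comm]
  good := by
    refine ⟨univ.filter (fun j : Fin (r + 1) => 2 ≤ j.val ∧ j.val < k + 3), ?_, ?_, ?_, ?_⟩
    · simp
    · simp
    · have : (univ.filter (fun j : Fin (r + 1) => 2 ≤ j.val ∧ j.val < k + 3)).map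
          Fin.valEmbedding = Ico 2 (k + 3) := by
        ext j
        simp only [mem_map, mem_filter, mem_univ, true_and, Fin.valEmbedding_apply, mem_Ico]
        constructor
        · rintro ⟨i, hi, rfl⟩; exact hi
        · intro hj
          exact ⟨⟨j, by omega⟩, hj, rfl⟩
      rw [← card_map Fin.valEmbedding, this, Nat.card_Ico]
      omega
    · intro v hv U hU hadj
      have hsub : U ⊆ (univ.filter (fun j : Fin (r + 1) => 2 ≤ j.val ∧ j.val < k + 3)).erase v := by
        intro w hw
        rw [mem_erase]
        exact ⟨(hadj w hw).ne', hU hw⟩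
      have h1 := card_le_card hsub
      rw [card_erase_of_mem hv] at h1
      have : (univ.filter (fun j : Fin (r + 1) => 2 ≤ j.val ∧ j.val < k + 3)).map
          Fin.valEmbedding = Ico 2 (k + 3) := by
        ext j
        simp only [mem_map, mem_filter, mem_univ, true_and, Fin.valEmbedding_apply, mem_Ico]
        constructor
        · rintro ⟨i, hi, rfl⟩; exact hi
        · intro hj
          exact ⟨⟨j, by omega⟩, hj, rfl⟩
      have h2 : (univ.filter (fun j : Fin (r + 1) => 2 ≤ j.val ∧ j.val < k + 3)).card = k + 1 := by
        rw [← card_map Fin.valEmbedding, this, Nat.card_Ico]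
        omega
      omega
  bound := by
    intro T hT
    set x : Fin (r + 1) := ⟨0, by omega⟩ with hx
    set y : Fin (r + 1) := ⟨1, by omega⟩ with hy
    by_cases h : T ⊆ {x, y}
    · refine (card_le_card h).trans ((card_le_two).trans ?_)
      omega
    · rw [subset_iff] at h
      push Not at h
      obtain ⟨v, hv, hv'⟩ := h
      simp only [mem_insert, mem_singleton, not_or] at hv'
      have h1 := hT v hv (T.erase v) (erase_subset _ _) (by
        intro w hw
        refine ⟨(SimpleGraph.top_adj _ _).2 (mem_erase.1 hw).1.symm, ?_, ?_⟩
        · rintro ⟨h, -⟩; exact hv'.1 h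
        · rintro ⟨h, -⟩; exact hv'.2 h)
      rw [card_erase_of_mem hv] at h1
      omega

/-- the complete bipartite graph `K_{r,r}` -/
def bip (r : ℕ) : SimpleGraph (Bool × Fin r) where
  Adj a b := a.1 ≠ b.1
  symm := ⟨fun _ _ h => h.symm⟩
  loopless := ⟨fun _ h => h rfl⟩

/-- `K_{r,r}` is a gadget when `r = k + 1 ≥ 3` -/
lemma gadget_bip (hk : 2 ≤ k) :
    Gadget (bip (k + 1)) k (k + 1) (false, ⟨0, by omega⟩) (true, ⟨0, by omega⟩) (2 * k) where
  adj := by simp [bip]
  reg a := by
    refine ⟨{!a.1} ×ˢ univ, ?_, ?_⟩
    · simp
    · rintro ⟨b, j⟩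
      rcases a with ⟨a, i⟩
      simp only [mem_product, mem_singleton, mem_univ, and_true, bip]
      cases a <;> cases b <;> simp
  good := by
    refine ⟨univ ×ˢ (univ.erase ⟨0, by omega⟩), ?_, ?_, ?_, ?_⟩
    · simp
    · simp
    · rw [card_product, card_erase_of_mem (mem_univ _)]
      simp
    · rintro ⟨a, i⟩ hv U hU hadj
      have hsub : U ⊆ {!a} ×ˢ (univ.erase ⟨0, by omega⟩) := by
        rintro ⟨b, j⟩ hw
        have h1 := hU hw
        have h2 := hadj _ hw
        simp only [bip] at h2
        simp only [mem_product, mem_univ, true_and] at h1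
        simp only [mem_product, mem_singleton]
        refine ⟨?_, h1⟩
        cases a <;> cases b <;> simp_all
      refine (card_le_card hsub).trans ?_
      rw [card_product, card_erase_of_mem (mem_univ _)]
      simp
  bound := by
    intro T hT
    by_contra hcon
    push Not at hcon
    set x : Bool × Fin (k + 1) := (false, ⟨0, by omega⟩) with hx
    set y : Bool × Fin (k + 1) := (true, ⟨0, by omega⟩) with hy
    -- the two sides
    have hside : ∀ c : Bool, (T.filter (fun a => a.1 = c)).card ≤ k + 1 := by
      intro c
      have : T.filter (fun a => a.1 = c) ⊆ {c} ×ˢ univ := by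
        rintro ⟨a, i⟩ ha
        simp only [mem_filter] at ha
        simp [ha.2]
      refine (card_le_card this).trans ?_
      simp
    have hsum : T.card = (T.filter (fun a => a.1 = false)).card +
        (T.filter (fun a => a.1 = true)).card := by
      rw [← card_filter_add_card_filter_not (s := T) (fun a => a.1 = false)]
      congr 2
      ext a
      simp
    -- some side is full and the other has at least two elements
    have key : ∀ c : Bool, (T.filter (fun a => a.1 = c)).card = k + 1 →
        1 < (T.filter (fun a => a.1 = !c)).card → False := by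
      intro c hc hc'
      obtain ⟨w, hw, hne⟩ := exists_mem_ne hc' (!c, (⟨0, by omega⟩ : Fin (k + 1)))
      have hw' := mem_filter.1 hw
      have h1 := hT w hw'.1 (T.filter (fun a => a.1 = c)) (filter_subset _ _) (by
        intro z hz
        have hz' := (mem_filter.1 hz).2
        refine ⟨?_, ?_, ?_⟩
        · simp only [bip, hz', hw'.2]
          cases c <;> simp
        · rintro ⟨h, h'⟩
          apply hne
          rw [h, hx]
          have : w.1 = false := by rw [h]
          rw [hw'.2] at this
          rw [this]
        · rintro ⟨h, h'⟩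
          apply hne
          rw [h, hy]
          have : w.1 = true := by rw [h]
          rw [hw'.2] at this
          rw [this])
      omega
    have h0 := hside false
    have h1 := hside true
    rcases Nat.lt_or_ge (T.filter (fun a => a.1 = false)).card (k + 1) with h | h
    · refine key true (by omega) ?_
      have : (!true) = false := rfl
      rw [this]
      omega
    · refine key false (by omega) ?_
      have : (!false) = true := rfl
      rw [this]
      omega

end

end Pool.Agent.Helper83.KI
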