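import Pool.Agent.Helper83.KI3

/-!
# Base constructions
-/

open Finset

namespace Pool.Agent.Helper83.KI

lemma chain (n : ℕ) (x y : ℕ → ℕ) (h1 : ∀ w < n, 1 ≤ x w + y w)
    (h2 : ∀ w < n, 1 ≤ y w + x (w + 1)) (j : ℕ) (hj : j ≤ n) :
    n + x j ≤ ∑ w ∈ range (n + 1), x w + ∑ w ∈ range n, y w := by
  have a1 : ∀ j ≤ n, j ≤ ∑ w ∈ range j, x w + ∑ w ∈ range j, y w := by
    intro j
    induction j with
    | zero => intro _; simp
    | succ j ih =>
      intro hj
      have := ih (by omega)
      have := h1 j (by omega)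
      rw [sum_range_succ, sum_range_succ]
      omega
  have a2 : ∀ i, j + i ≤ n → j + x j + i ≤ ∑ w ∈ range (j + i + 1), x w +
      ∑ w ∈ range (j + i), y w := by
    intro i
    induction i with
    | zero =>
      intro hj
      have := a1 j (by omega)
      simp only [Nat.add_zero]
      rw [sum_range_succ]
      omega
    | succ i ih =>
      intro hj
      have e1 := ih (by omega)
      have e2 := h2 (j + i) (by omega)
      have e3 : ∑ w ∈ range (j + (i + 1) + 1), x w = ∑ w ∈ range (j + i + 1), x w + x (j + i + 1) :=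
        sum_range_succ _ _
      have e4 : ∑ w ∈ range (j + (i + 1)), y w = ∑ w ∈ range (j + i), y w + y (j + i) :=
        sum_range_succ _ _
      omega
  have := a2 (n - j) (by omega)
  rw [show j + (n - j) = n by omega] at this
  omega

lemma card_add_compl {V : Type*} [Fintype V] [DecidableEq V] (S : Finset V) :
    S.card + ∑ a : V, (if a ∈ S then 0 else 1) = Fintype.card V := by
  have h1 : S.card = ∑ a : V, (if a ∈ S then 1 else 0) := by simp
  rw [h1, ← sum_add_distrib]
  rw [← card_univ, card_eq_sum_ones]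
  refine sum_congr rfl fun a _ => ?_
  split_ifs <;> rfl

section base1

variable {n : ℕ}

/-- the relation generating the first base construction -/
def rel1 (H : SimpleGraph (Fin n)) (a b : Fin n × Fin (n + 1) × Fin 3) : Prop :=
  (a.2.2 = 0 ∧ b.2.2 = 1 ∧ a.1 = b.1 ∧ a.2.1 = b.2.1) ∨
  (a.2.2 = 1 ∧ b.2.2 = 2 ∧ a.1 = b.1 ∧ a.2.1 = b.2.1 ∧ a.2.1.val < n) ∨
  (a.2.2 = 2 ∧ b.2.2 = 0 ∧ a.1 = b.1 ∧ b.2.1.val = a.2.1.val + 1) ∨
  (a.2.2 = 1 ∧ b.2.2 = 1 ∧ a.2.1.val = b.1.val ∧ b.2.1.val = a.1.val ∧ H.Adj a.1 b.1)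

/-- first base construction (for `k = 1`) -/
def base1 (H : SimpleGraph (Fin n)) : SimpleGraph (Fin n × Fin (n + 1) × Fin 3) where
  Adj a b := rel1 H a b ∨ rel1 H b a
  symm := ⟨fun _ _ h => h.symm⟩
  loopless := ⟨fun a h => by
    have : ¬ rel1 H a a := by
      rintro (⟨h1, h2, -⟩ | ⟨h1, h2, -⟩ | ⟨h1, h2, -⟩ | ⟨-, -, -, -, h⟩)
      · rw [h1] at h2; exact absurd h2 (by decide)
      · rw [h1] at h2; exact absurd h2 (by decide)
      · rw [h1] at h2; exact absurd h2 (by decide)
      · exact H.loopless.irrefl _ h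
    rcases h with h | h <;> exact this h⟩

variable {H : SimpleGraph (Fin n)}

lemma base1_adj0 {u : Fin n} {w : Fin (n + 1)} {b} (h : (base1 H).Adj (u, w, 0) b) :
    b = (u, w, 1) ∨ (b.1 = u ∧ b.2.2 = 2 ∧ w.val = b.2.1.val + 1) := by
  obtain ⟨u', w', c⟩ := b
  rcases h with h | h
  · rcases h with ⟨_, h2, h3, h4⟩ | ⟨h1, _⟩ | ⟨h1, _⟩ | ⟨h1, _⟩
    · left
      simp only at h2 h3 h4
      rw [h2, h3, h4]
    all_goals exact absurd h1 (by simp)
  · rcases h with ⟨_, h2, _⟩ | ⟨_, h2, _⟩ | ⟨h1, h2, h3, h4⟩ | ⟨_, h2, _⟩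
    · exact absurd h2 (by simp)
    · exact absurd h2 (by simp)
    · right
      exact ⟨h3, h1, h4⟩
    · exact absurd h2 (by simp)

lemma base1_adj1 {u : Fin n} {w : Fin (n + 1)} {b} (h : (base1 H).Adj (u, w, 1) b) :
    b = (u, w, 0) ∨ (b = (u, w, 2) ∧ w.val < n) ∨
      (b.2.2 = 1 ∧ w.val = b.1.val ∧ b.2.1.val = u.val ∧ H.Adj u b.1) := by
  obtain ⟨u', w', c⟩ := b
  rcases h with h | h
  · rcases h with ⟨h1, _⟩ | ⟨_, h2, h3, h4, h5⟩ | ⟨h1, _⟩ | ⟨_, h2, h3, h4, h5⟩
    · exact absurd h1 (by simp)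
    · right; left
      simp only at h2 h3 h4 h5
      rw [h2, ← h3, ← h4]
      exact ⟨rfl, h5⟩
    · exact absurd h1 (by simp)
    · right; right
      exact ⟨h2, h3, h4, h5⟩
  · rcases h with ⟨h1, h2, h3, h4⟩ | ⟨h1, h2, h3⟩ | ⟨h1, h2, h3, h4⟩ | ⟨h1, h2, h3, h4, h5⟩
    · left
      simp only at h1 h2 h3 h4
      rw [h1, h3, h4]
    · exact absurd h2 (by simp)
    · exact absurd h2 (by simp)
    · right; right
      exact ⟨h1, h4, h3, h5.symm⟩

lemma base1_adj2 {u : Fin n} {w : Fin (n + 1)} {b} (h : (base1 H).Adj (u, w, 2) b) :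
    (b = (u, w, 1) ∧ w.val < n) ∨ (b.1 = u ∧ b.2.2 = 0 ∧ b.2.1.val = w.val + 1) := by
  obtain ⟨u', w', c⟩ := b
  rcases h with h | h
  · rcases h with ⟨h1, _⟩ | ⟨h1, _⟩ | ⟨h1, h2, h3, h4⟩ | ⟨h1, _⟩
    · exact absurd h1 (by simp)
    · exact absurd h1 (by simp)
    · right
      exact ⟨h3.symm, h2, h4⟩
    · exact absurd h1 (by simp)
  · rcases h with ⟨h1, h2, h3, h4⟩ | ⟨h1, h2, h3, h4, h5⟩ | ⟨h1, h2, h3, h4⟩ | ⟨h1, h2, h3, h4, h5⟩
    · exact absurd h2 (by simp)
    · left
      simp only at h1 h2 h3 h4 h5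
      rw [h1, h3, h4]
      rw [h4] at h5
      exact ⟨rfl, h5⟩
    · exact absurd h2 (by simp)
    · exact absurd h2 (by simp)

/-- previous index -/
def prv {n : ℕ} (w : Fin (n + 1)) : Fin (n + 1) := ⟨w.val - 1, by omega⟩

/-- next index -/
def nxt {n : ℕ} (w : Fin (n + 1)) : Fin (n + 1) := ⟨min (w.val + 1) n, by omega⟩

lemma eq_prv {w w' : Fin (n + 1)} (h : w.val = w'.val + 1) : w' = prv w := by
  apply Fin.ext; simp [prv, h]

lemma eq_nxt {w w' : Fin (n + 1)} (h : w'.val = w.val + 1) : w' = nxt w := by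
  apply Fin.ext
  simp only [nxt]
  omega

lemma base1_has {q : ℕ} (h : Has H 0 q) : Has (base1 H) 1 (2 * (n * (n + 1)) + q) := by
  classical
  obtain ⟨I, hI, hq⟩ := h
  have hI' : ∀ u ∈ I, ∀ w ∈ I, ¬ H.Adj u w := by
    intro u hu w hw hadj
    have := hI u hu {w} (by simpa using hw) (by simpa using hadj)
    simp at this
  set S : Finset (Fin n × Fin (n + 1) × Fin 3) := univ.filter (fun a =>
    (a.1 ∈ I → ¬ (a.2.2 = 2 ∧ a.2.1.val < n)) ∧ (a.1 ∉ I → a.2.2 ≠ 1)) with hS
  have memS : ∀ u w c, (u, w, c) ∈ S ↔ ((u ∈ I → ¬ (c = 2 ∧ w.val < n)) ∧ (u ∉ I → c ≠ 1)) := by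
    intro u w c; simp [hS]
  refine ⟨S, ?_, ?_⟩
  · have fin : ∀ (T : Finset (Fin n × Fin (n + 1) × Fin 3)) p, (∀ b ∈ T, b = p) → T.card ≤ 1 := by
      intro T p h
      rw [card_le_one]
      intro a ha b hb
      rw [h a ha, h b hb]
    rintro ⟨u, w, c⟩ hv T hT hadj
    have hv' := (memS _ _ _).1 hv
    have hc : c = 0 ∨ c = 1 ∨ c = 2 := by omega
    rcases hc with rfl | rfl | rfl
    · by_cases hu : u ∈ I
      · apply fin T (u, w, 1)
        intro b hb
        rcases base1_adj0 (hadj b hb) with h | ⟨h1, h2, h3⟩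
        · exact h
        · exfalso
          obtain ⟨u', w', c⟩ := b
          simp only at h1 h2 h3
          subst h1 h2
          have := (memS _ _ _).1 (hT hb)
          exact this.1 hu ⟨rfl, by omega⟩
      · apply fin T (u, prv w, 2)
        intro b hb
        rcases base1_adj0 (hadj b hb) with h | ⟨h1, h2, h3⟩
        · exfalso
          subst h
          have := (memS _ _ _).1 (hT hb)
          exact this.2 hu rfl
        · obtain ⟨u', w', c⟩ := b
          simp only at h1 h2 h3
          subst h1 h2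
          rw [eq_prv h3]
    · have hu : u ∈ I := by
        by_contra hu
        exact hv'.2 hu rfl
      apply fin T (u, w, 0)
      intro b hb
      rcases base1_adj1 (hadj b hb) with h | ⟨h, h'⟩ | ⟨h1, h2, h3, h4⟩
      · exact h
      · exfalso
        subst h
        have := (memS _ _ _).1 (hT hb)
        exact this.1 hu ⟨rfl, h'⟩
      · exfalso
        obtain ⟨u', w', c⟩ := b
        simp only at h1 h2 h3 h4
        subst h1
        have := (memS _ _ _).1 (hT hb)
        by_cases hu' : u' ∈ I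
        · exact hI' u hu u' hu' h4
        · exact this.2 hu' rfl
    · by_cases hu : u ∈ I
      · apply fin T (u, w, 2)
        intro b hb
        exfalso
        have hw : ¬ w.val < n := fun h => hv'.1 hu ⟨rfl, h⟩
        rcases base1_adj2 (hadj b hb) with ⟨h, h'⟩ | ⟨h1, h2, h3⟩
        · exact hw h'
        · have := b.2.1.2
          omega
      · apply fin T (u, nxt w, 0)
        intro b hb
        rcases base1_adj2 (hadj b hb) with ⟨h, h'⟩ | ⟨h1, h2, h3⟩
        · exfalso
          subst h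
          have := (memS _ _ _).1 (hT hb)
          exact this.2 hu rfl
        · obtain ⟨u', w', c⟩ := b
          simp only at h1 h2 h3
          subst h1 h2
          rw [eq_nxt h3]
  · -- counting
    have h1 : S.card = ∑ u : Fin n, ∑ w : Fin (n + 1), ∑ c : Fin 3,
        (if (u, w, c) ∈ S then 1 else 0) := by
      have h0 : S.card = ∑ a : Fin n × Fin (n + 1) × Fin 3, (if a ∈ S then 1 else 0) := by simp
      rw [h0, Fintype.sum_prod_type]
      refine sum_congr rfl fun u _ => ?_
      rw [Fintype.sum_prod_type]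
    have h2 : ∀ u : Fin n, 2 * (n + 1) + (if u ∈ I then 1 else 0) ≤
        ∑ w : Fin (n + 1), ∑ c : Fin 3, (if (u, w, c) ∈ S then 1 else 0) := by
      intro u
      have h3 : ∀ w : Fin (n + 1), 2 + (if u ∈ I then (if w = Fin.last n then 1 else 0) else 0) ≤
          ∑ c : Fin 3, (if (u, w, c) ∈ S then 1 else 0) := by
        intro w
        rw [Fin.sum_univ_three]
        simp only [memS]
        by_cases hu : u ∈ I
        · simp only [hu, not_true_eq_false, false_imp_iff, and_true, forall_true_left, if_true]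
          by_cases hw : w = Fin.last n
          · have : ¬ w.val < n := by rw [hw]; simp
            simp [hw]
          · have : w.val < n := by
              have h1 := w.2
              have h2 : w.val ≠ n := fun h => hw (Fin.ext h)
              omega
            simp [hw, this]
        · simp [hu]
      refine le_trans ?_ (sum_le_sum fun w _ => h3 w)
      rw [sum_add_distrib, sum_const, card_univ, Fintype.card_fin, smul_eq_mul, mul_comm]
      apply add_le_add le_rfl
      by_cases hu : u ∈ I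
      · simp [hu]
      · simp [hu]
    rw [h1]
    refine le_trans ?_ (sum_le_sum fun u _ => h2 u)
    rw [sum_add_distrib, sum_const, card_univ, Fintype.card_fin, smul_eq_mul, sum_ite_mem,
      univ_inter, sum_const, smul_eq_mul, mul_one]
    nlinarith

lemma has_of_base1 {q : ℕ} (h : Has (base1 H) 1 (2 * (n * (n + 1)) + q)) : Has H 0 q := by
  classical
  obtain ⟨S, hS, hq⟩ := h
  set χ : Fin n × Fin (n + 1) × Fin 3 → ℕ := fun a => if a ∈ S then 0 else 1 with hχ
  have χ0 : ∀ a, χ a = 0 → a ∈ S := by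
    intro a ha
    by_contra h
    simp [hχ, h] at ha
  set d : Fin n → ℕ := fun u => ∑ w : Fin (n + 1), ∑ c : Fin 3, χ (u, w, c) with hd
  -- the chain inequality
  have hchain : ∀ u (j : Fin (n + 1)), n + (χ (u, j, 0) + χ (u, j, 1)) ≤ d u := by
    intro u j
    set x : ℕ → ℕ := fun w => if h : w < n + 1 then χ (u, ⟨w, h⟩, 0) + χ (u, ⟨w, h⟩, 1) else 0
      with hx
    set y : ℕ → ℕ := fun w => if h : w < n + 1 then χ (u, ⟨w, h⟩, 2) else 0 with hy
    have h1 := chain n x y (by
      intro w hw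
      by_contra hcon
      have hw1 : w < n + 1 := by omega
      simp only [hx, hy, dif_pos hw1] at hcon
      have m0 := χ0 (u, ⟨w, hw1⟩, 0) (by omega)
      have m1 := χ0 (u, ⟨w, hw1⟩, 1) (by omega)
      have m2 := χ0 (u, ⟨w, hw1⟩, 2) (by omega)
      have := hS _ m1 {(u, ⟨w, hw1⟩, 0), (u, ⟨w, hw1⟩, 2)} (by
        intro b hb
        simp only [mem_insert, mem_singleton] at hb
        rcases hb with rfl | rfl <;> assumption) (by
        intro b hb
        simp only [mem_insert, mem_singleton] at hb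
        rcases hb with rfl | rfl
        · exact Or.inr (Or.inl ⟨rfl, rfl, rfl, rfl⟩)
        · exact Or.inl (Or.inr (Or.inl ⟨rfl, rfl, rfl, rfl, hw⟩)))
      rw [card_pair (by simp)] at this
      omega) (by
      intro w hw
      by_contra hcon
      have hw1 : w < n + 1 := by omega
      have hw2 : w + 1 < n + 1 := by omega
      simp only [hx, hy, dif_pos hw1, dif_pos hw2] at hcon
      have m0 := χ0 (u, ⟨w, hw1⟩, 2) (by omega)
      have m1 := χ0 (u, ⟨w + 1, hw2⟩, 0) (by omega)
      have m2 := χ0 (u, ⟨w + 1, hw2⟩, 1) (by omega)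
      have := hS _ m1 {(u, ⟨w, hw1⟩, 2), (u, ⟨w + 1, hw2⟩, 1)} (by
        intro b hb
        simp only [mem_insert, mem_singleton] at hb
        rcases hb with rfl | rfl <;> assumption) (by
        intro b hb
        simp only [mem_insert, mem_singleton] at hb
        rcases hb with rfl | rfl
        · exact Or.inr (Or.inr (Or.inr (Or.inl ⟨rfl, rfl, rfl, rfl⟩)))
        · exact Or.inl (Or.inl ⟨rfl, rfl, rfl, rfl⟩))
      rw [card_pair (by simp)] at this
      omega) j.val (by omega)
    have hxj : x j.val = χ (u, j, 0) + χ (u, j, 1) := by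
      simp only [hx, dif_pos j.2]
    rw [hxj] at h1
    refine h1.trans ?_
    have e1 : ∑ w ∈ range (n + 1), x w = ∑ w : Fin (n + 1), (χ (u, w, 0) + χ (u, w, 1)) := by
      rw [Finset.sum_range]
      refine sum_congr rfl fun w _ => ?_
      simp only [hx, dif_pos w.2]
    have e2 : ∑ w ∈ range n, y w ≤ ∑ w : Fin (n + 1), χ (u, w, 2) := by
      have : ∑ w ∈ range (n + 1), y w = ∑ w : Fin (n + 1), χ (u, w, 2) := by
        rw [Finset.sum_range]
        refine sum_congr rfl fun w _ => ?_
        simp only [hy, dif_pos w.2]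
      rw [← this]
      exact sum_le_sum_of_subset (range_mono (by omega))
    rw [e1]
    refine (add_le_add le_rfl e2).trans ?_
    rw [← sum_add_distrib, hd]
    apply le_of_eq
    refine sum_congr rfl fun w _ => ?_
    rw [Fin.sum_univ_three]
  set I : Finset (Fin n) := univ.filter (fun u => d u ≤ n) with hI
  refine ⟨I, ?_, ?_⟩
  · intro u hu T hT hadj
    by_contra hcon
    push Not at hcon
    obtain ⟨w, hw⟩ := card_pos.1 hcon
    have hwI := hT hw
    have hH := hadj w hw
    simp only [hI, mem_filter, mem_univ, true_and] at hu hwI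
    set wu : Fin (n + 1) := ⟨w.val, by omega⟩ with hwu
    set uw : Fin (n + 1) := ⟨u.val, by omega⟩ with huw
    have c1 := hchain u wu
    have c2 := hchain w uw
    have m0 := χ0 (u, wu, 0) (by omega)
    have m1 := χ0 (u, wu, 1) (by omega)
    have m2 := χ0 (w, uw, 1) (by omega)
    have hne : w ≠ u := hH.ne'
    have := hS _ m1 {(u, wu, 0), (w, uw, 1)} (by
        intro b hb
        simp only [mem_insert, mem_singleton] at hb
        rcases hb with rfl | rfl <;> assumption) (by
        intro b hb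
        simp only [mem_insert, mem_singleton] at hb
        rcases hb with rfl | rfl
        · exact Or.inr (Or.inl ⟨rfl, rfl, rfl, rfl⟩)
        · exact Or.inl (Or.inr (Or.inr (Or.inr ⟨rfl, rfl, rfl, rfl, hH⟩))))
    rw [card_pair (by simp)] at this
    omega
  · have h1 := card_add_compl S
    rw [Fintype.card_prod, Fintype.card_prod, Fintype.card_fin, Fintype.card_fin,
      Fintype.card_fin, Fintype.sum_prod_type] at h1
    have h2 : ∀ u : Fin n, n + 1 ≤ d u + (if u ∈ I then 1 else 0) := by
      intro u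
      by_cases hu : u ∈ I
      · have := hchain u 0
        rw [if_pos hu]
        omega
      · rw [if_neg hu]
        simp only [hI, mem_filter, mem_univ, true_and] at hu
        omega
    have h3 : ∑ u : Fin n, (n + 1) ≤ ∑ u : Fin n, (d u + (if u ∈ I then 1 else 0)) :=
      sum_le_sum fun u _ => h2 u
    have h5 : ∑ u : Fin n, (if u ∈ I then 1 else 0) = I.card := by simp
    have h6 : ∑ u : Fin n, (n + 1) = n * (n + 1) := by
      rw [sum_const, card_univ, Fintype.card_fin, smul_eq_mul]
    have h7 : ∑ u : Fin n, (d u + (if u ∈ I then 1 else 0)) = ∑ u, d u + I.card := by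
      rw [sum_add_distrib, h5]
    rw [h6, h7] at h3
    have h4 : ∑ u : Fin n, ∑ y : Fin (n + 1) × Fin 3, (if (u, y) ∈ S then 0 else 1) = ∑ u, d u := by
      refine sum_congr rfl fun u _ => ?_
      rw [Fintype.sum_prod_type]
    rw [h4] at h1
    nlinarith

lemma base1_deg (a : Fin n × Fin (n + 1) × Fin 3) :
    ∃ N : Finset (Fin n × Fin (n + 1) × Fin 3), N.card ≤ 3 ∧ ∀ b, b ∈ N ↔ (base1 H).Adj a b := by
  classical
  refine ⟨univ.filter ((base1 H).Adj a), ?_, by simp⟩
  obtain ⟨u, w, c⟩ := a
  have hc : c = 0 ∨ c = 1 ∨ c = 2 := by omega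
  rcases hc with rfl | rfl | rfl
  · have : univ.filter ((base1 H).Adj (u, w, 0)) ⊆ {(u, w, 1), (u, prv w, 2)} := by
      intro b hb
      rcases base1_adj0 (mem_filter.1 hb).2 with h | ⟨h1, h2, h3⟩
      · simp [h]
      · obtain ⟨u', w', c⟩ := b
        simp only at h1 h2 h3
        subst h1 h2
        rw [eq_prv h3]
        simp
    exact (card_le_card this).trans (card_le_two.trans (by omega))
  · by_cases hw : w.val < n
    · have : univ.filter ((base1 H).Adj (u, w, 1)) ⊆
          {(u, w, 0), (u, w, 2), (⟨w.val, hw⟩, ⟨u.val, by omega⟩, 1)} := by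
        intro b hb
        rcases base1_adj1 (mem_filter.1 hb).2 with h | ⟨h, _⟩ | ⟨h1, h2, h3, h4⟩
        · simp [h]
        · simp [h]
        · obtain ⟨u', w', c⟩ := b
          simp only at h1 h2 h3 h4
          subst h1
          have e1 : u' = ⟨w.val, hw⟩ := Fin.ext h2.symm
          have e2 : w' = ⟨u.val, by omega⟩ := Fin.ext h3
          rw [e1, e2]
          simp
      exact (card_le_card this).trans card_le_three
    · have : univ.filter ((base1 H).Adj (u, w, 1)) ⊆ {(u, w, 0)} := by
        intro b hb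
        rcases base1_adj1 (mem_filter.1 hb).2 with h | ⟨h, h'⟩ | ⟨h1, h2, h3, h4⟩
        · simp [h]
        · exact absurd h' hw
        · have := b.1.2
          omega
      refine (card_le_card this).trans ?_
      simp
  · have : univ.filter ((base1 H).Adj (u, w, 2)) ⊆ {(u, w, 1), (u, nxt w, 0)} := by
      intro b hb
      rcases base1_adj2 (mem_filter.1 hb).2 with ⟨h, _⟩ | ⟨h1, h2, h3⟩
      · simp [h]
      · obtain ⟨u', w', c⟩ := b
        simp only at h1 h2 h3
        subst h1 h2
        rw [eq_nxt h3]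
        simp
    exact (card_le_card this).trans (card_le_two.trans (by omega))

end base1

end Pool.Agent.Helper83.KI
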