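import Pool.Agent.Helper83.KI4

/-!
# Second base construction (for `k = 2`)
-/

open Finset

namespace Pool.Agent.Helper83.KI

section base2

variable {n : ℕ}

/-- the relation generating the second base construction -/
def rel2 (H : SimpleGraph (Fin n)) (a b : Fin n × Fin (n + 1) × Fin 7) : Prop :=
  (a.2.2 = 0 ∧ b.2.2 = 1 ∧ a.1 = b.1 ∧ a.2.1 = b.2.1 ∧ a.2.1.val < n) ∨
  (a.2.2 = 1 ∧ b.2.2 = 2 ∧ a.1 = b.1 ∧ a.2.1 = b.2.1) ∨
  (a.2.2 = 2 ∧ b.2.2 = 0 ∧ a.1 = b.1 ∧ b.2.1.val = a.2.1.val + 1) ∨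
  (a.2.2 = 1 ∧ b.2.2 = 3 ∧ a.1 = b.1 ∧ a.2.1 = b.2.1) ∨
  (a.2.2 = 2 ∧ b.2.2 = 4 ∧ a.1 = b.1 ∧ a.2.1 = b.2.1) ∨
  (a.2.2 = 5 ∧ b.2.2 = 6 ∧ a.1 = b.1 ∧ a.2.1 = b.2.1) ∨
  (a.2.2 = 5 ∧ b.2.2 = 0 ∧ a.1 = b.1 ∧ a.2.1 = b.2.1 ∧
    ∃ v : Fin n, v.val = a.2.1.val ∧ a.1.val < v.val ∧ H.Adj a.1 v) ∨
  (a.2.2 = 5 ∧ b.2.2 = 0 ∧ b.1.val = a.2.1.val ∧ b.2.1.val = a.1.val ∧ a.1.val < b.1.val ∧
    H.Adj a.1 b.1)

/-- second base construction (for `k = 2`) -/
def base2 (H : SimpleGraph (Fin n)) : SimpleGraph (Fin n × Fin (n + 1) × Fin 7) where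
  Adj a b := rel2 H a b ∨ rel2 H b a
  symm := ⟨fun _ _ h => h.symm⟩
  loopless := ⟨fun a h => by
    have : ¬ rel2 H a a := by
      rintro (⟨h1, h2, -⟩ | ⟨h1, h2, -⟩ | ⟨h1, h2, -⟩ | ⟨h1, h2, -⟩ | ⟨h1, h2, -⟩ | ⟨h1, h2, -⟩ |
        ⟨h1, h2, -⟩ | ⟨h1, h2, -⟩) <;> · rw [h1] at h2; exact absurd h2 (by decide)
    rcases h with h | h <;> exact this h⟩

variable {H : SimpleGraph (Fin n)}

lemma base2_adj0 {u : Fin n} {w : Fin (n + 1)} {b} (h : (base2 H).Adj (u, w, 0) b) :
    (b = (u, w, 1) ∧ w.val < n) ∨ (b.1 = u ∧ b.2.2 = 2 ∧ w.val = b.2.1.val + 1) ∨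
    (b = (u, w, 5) ∧ u.val < w.val ∧ w.val < n) ∨
    (b.2.2 = 5 ∧ u.val = b.2.1.val ∧ w.val = b.1.val ∧ b.1.val < u.val) := by
  obtain ⟨u', w', c⟩ := b
  rcases h with h | h
  · rcases h with ⟨_, h2, h3, h4, h5⟩ | ⟨h1, _⟩ | ⟨h1, _⟩ | ⟨h1, _⟩ | ⟨h1, _⟩ | ⟨h1, _⟩ | ⟨h1, _⟩ |
      ⟨h1, _⟩
    · left
      simp only at h2 h3 h4 h5
      rw [h2, h3, h4]
      exact ⟨rfl, h4 ▸ h5⟩
    all_goals exact absurd h1 (by simp)
  · rcases h with ⟨_, h2, _⟩ | ⟨_, h2, _⟩ | ⟨h1, h2, h3, h4⟩ | ⟨_, h2, _⟩ | ⟨_, h2, _⟩ |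
      ⟨_, h2, _⟩ | ⟨h1, h2, h3, h4, v, h5, h6, h7⟩ | ⟨h1, h2, h3, h4, h5, h6⟩
    · exact absurd h2 (by simp)
    · exact absurd h2 (by simp)
    · right; left
      exact ⟨h3, h1, h4⟩
    · exact absurd h2 (by simp)
    · exact absurd h2 (by simp)
    · exact absurd h2 (by simp)
    · right; right; left
      simp only at h1 h2 h3 h4 h5 h6
      rw [h1, h3, h4]
      rw [h4] at h5
      rw [h3] at h6
      have := v.2
      exact ⟨rfl, by omega, by omega⟩
    · right; right; right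
      simp only at h1 h2 h3 h4 h5 h6
      exact ⟨h1, h3, h4, h5⟩

lemma base2_adj1 {u : Fin n} {w : Fin (n + 1)} {b} (h : (base2 H).Adj (u, w, 1) b) :
    (b = (u, w, 0) ∧ w.val < n) ∨ b = (u, w, 2) ∨ b = (u, w, 3) := by
  obtain ⟨u', w', c⟩ := b
  rcases h with h | h
  · rcases h with ⟨h1, _⟩ | ⟨_, h2, h3, h4⟩ | ⟨h1, _⟩ | ⟨_, h2, h3, h4⟩ | ⟨h1, _⟩ | ⟨h1, _⟩ | ⟨h1, _⟩ |
      ⟨h1, _⟩
    · exact absurd h1 (by simp)
    · right; left
      simp only at h2 h3 h4
      rw [h2, h3, h4]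
    · exact absurd h1 (by simp)
    · right; right
      simp only at h2 h3 h4
      rw [h2, h3, h4]
    all_goals exact absurd h1 (by simp)
  · rcases h with ⟨h1, h2, h3, h4, h5⟩ | ⟨_, h2, _⟩ | ⟨_, h2, _⟩ | ⟨_, h2, _⟩ | ⟨_, h2, _⟩ |
      ⟨_, h2, _⟩ | ⟨_, h2, _⟩ | ⟨_, h2, _⟩
    · left
      simp only at h1 h2 h3 h4 h5
      rw [h1, h3, h4]
      exact ⟨rfl, h4 ▸ h5⟩
    all_goals exact absurd h2 (by simp)

lemma base2_adj2 {u : Fin n} {w : Fin (n + 1)} {b} (h : (base2 H).Adj (u, w, 2) b) :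
    (b.1 = u ∧ b.2.2 = 0 ∧ b.2.1.val = w.val + 1) ∨ b = (u, w, 1) ∨ b = (u, w, 4) := by
  obtain ⟨u', w', c⟩ := b
  rcases h with h | h
  · rcases h with ⟨h1, _⟩ | ⟨h1, _⟩ | ⟨_, h2, h3, h4⟩ | ⟨h1, _⟩ | ⟨_, h2, h3, h4⟩ | ⟨h1, _⟩ | ⟨h1, _⟩ |
      ⟨h1, _⟩
    · exact absurd h1 (by simp)
    · exact absurd h1 (by simp)
    · left
      exact ⟨h3.symm, h2, h4⟩
    · exact absurd h1 (by simp)
    · right; right
      simp only at h2 h3 h4
      rw [h2, h3, h4]
    all_goals exact absurd h1 (by simp)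
  · rcases h with ⟨_, h2, _⟩ | ⟨h1, h2, h3, h4⟩ | ⟨_, h2, _⟩ | ⟨_, h2, _⟩ | ⟨_, h2, _⟩ |
      ⟨_, h2, _⟩ | ⟨_, h2, _⟩ | ⟨_, h2, _⟩
    · exact absurd h2 (by simp)
    · right; left
      simp only at h1 h2 h3 h4
      rw [h1, h3, h4]
    all_goals exact absurd h2 (by simp)

lemma base2_adj3 {u : Fin n} {w : Fin (n + 1)} {b} (h : (base2 H).Adj (u, w, 3) b) :
    b = (u, w, 1) := by
  obtain ⟨u', w', c⟩ := b
  rcases h with h | h
  · rcases h with ⟨h1, _⟩ | ⟨h1, _⟩ | ⟨h1, _⟩ | ⟨h1, _⟩ | ⟨h1, _⟩ | ⟨h1, _⟩ | ⟨h1, _⟩ |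
      ⟨h1, _⟩
    all_goals exact absurd h1 (by simp)
  · rcases h with ⟨_, h2, _⟩ | ⟨_, h2, _⟩ | ⟨_, h2, _⟩ | ⟨h1, h2, h3, h4⟩ | ⟨_, h2, _⟩ |
      ⟨_, h2, _⟩ | ⟨_, h2, _⟩ | ⟨_, h2, _⟩
    · exact absurd h2 (by simp)
    · exact absurd h2 (by simp)
    · exact absurd h2 (by simp)
    · simp only at h1 h2 h3 h4
      rw [h1, h3, h4]
    all_goals exact absurd h2 (by simp)

lemma base2_adj4 {u : Fin n} {w : Fin (n + 1)} {b} (h : (base2 H).Adj (u, w, 4) b) :
    b = (u, w, 2) := by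
  obtain ⟨u', w', c⟩ := b
  rcases h with h | h
  · rcases h with ⟨h1, _⟩ | ⟨h1, _⟩ | ⟨h1, _⟩ | ⟨h1, _⟩ | ⟨h1, _⟩ | ⟨h1, _⟩ | ⟨h1, _⟩ |
      ⟨h1, _⟩
    all_goals exact absurd h1 (by simp)
  · rcases h with ⟨_, h2, _⟩ | ⟨_, h2, _⟩ | ⟨_, h2, _⟩ | ⟨_, h2, _⟩ | ⟨h1, h2, h3, h4⟩ |
      ⟨_, h2, _⟩ | ⟨_, h2, _⟩ | ⟨_, h2, _⟩
    · exact absurd h2 (by simp)
    · exact absurd h2 (by simp)
    · exact absurd h2 (by simp)
    · exact absurd h2 (by simp)
    · simp only at h1 h2 h3 h4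
      rw [h1, h3, h4]
    all_goals exact absurd h2 (by simp)

lemma base2_adj5 {u : Fin n} {w : Fin (n + 1)} {b} (h : (base2 H).Adj (u, w, 5) b) :
    b = (u, w, 6) ∨ (b = (u, w, 0) ∧ ∃ v : Fin n, v.val = w.val ∧ u.val < v.val ∧ H.Adj u v) ∨
      (b.2.2 = 0 ∧ b.1.val = w.val ∧ b.2.1.val = u.val ∧ H.Adj u b.1) := by
  obtain ⟨u', w', c⟩ := b
  rcases h with h | h
  · rcases h with ⟨h1, _⟩ | ⟨h1, _⟩ | ⟨h1, _⟩ | ⟨h1, _⟩ | ⟨h1, _⟩ | ⟨_, h2, h3, h4⟩ |
      ⟨_, h2, h3, h4, h5⟩ | ⟨_, h2, h3, h4, h5, h6⟩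
    · exact absurd h1 (by simp)
    · exact absurd h1 (by simp)
    · exact absurd h1 (by simp)
    · exact absurd h1 (by simp)
    · exact absurd h1 (by simp)
    · left
      simp only at h2 h3 h4
      rw [h2, h3, h4]
    · right; left
      simp only at h2 h3 h4 h5
      refine ⟨by rw [h2, h3, h4], h5⟩
    · right; right
      exact ⟨h2, h3, h4, h6⟩
  · rcases h with ⟨_, h2, _⟩ | ⟨_, h2, _⟩ | ⟨_, h2, _⟩ | ⟨_, h2, _⟩ | ⟨_, h2, _⟩ |
      ⟨_, h2, _⟩ | ⟨_, h2, _⟩ | ⟨_, h2, _⟩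
    all_goals exact absurd h2 (by simp)

lemma base2_adj6 {u : Fin n} {w : Fin (n + 1)} {b} (h : (base2 H).Adj (u, w, 6) b) :
    b = (u, w, 5) := by
  obtain ⟨u', w', c⟩ := b
  rcases h with h | h
  · rcases h with ⟨h1, _⟩ | ⟨h1, _⟩ | ⟨h1, _⟩ | ⟨h1, _⟩ | ⟨h1, _⟩ | ⟨h1, _⟩ | ⟨h1, _⟩ |
      ⟨h1, _⟩
    all_goals exact absurd h1 (by simp)
  · rcases h with ⟨_, h2, _⟩ | ⟨_, h2, _⟩ | ⟨_, h2, _⟩ | ⟨_, h2, _⟩ | ⟨_, h2, _⟩ |
      ⟨h1, h2, h3, h4⟩ | ⟨_, h2, _⟩ | ⟨_, h2, _⟩
    · exact absurd h2 (by simp)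
    · exact absurd h2 (by simp)
    · exact absurd h2 (by simp)
    · exact absurd h2 (by simp)
    · exact absurd h2 (by simp)
    · simp only at h1 h2 h3 h4
      rw [h1, h3, h4]
    all_goals exact absurd h2 (by simp)

lemma fin7 (c : Fin 7) : c = 0 ∨ c = 1 ∨ c = 2 ∨ c = 3 ∨ c = 4 ∨ c = 5 ∨ c = 6 := by
  revert c; decide

lemma base2_deg (a : Fin n × Fin (n + 1) × Fin 7) :
    ∃ N : Finset (Fin n × Fin (n + 1) × Fin 7), N.card ≤ 3 ∧ ∀ b, b ∈ N ↔ (base2 H).Adj a b := by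
  classical
  refine ⟨univ.filter ((base2 H).Adj a), ?_, by simp⟩
  obtain ⟨u, w, c⟩ := a
  rcases fin7 c with rfl | rfl | rfl | rfl | rfl | rfl | rfl
  · by_cases hw : w.val < n ∧ w.val < u.val
    · have : univ.filter ((base2 H).Adj (u, w, 0)) ⊆
          {(u, w, 1), (u, prv w, 2), (⟨w.val, hw.1⟩, ⟨u.val, by omega⟩, 5)} := by
        intro b hb
        rcases base2_adj0 (mem_filter.1 hb).2 with ⟨h, _⟩ | ⟨h1, h2, h3⟩ | ⟨h1, h2, h3⟩ |
          ⟨h1, h2, h3, h4⟩
        · simp [h]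
        · obtain ⟨u', w', c⟩ := b
          simp only at h1 h2 h3
          subst h1 h2
          rw [eq_prv h3]
          simp
        · omega
        · obtain ⟨u', w', c⟩ := b
          simp only at h1 h2 h3 h4
          subst h1
          have e1 : u' = ⟨w.val, hw.1⟩ := Fin.ext h3.symm
          have e2 : w' = ⟨u.val, by omega⟩ := Fin.ext h2.symm
          rw [e1, e2]
          simp
      exact (card_le_card this).trans card_le_three
    · have : univ.filter ((base2 H).Adj (u, w, 0)) ⊆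
          {(u, w, 1), (u, prv w, 2), (u, w, 5)} := by
        intro b hb
        rcases base2_adj0 (mem_filter.1 hb).2 with ⟨h, _⟩ | ⟨h1, h2, h3⟩ | ⟨h1, h2, h3⟩ |
          ⟨h1, h2, h3, h4⟩
        · simp [h]
        · obtain ⟨u', w', c⟩ := b
          simp only at h1 h2 h3
          subst h1 h2
          rw [eq_prv h3]
          simp
        · simp [h1]
        · have := b.1.2
          omega
      exact (card_le_card this).trans card_le_three
  · have : univ.filter ((base2 H).Adj (u, w, 1)) ⊆ {(u, w, 0), (u, w, 2), (u, w, 3)} := by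
      intro b hb
      rcases base2_adj1 (mem_filter.1 hb).2 with ⟨h, _⟩ | h | h <;> simp [h]
    exact (card_le_card this).trans card_le_three
  · have : univ.filter ((base2 H).Adj (u, w, 2)) ⊆ {(u, nxt w, 0), (u, w, 1), (u, w, 4)} := by
      intro b hb
      rcases base2_adj2 (mem_filter.1 hb).2 with ⟨h1, h2, h3⟩ | h | h
      · obtain ⟨u', w', c⟩ := b
        simp only at h1 h2 h3
        subst h1 h2
        rw [eq_nxt h3]
        simp
      · simp [h]
      · simp [h]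
    exact (card_le_card this).trans card_le_three
  · have : univ.filter ((base2 H).Adj (u, w, 3)) ⊆ {(u, w, 1)} := by
      intro b hb
      simp [base2_adj3 (mem_filter.1 hb).2]
    refine (card_le_card this).trans ?_
    simp
  · have : univ.filter ((base2 H).Adj (u, w, 4)) ⊆ {(u, w, 2)} := by
      intro b hb
      simp [base2_adj4 (mem_filter.1 hb).2]
    refine (card_le_card this).trans ?_
    simp
  · by_cases hw : w.val < n
    · have : univ.filter ((base2 H).Adj (u, w, 5)) ⊆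
          {(u, w, 6), (u, w, 0), (⟨w.val, hw⟩, ⟨u.val, by omega⟩, 0)} := by
        intro b hb
        rcases base2_adj5 (mem_filter.1 hb).2 with h | ⟨h, _⟩ | ⟨h1, h2, h3, h4⟩
        · simp [h]
        · simp [h]
        · obtain ⟨u', w', c⟩ := b
          simp only at h1 h2 h3 h4
          subst h1
          have e1 : u' = ⟨w.val, hw⟩ := Fin.ext h2
          have e2 : w' = ⟨u.val, by omega⟩ := Fin.ext h3
          rw [e1, e2]
          simp
      exact (card_le_card this).trans card_le_three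
    · have : univ.filter ((base2 H).Adj (u, w, 5)) ⊆ {(u, w, 6)} := by
        intro b hb
        rcases base2_adj5 (mem_filter.1 hb).2 with h | ⟨h, v, h1, h2, h3⟩ | ⟨h1, h2, h3, h4⟩
        · simp [h]
        · have := v.2
          omega
        · have := b.1.2
          omega
      refine (card_le_card this).trans ?_
      simp
  · have : univ.filter ((base2 H).Adj (u, w, 6)) ⊆ {(u, w, 5)} := by
      intro b hb
      simp [base2_adj6 (mem_filter.1 hb).2]
    refine (card_le_card this).trans ?_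
    simp

lemma base2_has {q : ℕ} (h : Has H 0 q) : Has (base2 H) 2 (6 * (n * (n + 1)) + q) := by
  classical
  obtain ⟨I, hI, hq⟩ := h
  have hI' : ∀ u ∈ I, ∀ w ∈ I, ¬ H.Adj u w := by
    intro u hu w hw hadj
    have := hI u hu {w} (by simpa using hw) (by simpa using hadj)
    simp at this
  set S : Finset (Fin n × Fin (n + 1) × Fin 7) := univ.filter (fun a =>
    (a.1 ∈ I → ¬ (a.2.2 = 1 ∧ a.2.1.val < n)) ∧ (a.1 ∉ I → a.2.2 ≠ 0)) with hS
  have memS : ∀ u w c, (u, w, c) ∈ S ↔ ((u ∈ I → ¬ (c = 1 ∧ w.val < n)) ∧ (u ∉ I → c ≠ 0)) := by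
    intro u w c; simp [hS]
  refine ⟨S, ?_, ?_⟩
  · have fin : ∀ (T : Finset (Fin n × Fin (n + 1) × Fin 7)) p p', (∀ b ∈ T, b = p ∨ b = p') →
        T.card ≤ 2 := by
      intro T p p' h
      have : T ⊆ {p, p'} := by
        intro b hb
        simp [h b hb]
      exact (card_le_card this).trans card_le_two
    rintro ⟨u, w, c⟩ hv T hT hadj
    have hv' := (memS _ _ _).1 hv
    rcases fin7 c with rfl | rfl | rfl | rfl | rfl | rfl | rfl
    · -- P
      have hu : u ∈ I := by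
        by_contra hu
        exact hv'.2 hu rfl
      by_cases hw : w.val < n ∧ w.val < u.val
      · apply fin T (u, prv w, 2) (⟨w.val, hw.1⟩, ⟨u.val, by omega⟩, 5)
        intro b hb
        rcases base2_adj0 (hadj b hb) with ⟨h, h'⟩ | ⟨h1, h2, h3⟩ | ⟨h1, h2, h3⟩ |
          ⟨h1, h2, h3, h4⟩
        · exfalso
          subst h
          exact ((memS _ _ _).1 (hT hb)).1 hu ⟨rfl, h'⟩
        · obtain ⟨u', w', c⟩ := b
          simp only at h1 h2 h3
          subst h1 h2
          rw [eq_prv h3]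
          exact Or.inl rfl
        · omega
        · obtain ⟨u', w', c⟩ := b
          simp only at h1 h2 h3 h4
          subst h1
          have e1 : u' = ⟨w.val, hw.1⟩ := Fin.ext h3.symm
          have e2 : w' = ⟨u.val, by omega⟩ := Fin.ext h2.symm
          rw [e1, e2]
          exact Or.inr rfl
      · apply fin T (u, prv w, 2) (u, w, 5)
        intro b hb
        rcases base2_adj0 (hadj b hb) with ⟨h, h'⟩ | ⟨h1, h2, h3⟩ | ⟨h1, h2, h3⟩ |
          ⟨h1, h2, h3, h4⟩
        · exfalso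
          subst h
          exact ((memS _ _ _).1 (hT hb)).1 hu ⟨rfl, h'⟩
        · obtain ⟨u', w', c⟩ := b
          simp only at h1 h2 h3
          subst h1 h2
          rw [eq_prv h3]
          exact Or.inl rfl
        · exact Or.inr h1
        · have := b.1.2
          omega
    · -- B
      apply fin T (u, w, 2) (u, w, 3)
      intro b hb
      rcases base2_adj1 (hadj b hb) with ⟨h, h'⟩ | h | h
      · exfalso
        by_cases hu : u ∈ I
        · exact hv'.1 hu ⟨rfl, h'⟩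
        · subst h
          exact ((memS _ _ _).1 (hT hb)).2 hu rfl
      · exact Or.inl h
      · exact Or.inr h
    · -- C
      by_cases hu : u ∈ I
      · by_cases hw : w.val < n
        · apply fin T (u, nxt w, 0) (u, w, 4)
          intro b hb
          rcases base2_adj2 (hadj b hb) with ⟨h1, h2, h3⟩ | h | h
          · obtain ⟨u', w', c⟩ := b
            simp only at h1 h2 h3
            subst h1 h2
            rw [eq_nxt h3]
            exact Or.inl rfl
          · exfalso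
            subst h
            exact ((memS _ _ _).1 (hT hb)).1 hu ⟨rfl, hw⟩
          · exact Or.inr h
        · apply fin T (u, w, 1) (u, w, 4)
          intro b hb
          rcases base2_adj2 (hadj b hb) with ⟨h1, h2, h3⟩ | h | h
          · have := b.2.1.2
            omega
          · exact Or.inl h
          · exact Or.inr h
      · apply fin T (u, w, 1) (u, w, 4)
        intro b hb
        rcases base2_adj2 (hadj b hb) with ⟨h1, h2, h3⟩ | h | h
        · exfalso
          obtain ⟨u', w', c⟩ := b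
          simp only at h1 h2 h3
          subst h1 h2
          exact ((memS _ _ _).1 (hT hb)).2 hu rfl
        · exact Or.inl h
        · exact Or.inr h
    · apply fin T (u, w, 1) (u, w, 1)
      intro b hb
      exact Or.inl (base2_adj3 (hadj b hb))
    · apply fin T (u, w, 2) (u, w, 2)
      intro b hb
      exact Or.inl (base2_adj4 (hadj b hb))
    · -- z
      by_cases hu : u ∈ I
      · apply fin T (u, w, 6) (u, w, 0)
        intro b hb
        rcases base2_adj5 (hadj b hb) with h | ⟨h, _⟩ | ⟨h1, h2, h3, h4⟩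
        · exact Or.inl h
        · exact Or.inr h
        · exfalso
          obtain ⟨u', w', c⟩ := b
          simp only at h1 h2 h3 h4
          subst h1
          by_cases hu' : u' ∈ I
          · exact hI' u hu u' hu' h4
          · exact ((memS _ _ _).1 (hT hb)).2 hu' rfl
      · by_cases hw : w.val < n
        · apply fin T (u, w, 6) (⟨w.val, hw⟩, ⟨u.val, by omega⟩, 0)
          intro b hb
          rcases base2_adj5 (hadj b hb) with h | ⟨h, _⟩ | ⟨h1, h2, h3, h4⟩
          · exact Or.inl h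
          · exfalso
            subst h
            exact ((memS _ _ _).1 (hT hb)).2 hu rfl
          · obtain ⟨u', w', c⟩ := b
            simp only at h1 h2 h3 h4
            subst h1
            have e1 : u' = ⟨w.val, hw⟩ := Fin.ext h2
            have e2 : w' = ⟨u.val, by omega⟩ := Fin.ext h3
            rw [e1, e2]
            exact Or.inr rfl
        · apply fin T (u, w, 6) (u, w, 6)
          intro b hb
          rcases base2_adj5 (hadj b hb) with h | ⟨h, v, h1, h2, h3⟩ | ⟨h1, h2, h3, h4⟩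
          · exact Or.inl h
          · have := v.2
            omega
          · have := b.1.2
            omega
    · apply fin T (u, w, 5) (u, w, 5)
      intro b hb
      exact Or.inl (base2_adj6 (hadj b hb))
  · -- counting
    have h1 : S.card = ∑ u : Fin n, ∑ w : Fin (n + 1), ∑ c : Fin 7,
        (if (u, w, c) ∈ S then 1 else 0) := by
      have h0 : S.card = ∑ a : Fin n × Fin (n + 1) × Fin 7, (if a ∈ S then 1 else 0) := by simp
      rw [h0, Fintype.sum_prod_type]
      refine sum_congr rfl fun u _ => ?_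
      rw [Fintype.sum_prod_type]
    have h2 : ∀ u : Fin n, 6 * (n + 1) + (if u ∈ I then 1 else 0) ≤
        ∑ w : Fin (n + 1), ∑ c : Fin 7, (if (u, w, c) ∈ S then 1 else 0) := by
      intro u
      have h3 : ∀ w : Fin (n + 1), 6 + (if u ∈ I then (if w = Fin.last n then 1 else 0) else 0) ≤
          ∑ c : Fin 7, (if (u, w, c) ∈ S then 1 else 0) := by
        intro w
        rw [Fin.sum_univ_seven]
        simp only [memS]
        by_cases hu : u ∈ I
        · simp only [hu, not_true_eq_false, false_imp_iff, and_true, forall_true_left, if_true]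
          by_cases hw : w = Fin.last n
          · have : ¬ w.val < n := by rw [hw]; simp
            simp [hw]
          · have : w.val < n := by
              have h1 := w.2
              have h2 : w.val ≠ n := fun h => hw (Fin.ext h)
              omega
            simp [hw, this]
        · simp [hu]
      refine le_trans ?_ (sum_le_sum fun w _ => h3 w)
      rw [sum_add_distrib, sum_const, card_univ, Fintype.card_fin, smul_eq_mul, mul_comm]
      apply add_le_add le_rfl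
      by_cases hu : u ∈ I
      · simp [hu]
      · simp [hu]
    rw [h1]
    refine le_trans ?_ (sum_le_sum fun u _ => h2 u)
    rw [sum_add_distrib, sum_const, card_univ, Fintype.card_fin, smul_eq_mul, sum_ite_mem,
      univ_inter, sum_const, smul_eq_mul, mul_one]
    nlinarith

lemma has_of_base2 {q : ℕ} (h : Has (base2 H) 2 (6 * (n * (n + 1)) + q)) : Has H 0 q := by
  classical
  obtain ⟨S, hS, hq⟩ := h
  set χ : Fin n × Fin (n + 1) × Fin 7 → ℕ := fun a => if a ∈ S then 0 else 1 with hχ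
  have χ0 : ∀ a, χ a = 0 → a ∈ S := by
    intro a ha
    by_contra h
    simp [hχ, h] at ha
  set d : Fin n → ℕ := fun u => ∑ w : Fin (n + 1),
    (χ (u, w, 0) + (χ (u, w, 1) + χ (u, w, 2) + χ (u, w, 3) + χ (u, w, 4))) with hd
  set e : Fin n → ℕ := fun u => ∑ w : Fin (n + 1), (χ (u, w, 5) + χ (u, w, 6)) with he
  have hthree : ∀ v p₁ p₂ p₃, v ∈ S → p₁ ∈ S → p₂ ∈ S → p₃ ∈ S → (base2 H).Adj v p₁ →
      (base2 H).Adj v p₂ → (base2 H).Adj v p₃ → p₁ ≠ p₂ → p₁ ≠ p₃ → p₂ ≠ p₃ → False := by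
    intro v p₁ p₂ p₃ hv h1 h2 h3 a1 a2 a3 n1 n2 n3
    have := hS v hv {p₁, p₂, p₃} (by
      intro b hb
      simp only [mem_insert, mem_singleton] at hb
      rcases hb with rfl | rfl | rfl <;> assumption) (by
      intro b hb
      simp only [mem_insert, mem_singleton] at hb
      rcases hb with rfl | rfl | rfl <;> assumption)
    rw [card_eq_three.2 ⟨p₁, p₂, p₃, n1, n2, n3, rfl⟩] at this
    omega
  -- the chain inequality
  have hchain : ∀ u (j : Fin (n + 1)), n + χ (u, j, 0) ≤ d u := by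
    intro u j
    set x : ℕ → ℕ := fun w => if h : w < n + 1 then χ (u, ⟨w, h⟩, 0) else 0 with hx
    set y : ℕ → ℕ := fun w => if h : w < n + 1 then χ (u, ⟨w, h⟩, 1) + χ (u, ⟨w, h⟩, 2) +
      χ (u, ⟨w, h⟩, 3) + χ (u, ⟨w, h⟩, 4) else 0 with hy
    have h1 := chain n x y (by
      intro w hw
      by_contra hcon
      have hw1 : w < n + 1 := by omega
      simp only [hx, hy, dif_pos hw1] at hcon
      have m0 := χ0 (u, ⟨w, hw1⟩, 0) (by omega)
      have m1 := χ0 (u, ⟨w, hw1⟩, 1) (by omega)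
      have m2 := χ0 (u, ⟨w, hw1⟩, 2) (by omega)
      have m3 := χ0 (u, ⟨w, hw1⟩, 3) (by omega)
      refine hthree _ _ _ _ m1 m0 m2 m3 ?_ ?_ ?_ (by simp) (by simp) (by simp)
      · exact Or.inr (Or.inl ⟨rfl, rfl, rfl, rfl, hw⟩)
      · exact Or.inl (Or.inr (Or.inl ⟨rfl, rfl, rfl, rfl⟩))
      · exact Or.inl (Or.inr (Or.inr (Or.inr (Or.inl ⟨rfl, rfl, rfl, rfl⟩))))) (by
      intro w hw
      by_contra hcon
      have hw1 : w < n + 1 := by omega
      have hw2 : w + 1 < n + 1 := by omega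
      simp only [hx, hy, dif_pos hw1, dif_pos hw2] at hcon
      have m0 := χ0 (u, ⟨w + 1, hw2⟩, 0) (by omega)
      have m1 := χ0 (u, ⟨w, hw1⟩, 1) (by omega)
      have m2 := χ0 (u, ⟨w, hw1⟩, 2) (by omega)
      have m4 := χ0 (u, ⟨w, hw1⟩, 4) (by omega)
      refine hthree _ _ _ _ m2 m0 m1 m4 ?_ ?_ ?_ (by simp) (by simp) (by simp)
      · exact Or.inl (Or.inr (Or.inr (Or.inl ⟨rfl, rfl, rfl, rfl⟩)))
      · exact Or.inr (Or.inr (Or.inl ⟨rfl, rfl, rfl, rfl⟩))
      · exact Or.inl (Or.inr (Or.inr (Or.inr (Or.inr (Or.inl ⟨rfl, rfl, rfl, rfl⟩)))))) j.val (by omega)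
    have hxj : x j.val = χ (u, j, 0) := by
      simp only [hx, dif_pos j.2]
    rw [hxj] at h1
    refine h1.trans ?_
    have e1 : ∑ w ∈ range (n + 1), x w = ∑ w : Fin (n + 1), χ (u, w, 0) := by
      rw [Finset.sum_range]
      refine sum_congr rfl fun w _ => ?_
      simp only [hx, dif_pos w.2]
    have e2 : ∑ w ∈ range n, y w ≤ ∑ w : Fin (n + 1), (χ (u, w, 1) + χ (u, w, 2) + χ (u, w, 3) +
        χ (u, w, 4)) := by
      have : ∑ w ∈ range (n + 1), y w = ∑ w : Fin (n + 1), (χ (u, w, 1) + χ (u, w, 2) +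
          χ (u, w, 3) + χ (u, w, 4)) := by
        rw [Finset.sum_range]
        refine sum_congr rfl fun w _ => ?_
        simp only [hy, dif_pos w.2]
      rw [← this]
      exact sum_le_sum_of_subset (range_mono (by omega))
    rw [e1]
    refine (add_le_add le_rfl e2).trans ?_
    rw [← sum_add_distrib]
  set I : Finset (Fin n) := univ.filter (fun u => d u ≤ n) with hI
  set R : Finset (Fin n) := univ.filter (fun u => 1 ≤ e u) with hR
  refine ⟨I \ R, ?_, ?_⟩
  · -- independence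
    have key : ∀ u w : Fin n, u ∈ I → w ∈ I → u.val < w.val → H.Adj u w → u ∈ R := by
      intro u w hu hwI huw hH
      simp only [hI, mem_filter, mem_univ, true_and] at hu hwI
      simp only [hR, mem_filter, mem_univ, true_and]
      set wu : Fin (n + 1) := ⟨w.val, by omega⟩ with hwu
      set uw : Fin (n + 1) := ⟨u.val, by omega⟩ with huw'
      have c1 := hchain u wu
      have c2 := hchain w uw
      have m0 := χ0 (u, wu, 0) (by omega)
      have m2 := χ0 (w, uw, 0) (by omega)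
      have hle : χ (u, wu, 5) + χ (u, wu, 6) ≤ e u := by
        rw [he]
        exact single_le_sum (f := fun w => χ (u, w, 5) + χ (u, w, 6)) (fun _ _ => Nat.zero_le _)
          (mem_univ wu)
      by_contra hcon
      have m5 := χ0 (u, wu, 5) (by omega)
      have m6 := χ0 (u, wu, 6) (by omega)
      refine hthree _ _ _ _ m5 m6 m0 m2 ?_ ?_ ?_ (by simp) (by simp) ?_
      · exact Or.inl (Or.inr (Or.inr (Or.inr (Or.inr (Or.inr (Or.inl ⟨rfl, rfl, rfl, rfl⟩))))))
      · exact Or.inl (Or.inr (Or.inr (Or.inr (Or.inr (Or.inr (Or.inr (Or.inl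
          ⟨rfl, rfl, rfl, rfl, w, rfl, huw, hH⟩)))))))
      · exact Or.inl (Or.inr (Or.inr (Or.inr (Or.inr (Or.inr (Or.inr (Or.inr
          ⟨rfl, rfl, rfl, rfl, huw, hH⟩)))))))
      · intro h
        have h9 : u = w := (Prod.ext_iff.1 h).1
        rw [h9] at huw
        exact lt_irrefl _ huw
    intro u hu T hT hadj
    by_contra hcon
    push Not at hcon
    obtain ⟨w, hw⟩ := card_pos.1 hcon
    have hwI := hT hw
    have hH := hadj w hw
    rw [mem_sdiff] at hu hwI
    rcases lt_trichotomy u.val w.val with h | h | h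
    · exact hu.2 (key u w hu.1 hwI.1 h hH)
    · exact hH.ne (Fin.ext h)
    · exact hwI.2 (key w u hwI.1 hu.1 h hH.symm)
  · have h1 := card_add_compl S
    rw [Fintype.card_prod, Fintype.card_prod, Fintype.card_fin, Fintype.card_fin,
      Fintype.card_fin, Fintype.sum_prod_type] at h1
    have h2 : ∀ u : Fin n, n + 1 ≤ d u + e u + (if u ∈ I \ R then 1 else 0) := by
      intro u
      by_cases hu : u ∈ I
      · have := hchain u 0
        by_cases hu' : u ∈ R
        · simp only [hR, mem_filter, mem_univ, true_and] at hu'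
          omega
        · rw [if_pos (mem_sdiff.2 ⟨hu, hu'⟩)]
          omega
      · simp only [hI, mem_filter, mem_univ, true_and] at hu
        omega
    have h3 : ∑ u : Fin n, (n + 1) ≤ ∑ u : Fin n, (d u + e u + (if u ∈ I \ R then 1 else 0)) :=
      sum_le_sum fun u _ => h2 u
    have h5 : ∑ u : Fin n, (if u ∈ I \ R then 1 else 0) = (I \ R).card := by
      rw [sum_ite_mem, univ_inter, sum_const, smul_eq_mul, mul_one]
    have h6 : ∑ u : Fin n, (n + 1) = n * (n + 1) := by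
      rw [sum_const, card_univ, Fintype.card_fin, smul_eq_mul]
    have h7 : ∑ u : Fin n, (d u + e u + (if u ∈ I \ R then 1 else 0)) =
        ∑ u, (d u + e u) + (I \ R).card := by
      rw [sum_add_distrib, h5]
    rw [h6, h7] at h3
    have h4 : ∑ u : Fin n, ∑ y : Fin (n + 1) × Fin 7, (if (u, y) ∈ S then 0 else 1) =
        ∑ u, (d u + e u) := by
      refine sum_congr rfl fun u _ => ?_
      rw [Fintype.sum_prod_type, hd, he]
      simp only
      rw [← sum_add_distrib]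
      refine sum_congr rfl fun w _ => ?_
      rw [Fin.sum_univ_seven]
      simp only [hχ]
      ring
    rw [h4] at h1
    nlinarith

end base2

end Pool.Agent.Helper83.KI
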