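import Pool.Agent.Helper83.KI5

/-!
# Assembly of the reduction: from independent sets in arbitrary graphs to `k`-independent sets in
`r`-regular graphs
-/

open Finset

namespace Pool.Agent.Helper83.KI

/-- all degrees are at most `Δ` -/
def DegLE {V : Type*} (G : SimpleGraph V) (Δ : ℕ) : Prop :=
  ∀ v, ∃ N : Finset V, N.card ≤ Δ ∧ ∀ w, w ∈ N ↔ G.Adj v w

lemma leafy_deg {V : Type*} {G : SimpleGraph V} {t Δ : ℕ} (h : DegLE G Δ) (hΔ : 1 ≤ Δ) :
    DegLE (leafy G t) (Δ + t) := by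
  classical
  rintro ⟨v, i⟩
  by_cases hi : i = 0
  · subst hi
    obtain ⟨N, hN, hN'⟩ := h v
    refine ⟨N.image (fun w => (w, 0)) ∪ (univ.erase (0 : Fin (t + 1))).image (fun j => (v, j)),
      ?_, ?_⟩
    · refine (card_union_le _ _).trans (add_le_add (card_image_le.trans hN)
        (card_image_le.trans ?_))
      rw [card_erase_of_mem (mem_univ _)]
      simp
    · rintro ⟨w, j⟩
      simp only [mem_union, mem_image, Prod.mk.injEq, mem_erase, mem_univ, and_true]
      constructor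
      · rintro (⟨w', h1, rfl, rfl⟩ | ⟨j', h1, rfl, rfl⟩)
        · exact Or.inl ⟨rfl, rfl, (hN' _).1 h1⟩
        · exact Or.inr (Or.inl ⟨rfl, rfl, h1⟩)
      · rintro (⟨_, h2, h3⟩ | ⟨h1, _, h3⟩ | ⟨_, h2, _⟩)
        · simp only at h2 h3
          exact Or.inl ⟨w, (hN' _).2 h3, rfl, h2.symm⟩
        · simp only at h1 h3
          exact Or.inr ⟨j, h3, h1, rfl⟩
        · exact absurd rfl h2
  · refine ⟨{(v, 0)}, ?_, ?_⟩
    · rw [card_singleton]; omega
    · rintro ⟨w, j⟩
      simp only [mem_singleton, Prod.mk.injEq]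
      constructor
      · rintro ⟨rfl, rfl⟩
        exact Or.inr (Or.inr ⟨rfl, hi, rfl⟩)
      · rintro (⟨h1, _, _⟩ | ⟨_, h2, _⟩ | ⟨h1, _, h3⟩)
        · exact absurd h1 hi
        · exact absurd h2 hi
        · exact ⟨h1.symm, h3⟩

/-- the deficiency function makes the hypothesis of `regz_reg` true -/
lemma defic {V : Type*} {G : SimpleGraph V} {r : ℕ} (h : DegLE G r) (s : V → ℕ)
    (hs : ∀ v, ∀ N : Finset V, (∀ w, w ∈ N ↔ G.Adj v w) → s v = r - N.card) :
    ∀ v, ∃ N : Finset V, N.card + s v = r ∧ ∀ w, w ∈ N ↔ G.Adj v w := by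
  intro v
  obtain ⟨N, hN, hN'⟩ := h v
  refine ⟨N, ?_, hN'⟩
  have := hs v N hN'
  omega

/-- **Case A**: `k ≥ 1`, `r ≥ k + 2`. -/
theorem caseA {n k r : ℕ} (hk : 1 ≤ k) (hr : k + 2 ≤ r) (H : SimpleGraph (Fin n))
    (s : (Fin n × Fin (n + 1) × Fin 3) × Fin (k - 1 + 1) → ℕ)
    (hs : ∀ v, ∀ N : Finset _, (∀ w, w ∈ N ↔ (leafy (base1 H) (k - 1)).Adj v w) →
      s v = r - N.card) :
    Reg (regz (leafy (base1 H) (k - 1)) s r (⊤ : SimpleGraph (Fin (r + 1)))
      ⟨0, by omega⟩ ⟨1, by omega⟩) r ∧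
    ∀ q, Has (regz (leafy (base1 H) (k - 1)) s r (⊤ : SimpleGraph (Fin (r + 1)))
      ⟨0, by omega⟩ ⟨1, by omega⟩) k
      (2 * ((k - 1) * (3 * (n * (n + 1))) + (2 * (n * (n + 1)) + q)) +
        (k + 1) * r * (3 * (n * (n + 1)) * k)) ↔ Has H 0 q := by
  have hQ := gadget_complete hk hr
  have hcard0 : Fintype.card (Fin n × Fin (n + 1) × Fin 3) = 3 * (n * (n + 1)) := by
    simp only [Fintype.card_prod, Fintype.card_fin]; ring
  have hcard : Fintype.card ((Fin n × Fin (n + 1) × Fin 3) × Fin (k - 1 + 1)) =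
      3 * (n * (n + 1)) * k := by
    rw [Fintype.card_prod, hcard0, Fintype.card_fin, Nat.sub_add_cancel hk]
  refine ⟨regz_reg (defic ?_ s hs) hQ, fun q => ?_⟩
  · have h1 : DegLE (leafy (base1 H) (k - 1)) (3 + (k - 1)) :=
      leafy_deg (fun v => base1_deg v) (by omega)
    intro v
    obtain ⟨N, hN, hN'⟩ := h1 v
    exact ⟨N, by omega, hN'⟩
  · have e : 1 + (k - 1) = k := by omega
    constructor
    · intro h
      rw [← hcard] at h
      have h1 := has_of_regz hQ h
      have h2 : Has (leafy (base1 H) (k - 1)) (1 + (k - 1))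
          ((k - 1) * Fintype.card (Fin n × Fin (n + 1) × Fin 3) + (2 * (n * (n + 1)) + q)) := by
        rw [hcard0, e]; exact h1
      exact has_of_base1 (has_of_leafy h2)
    · intro h
      have h1 := leafy_has (t := k - 1) (base1_has h)
      rw [hcard0, e] at h1
      have h2 := regz_has (s := s) hQ h1
      rw [hcard] at h2
      exact h2

/-- **Case B**: `k ≥ 2`, `r = k + 1`. -/
theorem caseB {n k : ℕ} (hk : 2 ≤ k) (H : SimpleGraph (Fin n))
    (s : (Fin n × Fin (n + 1) × Fin 7) × Fin (k - 2 + 1) → ℕ)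
    (hs : ∀ v, ∀ N : Finset _, (∀ w, w ∈ N ↔ (leafy (base2 H) (k - 2)).Adj v w) →
      s v = k + 1 - N.card) :
    Reg (regz (leafy (base2 H) (k - 2)) s (k + 1) (bip (k + 1))
      (false, ⟨0, by omega⟩) (true, ⟨0, by omega⟩)) (k + 1) ∧
    ∀ q, Has (regz (leafy (base2 H) (k - 2)) s (k + 1) (bip (k + 1))
      (false, ⟨0, by omega⟩) (true, ⟨0, by omega⟩)) k
      (2 * ((k - 2) * (7 * (n * (n + 1))) + (6 * (n * (n + 1)) + q)) +
        2 * k * (k + 1) * (7 * (n * (n + 1)) * (k - 1))) ↔ Has H 0 q := by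
  have hQ := gadget_bip hk
  have hcard0 : Fintype.card (Fin n × Fin (n + 1) × Fin 7) = 7 * (n * (n + 1)) := by
    simp only [Fintype.card_prod, Fintype.card_fin]; ring
  have hcard : Fintype.card ((Fin n × Fin (n + 1) × Fin 7) × Fin (k - 2 + 1)) =
      7 * (n * (n + 1)) * (k - 1) := by
    rw [Fintype.card_prod, hcard0, Fintype.card_fin]
    congr 1
    omega
  refine ⟨regz_reg (defic ?_ s hs) hQ, fun q => ?_⟩
  · have h1 : DegLE (leafy (base2 H) (k - 2)) (3 + (k - 2)) :=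
      leafy_deg (fun v => base2_deg v) (by omega)
    intro v
    obtain ⟨N, hN, hN'⟩ := h1 v
    exact ⟨N, by omega, hN'⟩
  · have e : 2 + (k - 2) = k := by omega
    constructor
    · intro h
      rw [← hcard] at h
      have h1 := has_of_regz hQ h
      have h2 : Has (leafy (base2 H) (k - 2)) (2 + (k - 2))
          ((k - 2) * Fintype.card (Fin n × Fin (n + 1) × Fin 7) + (6 * (n * (n + 1)) + q)) := by
        rw [hcard0, e]; exact h1
      exact has_of_base2 (has_of_leafy h2)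
    · intro h
      have h1 := leafy_has (t := k - 2) (base2_has h)
      rw [hcard0, e] at h1
      have h2 := regz_has (s := s) hQ h1
      rw [hcard] at h2
      exact h2

end Pool.Agent.Helper83.KI
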