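import Pool.Agent.Helper83.KI6
import Pool.Agent.Helper81.CompC

/-!
# From satisfiability to independent sets
-/

open Finset

namespace Pool.Agent.Helper83.KI

open Pool.Agent.Helper81.CC

/-- the list of literal occurrences of a formula, with the number of the clause -/
def occ (φ : CNF) : List (ℕ × Lit) :=
  (List.range φ.length).flatMap (fun i => (φ.getD i []).map (fun l => (i, l)))

lemma mem_occ {φ : CNF} {i : ℕ} {l : Lit} :
    (i, l) ∈ occ φ ↔ i < φ.length ∧ l ∈ φ.getD i [] := by
  simp only [occ, List.mem_flatMap, List.mem_range, List.mem_map, Prod.mk.injEq]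
  constructor
  · rintro ⟨j, hj, l', hl', rfl, rfl⟩
    exact ⟨hj, hl'⟩
  · rintro ⟨h1, h2⟩
    exact ⟨i, h1, l, h2, rfl, rfl⟩

/-- conflict of two literal occurrences -/
def confl (a b : ℕ × Lit) : Bool := (a.1 == b.1) || ((a.2.2 == b.2.2) && (a.2.1 != b.2.1))

/-- the conflict graph of a formula -/
def cgraph (φ : CNF) : SimpleGraph (Fin (occ φ).length) where
  Adj i j := i ≠ j ∧ confl ((occ φ).get i) ((occ φ).get j) = true
  symm := ⟨fun i j h => ⟨h.1.symm, by
    have := h.2
    simp only [confl, Bool.or_eq_true, beq_iff_eq, Bool.and_eq_true, bne_iff_ne, ne_eq] at this ⊢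
    rcases this with h | ⟨h, h'⟩
    · exact Or.inl h.symm
    · exact Or.inr ⟨h.symm, fun e => h' e.symm⟩⟩⟩
  loopless := ⟨fun i h => h.1 rfl⟩

theorem cgraph_has (φ : CNF) : Has (cgraph φ) 0 φ.length ↔ CNF.Satisfiable φ := by
  classical
  constructor
  · rintro ⟨S, hS, hq⟩
    have hind : ∀ i ∈ S, ∀ j ∈ S, i ≠ j → confl ((occ φ).get i) ((occ φ).get j) = false := by
      intro i hi j hj hij
      by_contra h
      have h' : confl ((occ φ).get i) ((occ φ).get j) = true := by
        simpa using h
      have := hS i hi {j} (by simpa using hj) (by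
        intro w hw
        rw [mem_singleton] at hw
        subst hw
        exact ⟨hij, h'⟩)
      simp at this
    have hinj : Set.InjOn (fun i => ((occ φ).get i).1) (S : Set (Fin (occ φ).length)) := by
      intro i hi j hj hij
      by_contra hne
      have := hind i hi j hj hne
      simp only at hij
      rw [confl, hij] at this
      simp at this
    have himg : S.image (fun i => ((occ φ).get i).1) = range φ.length := by
      apply eq_of_subset_of_card_le
      · intro c hc
        obtain ⟨i, _, rfl⟩ := mem_image.1 hc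
        have : ((occ φ).get i) ∈ occ φ := List.get_mem _ _
        exact mem_range.2 (mem_occ.1 this).1
      · rw [card_image_of_injOn hinj, card_range]
        exact hq
    refine ⟨fun v => decide (∃ i ∈ S, ((occ φ).get i).2 = (true, v)), ?_⟩
    intro c hc
    obtain ⟨j, hj, rfl⟩ := List.mem_iff_getElem.1 hc
    have : j ∈ S.image (fun i => ((occ φ).get i).1) := by
      rw [himg]; exact mem_range.2 hj
    obtain ⟨i, hi, hij⟩ := mem_image.1 this
    have hmem : ((occ φ).get i) ∈ occ φ := List.get_mem _ _
    have h2 := (mem_occ (i := ((occ φ).get i).1) (l := ((occ φ).get i).2)).1 hmem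
    rw [hij, List.getD_eq_getElem _ _ hj] at h2
    refine ⟨_, h2.2, ?_⟩
    rcases hl : ((occ φ).get i).2 with ⟨b, v⟩
    simp only
    cases b with
    | true =>
      rw [decide_eq_true_iff]
      exact ⟨i, hi, hl⟩
    | false =>
      rw [decide_eq_false_iff_not]
      rintro ⟨i', hi', hl'⟩
      have hne : i ≠ i' := by
        rintro rfl
        rw [hl] at hl'
        simp at hl'
      have := hind i hi i' hi' hne
      rw [confl, hl, hl'] at this
      simp at this
  · rintro ⟨a, ha⟩
    have hex : ∀ j : Fin φ.length, ∃ i : Fin (occ φ).length, ((occ φ).get i).1 = j.val ∧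
        a ((occ φ).get i).2.2 = ((occ φ).get i).2.1 := by
      intro j
      obtain ⟨l, hl, hal⟩ := ha (φ.get j) (List.get_mem _ _)
      have : (j.val, l) ∈ occ φ := by
        rw [mem_occ]
        refine ⟨j.2, ?_⟩
        rw [List.getD_eq_getElem _ _ j.2]
        exact hl
      obtain ⟨i, hi, he⟩ := List.mem_iff_getElem.1 this
      refine ⟨⟨i, hi⟩, ?_, ?_⟩
      · rw [List.get_eq_getElem, he]
      · rw [List.get_eq_getElem, he]
        exact hal
    choose f hf1 hf2 using hex
    refine ⟨univ.image f, ?_, ?_⟩
    · intro v hv T hT hadj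
      by_contra hcon
      push Not at hcon
      obtain ⟨w, hw⟩ := card_pos.1 hcon
      obtain ⟨j, _, rfl⟩ := mem_image.1 hv
      obtain ⟨j', _, rfl⟩ := mem_image.1 (hT hw)
      obtain ⟨h1, h2⟩ := hadj _ hw
      simp only [confl, Bool.or_eq_true, beq_iff_eq, Bool.and_eq_true, bne_iff_ne, ne_eq] at h2
      rcases h2 with h | ⟨h, h'⟩
      · rw [hf1, hf1] at h
        exact h1 (by rw [Fin.ext h])
      · apply h'
        rw [← hf2, ← hf2, h]
    · rw [card_image_of_injective, card_univ, Fintype.card_fin]
      intro j j' h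
      apply Fin.ext
      rw [← hf1 j, ← hf1 j', h]

end Pool.Agent.Helper83.KI
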