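import Pool.Agent.Helper83.KI7

/-!
# Graphs given by lists
-/

open Finset

namespace Pool.Agent.Helper83.KI

open Pool.Agent.Helper81.CC

theorem mem_sprod {α β : Type} {L : List α} {M : List β} {a : α} {b : β} :
    (a, b) ∈ (L ×ˢ M : List (α × β)) ↔ a ∈ L ∧ b ∈ M := List.pair_mem_product

/-- The list of vertices `L` with the adjacency `adj` represents the graph `G`. -/
structure Repr {V τ : Type} (G : SimpleGraph V) (L : List τ) (adj : τ → τ → Bool) (ι : V → τ) :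
    Prop where
  inj : Function.Injective ι
  nodup : L.Nodup
  mem : ∀ x, x ∈ L ↔ ∃ v, ι v = x
  adj : ∀ v w, adj (ι v) (ι w) = true ↔ G.Adj v w

section stages

variable {V τ : Type} {G : SimpleGraph V} {L : List τ} {adj : τ → τ → Bool} {ι : V → τ}

theorem Repr.exists_equiv (h : Repr G L adj ι) :
    ∃ e : Fin L.length ≃ V, ∀ i, ι (e i) = L.get i := by
  have h1 : ∀ i : Fin L.length, ∃ v, ι v = L.get i := fun i => (h.mem _).1 (List.get_mem _ _)
  choose f hf using h1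
  have hinj : Function.Injective f := by
    intro i j hij
    have := congrArg ι hij
    rw [hf, hf] at this
    exact (List.nodup_iff_injective_get.1 h.nodup) this
  have hsurj : Function.Surjective f := by
    intro v
    obtain ⟨i, hi⟩ := List.mem_iff_get.1 ((h.mem (ι v)).2 ⟨v, rfl⟩)
    exact ⟨i, h.inj (by rw [hf, hi])⟩
  exact ⟨Equiv.ofBijective f ⟨hinj, hsurj⟩, hf⟩

/-- degree computed in the list -/
theorem Repr.card_eq (h : Repr G L adj ι) (v : V) (N : Finset V)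
    (hN : ∀ w, w ∈ N ↔ G.Adj v w) : N.card = L.countP (fun b => adj (ι v) b) := by
  classical
  have h1 : N.image ι = (L.filter (fun b => adj (ι v) b)).toFinset := by
    ext x
    rw [mem_image, List.mem_toFinset, List.mem_filter]
    constructor
    · rintro ⟨w, hw, rfl⟩
      exact ⟨(h.mem _).2 ⟨w, rfl⟩, (h.adj _ _).2 ((hN _).1 hw)⟩
    · rintro ⟨hx, hx'⟩
      obtain ⟨w, rfl⟩ := (h.mem x).1 hx
      exact ⟨w, (hN _).2 ((h.adj _ _).1 hx'), rfl⟩
  rw [← card_image_of_injective N h.inj, h1, List.toFinset_card_of_nodup (h.nodup.filter _),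
    List.countP_eq_length_filter]

/-- vertices of the leafy graph -/
def leafyL (t : ℕ) (L : List τ) : List (τ × Fin (t + 1)) := L ×ˢ List.finRange (t + 1)

/-- adjacency of the leafy graph -/
def leafyAdj [DecidableEq τ] (t : ℕ) (adj : τ → τ → Bool) (a b : τ × Fin (t + 1)) : Bool :=
  (decide (a.2 = 0) && decide (b.2 = 0) && adj a.1 b.1) ||
    (decide (a.1 = b.1) && decide (a.2 = 0) && !decide (b.2 = 0)) ||
    (decide (a.1 = b.1) && !decide (a.2 = 0) && decide (b.2 = 0))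

theorem Repr.leafy [DecidableEq τ] (h : Repr G L adj ι) (t : ℕ) :
    Repr (leafy G t) (leafyL t L) (leafyAdj t adj) (fun v => (ι v.1, v.2)) where
  inj := by
    rintro ⟨v, i⟩ ⟨w, j⟩ hh
    simp only [Prod.mk.injEq] at hh
    rw [h.inj hh.1, hh.2]
  nodup := h.nodup.product (List.nodup_finRange _)
  mem := by
    rintro ⟨x, i⟩
    rw [leafyL, mem_sprod, h.mem]
    constructor
    · rintro ⟨⟨v, rfl⟩, _⟩
      exact ⟨(v, i), rfl⟩
    · rintro ⟨⟨v, j⟩, hh⟩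
      simp only [Prod.mk.injEq] at hh
      exact ⟨⟨v, hh.1⟩, List.mem_finRange _⟩
  adj := by
    rintro ⟨v, i⟩ ⟨w, j⟩
    simp only [leafyAdj, KI.leafy, Bool.or_eq_true, Bool.and_eq_true, decide_eq_true_eq,
      Bool.not_eq_true', decide_eq_false_iff_not, h.adj, h.inj.eq_iff, ne_eq]
    tauto

/-- vertices of the regularised graph -/
def regzL {C : Type} (CL : List C) (L : List τ) : List (τ × C) := L ×ˢ CL

/-- adjacency of the regularised graph, for fixed types of vertices -/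
def regzAdj' {P : Type} [DecidableEq P] [DecidableEq τ] {r : ℕ} (QA : P → P → Bool) (x y : P)
    (s : ℕ) (A : Bool) (E : Bool) : (c c' : Bool ⊕ Fin r × P) → Bool
  | .inl p, .inl q => decide (p = q) && A
  | .inl p, .inr (i, a) => E && decide (i.val < s) && decide (a = cond p y x)
  | .inr (i, a), .inl p => E && decide (i.val < s) && decide (a = cond p y x)
  | .inr (i, a), .inr (j, b) => E && decide (i = j) && QA a b &&
      (!decide (i.val < s) || decide (¬ (a = x ∧ b = y) ∧ ¬ (a = y ∧ b = x)))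

/-- adjacency of the regularised graph -/
def regzAdj {P : Type} [DecidableEq P] [DecidableEq τ] {r : ℕ} (QA : P → P → Bool) (x y : P)
    (s : τ → ℕ) (adj : τ → τ → Bool) (a b : τ × (Bool ⊕ Fin r × P)) : Bool :=
  regzAdj' (τ := τ) QA x y (s a.1) (adj a.1 b.1) (decide (a.1 = b.1)) a.2 b.2

theorem Repr.regz {P : Type} [DecidableEq P] [DecidableEq τ] (h : Repr G L adj ι) {r : ℕ}
    {Q : SimpleGraph P} {QA : P → P → Bool} (hQA : ∀ a b, QA a b = true ↔ Q.Adj a b) (x y : P)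
    (s : τ → ℕ) {CL : List (Bool ⊕ Fin r × P)} (hCL : CL.Nodup) (hCL' : ∀ c, c ∈ CL) :
    Repr (regz G (fun v => s (ι v)) r Q x y) (regzL CL L) (regzAdj QA x y s adj)
      (fun v => (ι v.1, v.2)) where
  inj := by
    rintro ⟨v, i⟩ ⟨w, j⟩ hh
    simp only [Prod.mk.injEq] at hh
    rw [h.inj hh.1, hh.2]
  nodup := h.nodup.product hCL
  mem := by
    rintro ⟨x, i⟩
    rw [regzL, mem_sprod, h.mem]
    constructor
    · rintro ⟨⟨v, rfl⟩, _⟩
      exact ⟨(v, i), rfl⟩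
    · rintro ⟨⟨v, j⟩, hh⟩
      simp only [Prod.mk.injEq] at hh
      exact ⟨⟨v, hh.1⟩, hCL' _⟩
  adj := by
    rintro ⟨v, p | ⟨i, a⟩⟩ ⟨w, q | ⟨j, b⟩⟩
    · simp only [regzAdj, regzAdj', KI.regz, Bool.and_eq_true, decide_eq_true_eq, h.adj]
    · simp only [regzAdj, regzAdj', KI.regz, Bool.and_eq_true, decide_eq_true_eq, h.inj.eq_iff]
      tauto
    · simp only [regzAdj, regzAdj', KI.regz, Bool.and_eq_true, decide_eq_true_eq, h.inj.eq_iff]
      tauto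
    · simp only [regzAdj, regzAdj', KI.regz, Bool.and_eq_true, decide_eq_true_eq, h.inj.eq_iff,
        Bool.or_eq_true, Bool.not_eq_true', decide_eq_false_iff_not, hQA]
      tauto

end stages

/-! ### Base stages -/

section base

variable {n : ℕ} {H : SimpleGraph (Fin n)} {hB : ℕ → ℕ → Bool}

/-- vertices of the base graphs -/
def baseL (c n : ℕ) : List (ℕ × ℕ × Fin c) := List.range n ×ˢ (List.range (n + 1) ×ˢ List.finRange c)

/-- the coding of the vertices -/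
def baseι (c n : ℕ) (v : Fin n × Fin (n + 1) × Fin c) : ℕ × ℕ × Fin c := (v.1.val, v.2.1.val, v.2.2)

/-- relation generating the first base graph -/
def rel1B (n : ℕ) (hB : ℕ → ℕ → Bool) (a b : ℕ × ℕ × Fin 3) : Bool :=
  decide ((a.2.2 = 0 ∧ b.2.2 = 1 ∧ a.1 = b.1 ∧ a.2.1 = b.2.1) ∨
  (a.2.2 = 1 ∧ b.2.2 = 2 ∧ a.1 = b.1 ∧ a.2.1 = b.2.1 ∧ a.2.1 < n) ∨
  (a.2.2 = 2 ∧ b.2.2 = 0 ∧ a.1 = b.1 ∧ b.2.1 = a.2.1 + 1) ∨
  (a.2.2 = 1 ∧ b.2.2 = 1 ∧ a.2.1 = b.1 ∧ b.2.1 = a.1 ∧ hB a.1 b.1 = true))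

/-- adjacency of the first base graph -/
def base1Adj (n : ℕ) (hB : ℕ → ℕ → Bool) (a b : ℕ × ℕ × Fin 3) : Bool :=
  rel1B n hB a b || rel1B n hB b a

/-- relation generating the second base graph -/
def rel2B (n : ℕ) (hB : ℕ → ℕ → Bool) (a b : ℕ × ℕ × Fin 7) : Bool :=
  decide ((a.2.2 = 0 ∧ b.2.2 = 1 ∧ a.1 = b.1 ∧ a.2.1 = b.2.1 ∧ a.2.1 < n) ∨
  (a.2.2 = 1 ∧ b.2.2 = 2 ∧ a.1 = b.1 ∧ a.2.1 = b.2.1) ∨
  (a.2.2 = 2 ∧ b.2.2 = 0 ∧ a.1 = b.1 ∧ b.2.1 = a.2.1 + 1) ∨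
  (a.2.2 = 1 ∧ b.2.2 = 3 ∧ a.1 = b.1 ∧ a.2.1 = b.2.1) ∨
  (a.2.2 = 2 ∧ b.2.2 = 4 ∧ a.1 = b.1 ∧ a.2.1 = b.2.1) ∨
  (a.2.2 = 5 ∧ b.2.2 = 6 ∧ a.1 = b.1 ∧ a.2.1 = b.2.1) ∨
  (a.2.2 = 5 ∧ b.2.2 = 0 ∧ a.1 = b.1 ∧ a.2.1 = b.2.1 ∧
    a.2.1 < n ∧ a.1 < a.2.1 ∧ hB a.1 a.2.1 = true) ∨
  (a.2.2 = 5 ∧ b.2.2 = 0 ∧ b.1 = a.2.1 ∧ b.2.1 = a.1 ∧ a.1 < b.1 ∧ hB a.1 b.1 = true))

/-- adjacency of the second base graph -/
def base2Adj (n : ℕ) (hB : ℕ → ℕ → Bool) (a b : ℕ × ℕ × Fin 7) : Bool :=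
  rel2B n hB a b || rel2B n hB b a

theorem baseι_inj (c n : ℕ) : Function.Injective (baseι c n) := by
  rintro ⟨u, w, i⟩ ⟨u', w', i'⟩ h
  simp only [baseι, Prod.mk.injEq] at h
  rw [Fin.ext h.1, Fin.ext h.2.1, h.2.2]

theorem baseL_nodup (c n : ℕ) : (baseL c n).Nodup :=
  List.nodup_range.product (List.nodup_range.product (List.nodup_finRange _))

theorem mem_baseL (c n : ℕ) (x : ℕ × ℕ × Fin c) : x ∈ baseL c n ↔ ∃ v, baseι c n v = x := by
  obtain ⟨u, w, i⟩ := x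
  simp only [baseL, mem_sprod, List.mem_range, List.mem_finRange, and_true]
  constructor
  · rintro ⟨h1, h2⟩
    exact ⟨(⟨u, h1⟩, ⟨w, h2⟩, i), rfl⟩
  · rintro ⟨⟨u', w', i'⟩, hh⟩
    simp only [baseι, Prod.mk.injEq] at hh
    have := u'.2
    have := w'.2
    omega

theorem rel1B_iff (hH : ∀ u v : Fin n, hB u v = true ↔ H.Adj u v)
    (a b : Fin n × Fin (n + 1) × Fin 3) :
    rel1B n hB (baseι 3 n a) (baseι 3 n b) = true ↔ rel1 H a b := by
  rw [rel1B, decide_eq_true_eq, rel1]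
  simp only [baseι, hH, Fin.ext_iff]

theorem rel2B_iff (hH : ∀ u v : Fin n, hB u v = true ↔ H.Adj u v)
    (a b : Fin n × Fin (n + 1) × Fin 7) :
    rel2B n hB (baseι 7 n a) (baseι 7 n b) = true ↔ rel2 H a b := by
  rw [rel2B, decide_eq_true_eq, rel2]
  have key : (a.2.1.val < n ∧ a.1.val < a.2.1.val ∧ hB a.1 a.2.1 = true) ↔
      ∃ v : Fin n, v.val = a.2.1.val ∧ a.1.val < v.val ∧ H.Adj a.1 v := by
    constructor
    · rintro ⟨h1, h2, h3⟩
      exact ⟨⟨a.2.1.val, h1⟩, rfl, h2, (hH _ _).1 h3⟩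
    · rintro ⟨v, h1, h2, h3⟩
      have := v.2
      rw [← hH, h1] at h3
      exact ⟨by omega, by omega, h3⟩
  simp only [baseι, hH, Fin.ext_iff] at key ⊢
  rw [key]

theorem Repr.base1 (hH : ∀ u v : Fin n, hB u v = true ↔ H.Adj u v) :
    Repr (base1 H) (baseL 3 n) (base1Adj n hB) (baseι 3 n) where
  inj := baseι_inj 3 n
  nodup := baseL_nodup 3 n
  mem := mem_baseL 3 n
  adj a b := by
    rw [base1Adj, Bool.or_eq_true, rel1B_iff hH, rel1B_iff hH]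
    rfl

theorem Repr.base2 (hH : ∀ u v : Fin n, hB u v = true ↔ H.Adj u v) :
    Repr (base2 H) (baseL 7 n) (base2Adj n hB) (baseι 7 n) where
  inj := baseι_inj 7 n
  nodup := baseL_nodup 7 n
  mem := mem_baseL 7 n
  adj a b := by
    rw [base2Adj, Bool.or_eq_true, rel2B_iff hH, rel2B_iff hH]
    rfl

end base

end Pool.Agent.Helper83.KI
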