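import Mathlib
import Pool.Agent.Helper81.Complexity

/-!
# Regular `k`-independent sets in regular graphs as decision problems
-/

namespace Pool.Agent.Helper83.KDef

open Pool.Agent.Helper81.CC

/-- A finite simple graph `G` on the vertices `0, ..., n - 1` together with a number `p`. -/
structure GraphNum where
  /-- number of vertices -/
  n : ℕ
  /-- the graph -/
  G : SimpleGraph (Fin n)
  /-- the number -/
  p : ℕ

open Classical in
/-- The adjacency matrix of a graph, as the list of its rows. -/
noncomputable def adjMatrix {n : ℕ} (G : SimpleGraph (Fin n)) : List (List Bool) :=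
  (List.finRange n).map fun i => (List.finRange n).map fun j => decide (G.Adj i j)

/-- The encoding by strings of a graph and a number: the pair (adjacency matrix, binary digits). -/
noncomputable def GraphNum.enc (x : GraphNum) : List Bool :=
  encOf (List (List Bool) × List Bool) (adjMatrix x.G, Nat.bits x.p)

theorem adjMatrix_inj {x y : GraphNum} (h : (adjMatrix x.G, Nat.bits x.p) =
    (adjMatrix y.G, Nat.bits y.p)) : x = y := by
  obtain ⟨n, G, p⟩ := x
  obtain ⟨m, G', p'⟩ := y
  simp only [Prod.mk.injEq] at h
  obtain ⟨h1, h2⟩ := h
  have hn : n = m := by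
    have := congrArg List.length h1
    simpa [adjMatrix] using this
  subst hn
  have hp : p = p' := by
    have := congrArg (fun l : List Bool => l.foldr (fun b m => Nat.bit b m) 0) h2
    have key : ∀ q : ℕ, (Nat.bits q).foldr (fun b m => Nat.bit b m) 0 = q := by
      intro q
      induction q using Nat.binaryRec' with
      | zero => simp
      | bit b q hb ih => rw [Nat.bits_append_bit q b hb, List.foldr_cons, ih]
    simpa only [key] using this
  subst hp
  have hG : G = G' := by
    ext i j
    have h3 := List.map_inj_left.1 h1 i (List.mem_finRange i)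
    have h4 := List.map_inj_left.1 h3 j (List.mem_finRange j)
    simpa using h4
  rw [hG]

theorem GraphNum.enc_injective : Function.Injective GraphNum.enc :=
  fun _ _ h => adjMatrix_inj (encOf_injective _ h)

/-- `G` is `r`-regular. -/
def IsReg {n : ℕ} (G : SimpleGraph (Fin n)) (r : ℕ) : Prop :=
  ∀ v, (G.neighborSet v).encard = r

/-- `S` is a regular `k`-independent set of `G`: every vertex of `S` has at most `k` neighbours in
`S`, and all the vertices of `S` have the same degree in `G`. -/
def IsRegKIndep {n : ℕ} (G : SimpleGraph (Fin n)) (k : ℕ) (S : Finset (Fin n)) : Prop :=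
  (∀ v ∈ S, {w | w ∈ S ∧ G.Adj v w}.encard ≤ k) ∧
    ∀ v ∈ S, ∀ w ∈ S, (G.neighborSet v).encard = (G.neighborSet w).encard

/-- The problem reg-`k`MIS restricted to `r`-regular graphs: given an `r`-regular graph `G` and an
integer `p ≥ 1`, does `G` have a regular `k`-independent set with at least `p` vertices? -/
noncomputable def regKMIS (k r : ℕ) : Problem where
  Inst := {x : GraphNum // IsReg x.G r ∧ 1 ≤ x.p}
  enc x := x.1.enc
  enc_inj := GraphNum.enc_injective.comp Subtype.val_injective
  Yes x := ∃ S, IsRegKIndep x.1.G k S ∧ x.1.p ≤ S.card

/-- The same problem on pairs `(G, p)` with an arbitrary graph `G` and `p ≥ 1`, where the graphs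
which are not `r`-regular are no-instances. -/
noncomputable def regKMISAll (k r : ℕ) : Problem where
  Inst := {x : GraphNum // 1 ≤ x.p}
  enc x := x.1.enc
  enc_inj := GraphNum.enc_injective.comp Subtype.val_injective
  Yes x := IsReg x.1.G r ∧ ∃ S, IsRegKIndep x.1.G k S ∧ x.1.p ≤ S.card

end Pool.Agent.Helper83.KDef
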