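import Pool.Agent.Helper83.KI8
import Pool.Agent.Helper83.KIDefs
import Pool.Agent.Helper83.CookLevin

/-!
# Polynomial time of the reduction
-/

open Finset

namespace Pool.Agent.Helper83.KI

open Pool.Agent.Helper81.CC

section poly

variable {α β τ C P : Type} [ToData α] [ToData β] [ToData τ] [ToData C] [ToData P]

theorem PT_finite [Fintype C] [DecidableEq C] {F : α → C → Bool}
    (h : ∀ c, PolyTime (fun a => F a c)) : PolyTime (fun z : α × C => F z.1 z.2) := by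
  have key : ∀ l : List C, PolyTime (fun z : α × C => l.any (fun c => decide (z.2 = c) && F z.1 c)) := by
    intro l
    induction l with
    | nil => simp only [List.any_nil]; exact PolyTime.const false
    | cons c l ih =>
      simp only [List.any_cons]
      have h1 : PolyTime (fun z : α × C => F z.1 c) := PolyTime.comp (h c) (by fun_prop)
      exact PolyTime.or (PolyTime.and (by fun_prop) h1) ih
  refine PolyTime.congr (key (univ : Finset C).toList) fun z => ?_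
  rw [Bool.eq_iff_iff, List.any_eq_true]
  constructor
  · rintro ⟨c, _, hc⟩
    simp only [Bool.and_eq_true, decide_eq_true_eq] at hc
    rw [hc.1]; exact hc.2
  · intro hz
    exact ⟨z.2, by simp, by simp [hz]⟩

theorem PT_leafyAdj [DecidableEq τ] {adj : α → τ → τ → Bool}
    (h : PolyTime (fun z : α × τ × τ => adj z.1 z.2.1 z.2.2)) (t : ℕ) :
    PolyTime (fun z : α × (τ × Fin (t + 1)) × (τ × Fin (t + 1)) =>
      leafyAdj t (adj z.1) z.2.1 z.2.2) := by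
  unfold leafyAdj
  have h' : PolyTime (fun z : α × (τ × Fin (t + 1)) × (τ × Fin (t + 1)) =>
      adj z.1 z.2.1.1 z.2.2.1) :=
    PolyTime.comp (g := fun z : α × τ × τ => adj z.1 z.2.1 z.2.2)
      (f := fun z : α × (τ × Fin (t + 1)) × (τ × Fin (t + 1)) => (z.1, z.2.1.1, z.2.2.1)) h
      (by fun_prop)
  fun_prop

theorem PT_regzAdj' [DecidableEq P] [DecidableEq τ] {r : ℕ} (QA : P → P → Bool) (x y : P)
    {s : α → ℕ} (hs : PolyTime s) {A E : α → Bool} (hA : PolyTime A) (hE : PolyTime E)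
    (c c' : Bool ⊕ Fin r × P) :
    PolyTime (fun a => regzAdj' (τ := τ) QA x y (s a) (A a) (E a) c c') := by
  rcases c with p | ⟨i, a⟩ <;> rcases c' with q | ⟨j, b⟩
  · simp only [regzAdj']
    fun_prop
  · simp only [regzAdj']
    fun_prop
  · simp only [regzAdj']
    fun_prop
  · simp only [regzAdj']
    fun_prop

theorem PT_regzAdj [DecidableEq P] [Fintype P] [DecidableEq τ] {r : ℕ} (QA : P → P → Bool)
    (x y : P) {s : α → τ → ℕ} (hs : PolyTime (fun z : α × τ => s z.1 z.2))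
    {adj : α → τ → τ → Bool} (h : PolyTime (fun z : α × τ × τ => adj z.1 z.2.1 z.2.2)) :
    PolyTime (fun z : α × (τ × (Bool ⊕ Fin r × P)) × (τ × (Bool ⊕ Fin r × P)) =>
      regzAdj QA x y (s z.1) (adj z.1) z.2.1 z.2.2) := by
  have hs' : PolyTime (fun z : α × τ × τ => s z.1 z.2.1) :=
    PolyTime.comp (g := fun z : α × τ => s z.1 z.2) (f := fun z : α × τ × τ => (z.1, z.2.1)) hs
      (by fun_prop)
  have h1 : ∀ c c' : Bool ⊕ Fin r × P, PolyTime (fun z : α × τ × τ =>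
      regzAdj' (τ := τ) QA x y (s z.1 z.2.1) (adj z.1 z.2.1 z.2.2) (decide (z.2.1 = z.2.2)) c c') :=
    fun c c' => PT_regzAdj' QA x y hs' h (by fun_prop) c c'
  have h2 := fun c => PT_finite (h1 c)
  have h3 := PT_finite (C := Bool ⊕ Fin r × P) (α := (α × τ × τ) × (Bool ⊕ Fin r × P))
    (F := fun z c => regzAdj' (τ := τ) QA x y (s z.1.1 z.1.2.1) (adj z.1.1 z.1.2.1 z.1.2.2)
      (decide (z.1.2.1 = z.1.2.2)) c z.2) h2
  exact PolyTime.comp h3 (f := fun z : α × (τ × (Bool ⊕ Fin r × P)) × (τ × (Bool ⊕ Fin r × P)) =>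
    (((z.1, z.2.1.1, z.2.2.1), z.2.2.2), z.2.1.2)) (by fun_prop)

theorem PT_base1Adj {n : α → ℕ} {hB : α → ℕ → ℕ → Bool} (hn : PolyTime n)
    (hh : PolyTime (fun z : α × ℕ × ℕ => hB z.1 z.2.1 z.2.2)) :
    PolyTime (fun z : α × (ℕ × ℕ × Fin 3) × (ℕ × ℕ × Fin 3) =>
      base1Adj (n z.1) (hB z.1) z.2.1 z.2.2) := by
  unfold base1Adj rel1B
  have h1 : PolyTime (fun z : α × (ℕ × ℕ × Fin 3) × (ℕ × ℕ × Fin 3) =>
      hB z.1 z.2.1.1 z.2.2.1) :=
    PolyTime.comp (g := fun z : α × ℕ × ℕ => hB z.1 z.2.1 z.2.2)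
      (f := fun z : α × (ℕ × ℕ × Fin 3) × (ℕ × ℕ × Fin 3) => (z.1, z.2.1.1, z.2.2.1)) hh
      (by fun_prop)
  have h2 : PolyTime (fun z : α × (ℕ × ℕ × Fin 3) × (ℕ × ℕ × Fin 3) =>
      hB z.1 z.2.2.1 z.2.1.1) :=
    PolyTime.comp (g := fun z : α × ℕ × ℕ => hB z.1 z.2.1 z.2.2)
      (f := fun z : α × (ℕ × ℕ × Fin 3) × (ℕ × ℕ × Fin 3) => (z.1, z.2.2.1, z.2.1.1)) hh
      (by fun_prop)
  have h3 : PolyTime (fun z : α × (ℕ × ℕ × Fin 3) × (ℕ × ℕ × Fin 3) => n z.1) :=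
    PolyTime.comp hn (by fun_prop)
  fun_prop

theorem PT_base2Adj {n : α → ℕ} {hB : α → ℕ → ℕ → Bool} (hn : PolyTime n)
    (hh : PolyTime (fun z : α × ℕ × ℕ => hB z.1 z.2.1 z.2.2)) :
    PolyTime (fun z : α × (ℕ × ℕ × Fin 7) × (ℕ × ℕ × Fin 7) =>
      base2Adj (n z.1) (hB z.1) z.2.1 z.2.2) := by
  unfold base2Adj rel2B
  have h1 : PolyTime (fun z : α × (ℕ × ℕ × Fin 7) × (ℕ × ℕ × Fin 7) =>
      hB z.1 z.2.1.1 z.2.2.1) :=
    PolyTime.comp (g := fun z : α × ℕ × ℕ => hB z.1 z.2.1 z.2.2)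
      (f := fun z : α × (ℕ × ℕ × Fin 7) × (ℕ × ℕ × Fin 7) => (z.1, z.2.1.1, z.2.2.1)) hh
      (by fun_prop)
  have h2 : PolyTime (fun z : α × (ℕ × ℕ × Fin 7) × (ℕ × ℕ × Fin 7) =>
      hB z.1 z.2.2.1 z.2.1.1) :=
    PolyTime.comp (g := fun z : α × ℕ × ℕ => hB z.1 z.2.1 z.2.2)
      (f := fun z : α × (ℕ × ℕ × Fin 7) × (ℕ × ℕ × Fin 7) => (z.1, z.2.2.1, z.2.1.1)) hh
      (by fun_prop)
  have h1' : PolyTime (fun z : α × (ℕ × ℕ × Fin 7) × (ℕ × ℕ × Fin 7) =>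
      hB z.1 z.2.1.1 z.2.1.2.1) :=
    PolyTime.comp (g := fun z : α × ℕ × ℕ => hB z.1 z.2.1 z.2.2)
      (f := fun z : α × (ℕ × ℕ × Fin 7) × (ℕ × ℕ × Fin 7) => (z.1, z.2.1.1, z.2.1.2.1)) hh
      (by fun_prop)
  have h2' : PolyTime (fun z : α × (ℕ × ℕ × Fin 7) × (ℕ × ℕ × Fin 7) =>
      hB z.1 z.2.2.1 z.2.2.2.1) :=
    PolyTime.comp (g := fun z : α × ℕ × ℕ => hB z.1 z.2.1 z.2.2)
      (f := fun z : α × (ℕ × ℕ × Fin 7) × (ℕ × ℕ × Fin 7) => (z.1, z.2.2.1, z.2.2.2.1)) hh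
      (by fun_prop)
  have h3 : PolyTime (fun z : α × (ℕ × ℕ × Fin 7) × (ℕ × ℕ × Fin 7) => n z.1) :=
    PolyTime.comp hn (by fun_prop)
  fun_prop

end poly

end Pool.Agent.Helper83.KI
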